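import Mathlib
import Pool.Agent.R528.RM.Blocks

set_option autoImplicit false
set_option linter.unusedSectionVars false

/-! # Empty windows of adapted random sets with a deterministic density profile -/

open MeasureTheory Filter Set
open scoped ENNReal Topology

namespace Pool.Agent.U462.Gap

open Pool.Agent.R528.RM (dens WV dens_meas lower_meas upper_meas WV_meas)

variable {Ω : Type} {m0 : MeasurableSpace Ω} {μ : Measure Ω} [IsProbabilityMeasure μ]
  {ℱ : Filtration ℕ m0} {A : ℕ → Set Ω}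

/-- no element in `(t, t + j]` -/
def Em (A : ℕ → Set Ω) (t j : ℕ) : Set Ω := {ω | ∀ m, t < m → m ≤ t + j → ω ∉ A m}

lemma Em_zero (A : ℕ → Set Ω) (t : ℕ) : Em A t 0 = univ := by
  ext ω
  simp only [Em, mem_ofPred_eq, mem_univ, iff_true]
  intro m h1 h2
  omega

lemma Em_succ (A : ℕ → Set Ω) (t j : ℕ) : Em A t (j + 1) = Em A t j \ A (t + j + 1) := by
  ext ω
  simp only [Em, mem_ofPred_eq, Set.mem_sdiff]
  constructor
  · intro h
    exact ⟨fun m h1 h2 => h m h1 (by omega), h _ (by omega) (by omega)⟩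
  · rintro ⟨h1, h2⟩ m h3 h4
    rcases Nat.lt_or_ge m (t + j + 1) with h | h
    · exact h1 m h3 (by omega)
    · have : m = t + j + 1 := by omega
      rw [this]; exact h2

lemma Em_meas (hA : ∀ n, MeasurableSet[ℱ n] (A n)) (t j : ℕ) : MeasurableSet[ℱ (t + j)] (Em A t j) := by
  induction j with
  | zero => rw [Em_zero]; exact MeasurableSet.univ
  | succ j ih =>
    rw [Em_succ]
    exact (ℱ.mono (by omega) _ ih).diff (hA _)

lemma WV_succ' (V : ℕ → Set Ω) (t j : ℕ) : WV V t (j + 1) = WV V t j ∪ V (t + j) := by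
  ext ω
  simp only [WV, mem_ofPred_eq, mem_union]
  constructor
  · rintro ⟨n, h1, h2, h3⟩
    rcases Nat.lt_or_ge n (t + j) with h | h
    · left; exact ⟨n, h1, h, h3⟩
    · right
      have : n = t + j := by omega
      rw [← this]; exact h3
  · rintro (⟨n, h1, h2, h3⟩ | h)
    · exact ⟨n, h1, by omega, h3⟩
    · exact ⟨t + j, by omega, by omega, h⟩

/-- upper bound for the probability of an empty window -/
theorem E_le (hA : ∀ n, MeasurableSet[ℱ n] (A n)) {V : ℕ → Set Ω} (hV : ∀ n, MeasurableSet[ℱ n] (V n))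
    (l : ℕ → ℝ) (t : ℕ) {B : Set Ω} (hB : MeasurableSet[ℱ t] B) (J : ℕ)
    (hl : ∀ n, t ≤ n → n < t + J → l (n + 1) ≤ 1)
    (hbd : ∀ n, t ≤ n → n < t + J → ∀ ω, ω ∉ V n → l (n + 1) ≤ dens μ ℱ A n ω) :
    ∀ j ≤ J, μ.real ((B ∩ Em A t j) \ WV V t j) ≤ Real.exp (-∑ m ∈ Finset.Ioc t (t + j), l m) * μ.real B := by
  intro j
  induction j with
  | zero =>
    intro _
    simp only [Em_zero, inter_univ, add_zero, Finset.Ioc_self, Finset.sum_empty, neg_zero, Real.exp_zero, one_mul]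
    exact measureReal_mono sdiff_subset
  | succ j ih =>
    intro hj
    have ih := ih (by omega)
    obtain ⟨X, hX⟩ : ∃ X, X = (B ∩ Em A t j) \ WV V t j := ⟨_, rfl⟩
    rw [← hX] at ih
    have hXm : MeasurableSet[ℱ (t + j)] X := by
      rw [hX]
      exact ((ℱ.mono (by omega) _ hB).inter (Em_meas hA t j)).diff (WV_meas hV t j)
    have hYm : MeasurableSet[ℱ (t + j)] (X \ V (t + j)) := hXm.diff (hV _)
    have hsub : (B ∩ Em A t (j + 1)) \ WV V t (j + 1) ⊆ (X \ V (t + j)) \ A (t + j + 1) := by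
      intro ω hω
      rw [Em_succ, WV_succ'] at hω
      rw [hX]
      simp only [mem_inter_iff, Set.mem_sdiff, mem_union, not_or] at hω ⊢
      tauto
    have hA' : MeasurableSet (A (t + j + 1)) := ℱ.le _ _ (hA _)
    have h1 := lower_meas (μ := μ) hA (t + j) hYm (l := l (t + j + 1))
      (fun ω hω => hbd (t + j) (by omega) (by omega) ω hω.2)
    have h2 := measureReal_inter_add_sdiff (μ := μ) (s := X \ V (t + j)) hA'
    have h3 : μ.real (X \ V (t + j)) ≤ μ.real X := measureReal_mono sdiff_subset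
    have h4 : μ.real ((B ∩ Em A t (j + 1)) \ WV V t (j + 1)) ≤ (1 - l (t + j + 1)) * μ.real X := by
      have h5 : μ.real ((B ∩ Em A t (j + 1)) \ WV V t (j + 1)) ≤ μ.real ((X \ V (t + j)) \ A (t + j + 1)) :=
        measureReal_mono hsub
      have h6 : (1 - l (t + j + 1)) * μ.real (X \ V (t + j)) ≤ (1 - l (t + j + 1)) * μ.real X :=
        mul_le_mul_of_nonneg_left h3 (by linarith [hl (t + j) (by omega) (by omega)])
      linarith
    have h5 : 1 - l (t + j + 1) ≤ Real.exp (-l (t + j + 1)) := by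
      have := Real.add_one_le_exp (-l (t + j + 1))
      linarith
    have h6 : 0 ≤ μ.real X := measureReal_nonneg
    have h7 : ∑ m ∈ Finset.Ioc t (t + (j + 1)), l m = ∑ m ∈ Finset.Ioc t (t + j), l m + l (t + j + 1) := by
      rw [← add_assoc, Finset.sum_Ioc_succ_top (by omega)]
    calc μ.real ((B ∩ Em A t (j + 1)) \ WV V t (j + 1)) ≤ (1 - l (t + j + 1)) * μ.real X := h4
      _ ≤ Real.exp (-l (t + j + 1)) * μ.real X := mul_le_mul_of_nonneg_right h5 h6
      _ ≤ Real.exp (-l (t + j + 1)) * (Real.exp (-∑ m ∈ Finset.Ioc t (t + j), l m) * μ.real B) :=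
        mul_le_mul_of_nonneg_left ih (Real.exp_pos _).le
      _ = Real.exp (-∑ m ∈ Finset.Ioc t (t + (j + 1)), l m) * μ.real B := by
        rw [← mul_assoc, ← Real.exp_add, h7]
        congr 2
        ring

lemma one_sub_ge {x : ℝ} (_ : 0 ≤ x) (h1 : x ≤ 1 / 2) : Real.exp (-(x + 2 * x ^ 2)) ≤ 1 - x := by
  have h2 : 0 < 1 - x := by linarith
  have h3 := Real.add_one_le_exp (x / (1 - x))
  have h4 : x / (1 - x) + 1 = 1 / (1 - x) := by field_simp; ring
  rw [h4] at h3
  have h5 : Real.exp (-(x / (1 - x))) ≤ 1 - x := by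
    rw [Real.exp_neg]
    calc (Real.exp (x / (1 - x)))⁻¹ ≤ (1 / (1 - x))⁻¹ := inv_anti₀ (by positivity) h3
      _ = 1 - x := by rw [one_div, inv_inv]
  refine le_trans (Real.exp_le_exp.mpr ?_) h5
  have h6 : x / (1 - x) ≤ x + 2 * x ^ 2 := by
    rw [div_le_iff₀ h2]
    nlinarith [sq_nonneg x]
  linarith

/-- lower bound for the probability of an empty window (or a violation) -/
theorem E_ge (hA : ∀ n, MeasurableSet[ℱ n] (A n)) {V : ℕ → Set Ω} (hV : ∀ n, MeasurableSet[ℱ n] (V n))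
    (u : ℕ → ℝ) (t : ℕ) {B : Set Ω} (hB : MeasurableSet[ℱ t] B) (J : ℕ)
    (hu : ∀ n, t ≤ n → n < t + J → 0 ≤ u (n + 1) ∧ u (n + 1) ≤ 1 / 2)
    (hbd : ∀ n, t ≤ n → n < t + J → ∀ ω, ω ∉ V n → dens μ ℱ A n ω ≤ u (n + 1)) :
    ∀ j ≤ J, Real.exp (-∑ m ∈ Finset.Ioc t (t + j), (u m + 2 * u m ^ 2)) * μ.real B ≤
      μ.real (B ∩ (Em A t j ∪ WV V t j)) := by
  intro j
  induction j with
  | zero =>
    intro _
    simp [Em_zero]
  | succ j ih =>
    intro hj
    have ih := ih (by omega)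
    obtain ⟨Y, hY⟩ : ∃ Y, Y = B ∩ (Em A t j ∪ WV V t j) := ⟨_, rfl⟩
    rw [← hY] at ih
    obtain ⟨Z, hZ⟩ : ∃ Z, Z = ((B ∩ Em A t j) \ WV V t j) \ V (t + j) := ⟨_, rfl⟩
    have hZm : MeasurableSet[ℱ (t + j)] Z := by
      rw [hZ]
      exact (((ℱ.mono (by omega) _ hB).inter (Em_meas hA t j)).diff (WV_meas hV t j)).diff (hV _)
    have hA' : MeasurableSet (A (t + j + 1)) := ℱ.le _ _ (hA _)
    have hsub : Y ⊆ (B ∩ (Em A t (j + 1) ∪ WV V t (j + 1))) ∪ (Z ∩ A (t + j + 1)) := by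
      intro ω hω
      rw [hY] at hω
      rw [hZ, Em_succ, WV_succ']
      simp only [mem_inter_iff, Set.mem_sdiff, mem_union] at hω ⊢
      tauto
    have h1 := upper_meas (μ := μ) hA (t + j) hZm (u := u (t + j + 1))
      (fun ω hω => hbd (t + j) (by omega) (by omega) ω (by rw [hZ] at hω; exact hω.2))
    have h2 : μ.real Y ≤ μ.real (B ∩ (Em A t (j + 1) ∪ WV V t (j + 1))) + μ.real (Z ∩ A (t + j + 1)) :=
      (measureReal_mono hsub).trans (measureReal_union_le _ _)
    have h3 : μ.real Z ≤ μ.real Y := by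
      refine measureReal_mono ?_ (measure_ne_top _ _)
      intro ω hω
      rw [hZ] at hω
      rw [hY]
      exact ⟨hω.1.1.1, Or.inl hω.1.1.2⟩
    obtain ⟨hu0, hu1⟩ := hu (t + j) (by omega) (by omega)
    have h4 := one_sub_ge hu0 hu1
    have h6 : 0 ≤ μ.real Y := measureReal_nonneg
    have h7 : ∑ m ∈ Finset.Ioc t (t + (j + 1)), (u m + 2 * u m ^ 2) =
        ∑ m ∈ Finset.Ioc t (t + j), (u m + 2 * u m ^ 2) + (u (t + j + 1) + 2 * u (t + j + 1) ^ 2) := by
      rw [← add_assoc, Finset.sum_Ioc_succ_top (by omega)]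
    calc Real.exp (-∑ m ∈ Finset.Ioc t (t + (j + 1)), (u m + 2 * u m ^ 2)) * μ.real B
        = Real.exp (-(u (t + j + 1) + 2 * u (t + j + 1) ^ 2)) *
          (Real.exp (-∑ m ∈ Finset.Ioc t (t + j), (u m + 2 * u m ^ 2)) * μ.real B) := by
          rw [← mul_assoc, ← Real.exp_add, h7]
          congr 2
          ring
      _ ≤ Real.exp (-(u (t + j + 1) + 2 * u (t + j + 1) ^ 2)) * μ.real Y :=
          mul_le_mul_of_nonneg_left ih (Real.exp_pos _).le
      _ ≤ (1 - u (t + j + 1)) * μ.real Y := mul_le_mul_of_nonneg_right h4 h6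
      _ ≤ μ.real (B ∩ (Em A t (j + 1) ∪ WV V t (j + 1))) := by
          have : u (t + j + 1) * μ.real Z ≤ u (t + j + 1) * μ.real Y := mul_le_mul_of_nonneg_left h3 hu0
          linarith

/-! ### The number of successes in successive trials -/

open Classical in
/-- number of successes among the trials `a, ..., a + j - 1` -/
noncomputable def cs (D : ℕ → Set Ω) (a j : ℕ) (ω : Ω) : ℕ :=
  ∑ r ∈ Finset.range j, if ω ∈ D (a + r) then 1 else 0

open Classical in
lemma cs_succ (D : ℕ → Set Ω) (a j : ℕ) (ω : Ω) :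
    cs D a (j + 1) ω = cs D (a + 1) j ω + if ω ∈ D a then 1 else 0 := by
  unfold cs
  rw [Finset.sum_range_succ']
  congr 1
  apply Finset.sum_congr rfl
  intro r _
  have e : a + (r + 1) = a + 1 + r := by ring
  rw [e]

/-- lower tail of the number of successes -/
theorem low_tail (D : ℕ → Set Ω) (s : ℕ → ℕ) (hs : Monotone s) (p : ℕ → ℝ) (j : ℕ) :
    ∀ a, (∀ m, a ≤ m → m < a + j → MeasurableSet[ℱ (s (m + 1))] (D m)) →
      (∀ m, a ≤ m → m < a + j → ∀ C, MeasurableSet[ℱ (s m)] C → p m * μ.real C ≤ μ.real (C ∩ D m)) →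
      ∀ B, MeasurableSet[ℱ (s a)] B → ∀ K : ℕ,
        μ.real (B ∩ {ω | cs D a j ω ≤ K}) ≤
          Real.exp (K - (1 - Real.exp (-1)) * ∑ m ∈ Finset.Ico a (a + j), p m) * μ.real B := by
  have hκ : 0 ≤ 1 - Real.exp (-1) := by
    have : Real.exp (-1) ≤ 1 := Real.exp_le_one_iff.2 (by norm_num)
    linarith
  induction j with
  | zero =>
    intro a _ _ B _ K
    simp only [add_zero, Finset.Ico_self, Finset.sum_empty, mul_zero, sub_zero]
    have h1 : μ.real (B ∩ {ω | cs D a 0 ω ≤ K}) ≤ μ.real B := measureReal_mono inter_subset_left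
    have h2 : (1 : ℝ) ≤ Real.exp K := Real.one_le_exp (Nat.cast_nonneg K)
    have h3 : 0 ≤ μ.real B := measureReal_nonneg
    nlinarith
  | succ j ih =>
    intro a hD hp B hB K
    have ih := ih (a + 1) (fun m h1 h2 => hD m (by omega) (by omega)) (fun m h1 h2 => hp m (by omega) (by omega))
    have hDa := hD a le_rfl (by omega)
    have hDa' : MeasurableSet (D a) := ℱ.le _ _ hDa
    have hB1 : MeasurableSet[ℱ (s (a + 1))] B := ℱ.mono (hs (Nat.le_succ a)) _ hB
    have h1 := ih (B \ D a) (hB1.diff hDa) K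
    have h2 : μ.real ((B ∩ D a) ∩ {ω | cs D (a + 1) j ω + 1 ≤ K}) ≤
        Real.exp (K - 1 - (1 - Real.exp (-1)) * ∑ m ∈ Finset.Ico (a + 1) (a + 1 + j), p m) * μ.real (B ∩ D a) := by
      rcases Nat.eq_zero_or_pos K with hK | hK
      · have : {ω | cs D (a + 1) j ω + 1 ≤ K} = ∅ := by
          ext ω
          simp only [mem_ofPred_eq, mem_empty_iff_false, iff_false]
          omega
        rw [this, inter_empty, measureReal_empty]
        positivity
      · have h3 := ih (B ∩ D a) (hB1.inter hDa) (K - 1)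
        have h4 : {ω | cs D (a + 1) j ω + 1 ≤ K} = {ω | cs D (a + 1) j ω ≤ K - 1} := by
          ext ω
          simp only [mem_ofPred_eq]
          omega
        rw [h4]
        have h5 : ((K - 1 : ℕ) : ℝ) = K - 1 := by
          rw [Nat.cast_sub hK]; simp
        rw [h5] at h3
        exact h3
    have hsub : B ∩ {ω | cs D a (j + 1) ω ≤ K} ⊆
        ((B \ D a) ∩ {ω | cs D (a + 1) j ω ≤ K}) ∪ ((B ∩ D a) ∩ {ω | cs D (a + 1) j ω + 1 ≤ K}) := by
      rintro ω ⟨h3, h4⟩
      rw [mem_ofPred_eq, cs_succ] at h4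
      by_cases h5 : ω ∈ D a
      · right
        rw [if_pos h5] at h4
        exact ⟨⟨h3, h5⟩, h4⟩
      · left
        rw [if_neg h5] at h4
        exact ⟨⟨h3, h5⟩, h4⟩
    have h3 := (measureReal_mono (μ := μ) hsub).trans (measureReal_union_le _ _)
    have h4 := hp a le_rfl (by omega) B hB
    have h5 := measureReal_inter_add_sdiff (μ := μ) (s := B) hDa'
    obtain ⟨E, hE⟩ : ∃ E, E = (1 - Real.exp (-1)) * ∑ m ∈ Finset.Ico (a + 1) (a + 1 + j), p m := ⟨_, rfl⟩
    rw [← hE] at h1 h2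
    have h6 : Real.exp ((K : ℝ) - 1 - E) = Real.exp (-1) * Real.exp (K - E) := by
      rw [← Real.exp_add]; congr 1; ring
    rw [h6] at h2
    have h7 : ∑ m ∈ Finset.Ico a (a + (j + 1)), p m = p a + ∑ m ∈ Finset.Ico (a + 1) (a + 1 + j), p m := by
      rw [← Finset.sum_eq_sum_Ico_succ_bot (by omega)]
      congr 2
      ring
    have h8 : Real.exp (K - (1 - Real.exp (-1)) * ∑ m ∈ Finset.Ico a (a + (j + 1)), p m) =
        Real.exp (-((1 - Real.exp (-1)) * p a)) * Real.exp (K - E) := by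
      rw [h7, ← Real.exp_add, hE]
      congr 1
      ring
    rw [h8]
    have h9 : 1 - (1 - Real.exp (-1)) * p a ≤ Real.exp (-((1 - Real.exp (-1)) * p a)) := by
      have := Real.add_one_le_exp (-((1 - Real.exp (-1)) * p a))
      linarith
    have h10 : 0 ≤ μ.real B := measureReal_nonneg
    have h11 : 0 < Real.exp (K - E) := Real.exp_pos _
    calc μ.real (B ∩ {ω | cs D a (j + 1) ω ≤ K})
        ≤ Real.exp (K - E) * μ.real (B \ D a) + Real.exp (-1) * Real.exp (K - E) * μ.real (B ∩ D a) := by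
          linarith
      _ = Real.exp (K - E) * (μ.real B - (1 - Real.exp (-1)) * μ.real (B ∩ D a)) := by
          rw [← h5]; ring
      _ ≤ Real.exp (K - E) * (μ.real B - (1 - Real.exp (-1)) * (p a * μ.real B)) := by
          apply mul_le_mul_of_nonneg_left _ h11.le
          have := mul_le_mul_of_nonneg_left h4 hκ
          linarith
      _ = (1 - (1 - Real.exp (-1)) * p a) * (Real.exp (K - E) * μ.real B) := by ring
      _ ≤ Real.exp (-((1 - Real.exp (-1)) * p a)) * (Real.exp (K - E) * μ.real B) :=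
          mul_le_mul_of_nonneg_right h9 (by positivity)
      _ = Real.exp (-((1 - Real.exp (-1)) * p a)) * Real.exp (K - E) * μ.real B := by ring

/-- Markov's inequality for the number of events which occur -/
theorem markov {ι : Type} (S : Finset ι) (F : ι → Set Ω) (hF : ∀ i ∈ S, MeasurableSet (F i)) {x : ℝ} (hx : 0 < x) :
    μ.real {ω | x < ∑ i ∈ S, (F i).indicator (fun _ => (1 : ℝ)) ω} ≤ (∑ i ∈ S, μ.real (F i)) / x := by
  have h1 : Integrable (fun ω => ∑ i ∈ S, (F i).indicator (fun _ => (1 : ℝ)) ω) μ :=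
    integrable_finsetSum _ fun i hi => (integrable_const (1 : ℝ)).indicator (hF i hi)
  have h2 := mul_meas_ge_le_integral_of_nonneg (μ := μ) (f := fun ω => ∑ i ∈ S, (F i).indicator (fun _ => (1 : ℝ)) ω)
    (Eventually.of_forall fun ω => Finset.sum_nonneg fun i _ => by
      by_cases h : ω ∈ F i <;> simp [h]) h1 x
  have h3 : ∫ ω, ∑ i ∈ S, (F i).indicator (fun _ => (1 : ℝ)) ω ∂μ = ∑ i ∈ S, μ.real (F i) := by
    rw [integral_finsetSum _ fun i hi => (integrable_const (1 : ℝ)).indicator (hF i hi)]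
    apply Finset.sum_congr rfl
    intro i hi
    rw [integral_indicator_const _ (hF i hi), smul_eq_mul, mul_one]
  rw [h3] at h2
  rw [le_div_iff₀ hx, mul_comm]
  refine le_trans (mul_le_mul_of_nonneg_left ?_ hx.le) h2
  apply measureReal_mono _ (measure_ne_top _ _)
  intro ω hω
  have hω' : x < ∑ i ∈ S, (F i).indicator (fun _ => (1 : ℝ)) ω := hω
  exact hω'.le

end Pool.Agent.U462.Gap
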