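import Mathlib
import Pool.Agent.U462.Gap.Win

set_option autoImplicit false
set_option linter.unusedSectionVars false

/-! # The number of empty windows: upper bound -/

open MeasureTheory Filter Set
open scoped ENNReal Topology

namespace Pool.Agent.U462.Gap

open Pool.Agent.R528.RM (dens WV dens_meas lower_meas upper_meas WV_meas)

/-- length of the window at `n` -/
noncomputable def wl (c : ℝ) (n : ℕ) : ℕ := ⌊c * Real.log n ^ 2⌋₊

/-- mass of the window `(n, n + c log² n]` -/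
noncomputable def ms (a : ℕ → ℝ) (c : ℝ) (n : ℕ) : ℝ := ∑ m ∈ Finset.Ioc n (n + wl c n), a m

/-- the expected number of empty windows in the block `[2 ^ i, 2 ^ (i + 1))` -/
noncomputable def EE (a : ℕ → ℝ) (c : ℝ) (i : ℕ) : ℝ :=
  ∑ n ∈ Finset.Ico (2 ^ i) (2 ^ (i + 1)), Real.exp (-ms a c n)

open Classical in
/-- the number of empty windows in the block `[2 ^ i, 2 ^ (i + 1))` -/
noncomputable def ZZ (S : Set ℕ) (c : ℝ) (i : ℕ) : ℕ :=
  ((Finset.Ico (2 ^ i) (2 ^ (i + 1))).filter (fun n => ∀ m, n < m → m ≤ n + wl c n → m ∉ S)).card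

/-- a random set with the profile `a`: adapted, and the conditional probabilities are asymptotic to `a` -/
structure Model {Ω : Type} {m0 : MeasurableSpace Ω} (μ : Measure Ω) (ℱ : Filtration ℕ m0)
    (A : ℕ → Set Ω) (a : ℕ → ℝ) : Prop where
  adapted : ∀ n, MeasurableSet[ℱ n] (A n)
  law : ∀ᵐ ω ∂μ, ∀ ε : ℝ, 0 < ε → ∀ᶠ n : ℕ in atTop, |dens μ ℱ A n ω - a (n + 1)| ≤ ε * a (n + 1)

variable {Ω : Type} {m0 : MeasurableSpace Ω} {μ : Measure Ω} [IsProbabilityMeasure μ]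
  {ℱ : Filtration ℕ m0} {A : ℕ → Set Ω} {a : ℕ → ℝ}

/-- the violation event -/
def VD (μ : Measure Ω) (ℱ : Filtration ℕ m0) (A : ℕ → Set Ω) (a : ℕ → ℝ) (δ : ℝ) (n : ℕ) : Set Ω :=
  {ω | ¬ |dens μ ℱ A n ω - a (n + 1)| ≤ δ * a (n + 1)}

lemma VD_meas (δ : ℝ) (n : ℕ) : MeasurableSet[ℱ n] (VD μ ℱ A a δ n) := by
  have h2 : MeasurableSet {x : ℝ | ¬ |x - a (n + 1)| ≤ δ * a (n + 1)} := by
    have : Measurable (fun x : ℝ => |x - a (n + 1)|) := by fun_prop
    exact (this measurableSet_Iic).compl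
  exact (dens_meas n).measurable h2

lemma no_VD (h : Model μ ℱ A a) {δ : ℝ} (hδ : 0 < δ) :
    ∀ᵐ ω ∂μ, ∃ n₀ : ℕ, ∀ n, n₀ ≤ n → ω ∉ VD μ ℱ A a δ n := by
  filter_upwards [h.law] with ω hω
  obtain ⟨n₀, hn₀⟩ := eventually_atTop.1 (hω δ hδ)
  exact ⟨n₀, fun n hn => by simp only [VD, mem_ofPred_eq, not_not]; exact hn₀ n hn⟩

lemma EE_pos (a : ℕ → ℝ) (c : ℝ) (i : ℕ) : 0 < EE a c i := by
  unfold EE
  apply Finset.sum_pos
  · intro n _; exact Real.exp_pos _
  · rw [Finset.nonempty_Ico]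
    exact Nat.pow_lt_pow_right (by norm_num) (Nat.lt_succ_self i)

lemma card_block (i : ℕ) : (Finset.Ico (2 ^ i) (2 ^ (i + 1))).card = 2 ^ i := by
  rw [Nat.card_Ico, pow_succ]
  omega

lemma summable_exp_neg {β : ℝ} (hβ : 0 < β) : Summable (fun i : ℕ => Real.exp (-(β * i))) := by
  have h1 : Real.exp (-β) < 1 := by
    rw [Real.exp_lt_one_iff]; linarith
  have h2 := summable_geometric_of_lt_one (Real.exp_pos (-β)).le h1
  refine h2.congr fun i => ?_
  rw [← Real.exp_nat_mul]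
  congr 1
  ring

lemma two_rpow (x : ℝ) : (2 : ℝ) ^ x = Real.exp (Real.log 2 * x) := Real.rpow_def_of_pos two_pos x

/-- Borel-Cantelli from a summable bound for the real measures -/
lemma bc {X : ℕ → Set Ω} {b : ℕ → ℝ} (hb : Summable b) (h : ∀ᶠ i in atTop, μ.real (X i) ≤ b i) :
    ∀ᵐ ω ∂μ, ∀ᶠ i in atTop, ω ∉ X i := by
  apply ae_eventually_notMem
  have h2 : Summable (fun i : ℕ => μ.real (X i)) := by
    refine Summable.of_norm_bounded_eventually_nat hb ?_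
    filter_upwards [h] with i hi
    rw [Real.norm_of_nonneg measureReal_nonneg]
    exact hi
  have h3 : ∑' i : ℕ, μ (X i) = ENNReal.ofReal (∑' i : ℕ, μ.real (X i)) := by
    rw [ENNReal.ofReal_tsum_of_nonneg (fun _ => measureReal_nonneg) h2]
    congr 1
    funext i
    exact (ofReal_measureReal (measure_ne_top _ _)).symm
  rw [h3]
  exact ENNReal.ofReal_ne_top

theorem count_up (h : Model μ ℱ A a) (ha : ∀ n, 0 ≤ a n) (ha0 : Tendsto a atTop (𝓝 0)) (c : ℝ)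
    {ε : ℝ} (hε : 0 < ε) :
    ∀ᵐ ω ∂μ, ∀ᶠ i : ℕ in atTop, (ZZ {n | ω ∈ A n} c i : ℝ) ≤ (2 : ℝ) ^ (ε * i) * EE a c i := by
  classical
  have hl2 : 0 < Real.log 2 := Real.log_pos (by norm_num)
  obtain ⟨δ, hδ0, hδ1, hδ2⟩ : ∃ δ : ℝ, 0 < δ ∧ δ ≤ 1 / 2 ∧ 4 * δ ≤ ε / 2 * Real.log 2 :=
    ⟨min (1 / 2) (ε / 8 * Real.log 2), lt_min (by norm_num) (by positivity), min_le_left _ _, by
      have := min_le_right (1 / 2) (ε / 8 * Real.log 2)
      linarith⟩
  obtain ⟨V, hVd⟩ : ∃ V, V = VD μ ℱ A a δ := ⟨_, rfl⟩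
  have hV : ∀ n, MeasurableSet[ℱ n] (V n) := fun n => by rw [hVd]; exact VD_meas δ n
  obtain ⟨F, hF⟩ : ∃ F : ℕ → Set Ω, F = fun n => Em A n (wl c n) \ WV V n (wl c n) := ⟨_, rfl⟩
  have hFm : ∀ n, MeasurableSet (F n) := fun n => by
    rw [hF]
    exact (ℱ.le _ _ (Em_meas h.adapted n _)).diff (ℱ.le _ _ (WV_meas hV n _))
  obtain ⟨n₁, hn₁⟩ := eventually_atTop.1 (ha0.eventually (eventually_le_nhds (show (0 : ℝ) < 1 by norm_num)))
  have hFp : ∀ n, n₁ ≤ n → μ.real (F n) ≤ Real.exp (-((1 - δ) * ms a c n)) := by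
    intro n hn
    have h1 := E_le (μ := μ) h.adapted hV (fun m => (1 - δ) * a m) n (B := univ) MeasurableSet.univ (wl c n)
      (fun m h1 _ => by
        have := hn₁ (m + 1) (by omega)
        have h2 := ha (m + 1)
        nlinarith)
      (fun m h1 _ ω hω => by
        rw [hVd] at hω
        simp only [VD, mem_ofPred_eq, not_not] at hω
        have := (abs_le.1 hω).1
        linarith) (wl c n) le_rfl
    rw [univ_inter, probReal_univ, mul_one, ← Finset.mul_sum] at h1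
    rw [hF]
    exact h1
  obtain ⟨S₁, hS₁⟩ : ∃ S₁ : ℕ → Finset ℕ, S₁ = fun i : ℕ => (Finset.Ico (2 ^ i) (2 ^ (i + 1))).filter
    (fun n => ms a c n ≤ 4 * (i : ℝ)) := ⟨_, rfl⟩
  obtain ⟨S₂, hS₂⟩ : ∃ S₂ : ℕ → Finset ℕ, S₂ = fun i : ℕ => (Finset.Ico (2 ^ i) (2 ^ (i + 1))).filter
    (fun n => ¬ ms a c n ≤ 4 * (i : ℝ)) := ⟨_, rfl⟩
  have hlarge : ∀ᶠ i : ℕ in atTop, n₁ ≤ 2 ^ i := by
    filter_upwards [eventually_ge_atTop n₁] with i hi
    exact hi.trans Nat.lt_two_pow_self.le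
  -- long windows
  have hX : ∀ᵐ ω ∂μ, ∀ᶠ i in atTop, ω ∉ ⋃ n ∈ S₂ i, F n := by
    refine bc (b := fun i : ℕ => Real.exp (-(1 * i))) (summable_exp_neg one_pos) ?_
    filter_upwards [hlarge] with i hi
    have h1 : μ.real (⋃ n ∈ S₂ i, F n) ≤ ∑ n ∈ S₂ i, μ.real (F n) := measureReal_biUnion_finset_le _ _
    have h2 : ∑ n ∈ S₂ i, μ.real (F n) ≤ ∑ n ∈ S₂ i, Real.exp (-(2 * i)) := by
      apply Finset.sum_le_sum
      intro n hn
      rw [hS₂, Finset.mem_filter, Finset.mem_Ico, not_le] at hn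
      refine (hFp n (by omega)).trans (Real.exp_le_exp.2 ?_)
      have h3 : (0 : ℝ) ≤ i := Nat.cast_nonneg i
      nlinarith [hn.2]
    have h3 : (S₂ i).card ≤ 2 ^ i := by
      rw [← card_block i, hS₂]
      exact Finset.card_filter_le _ _
    have h4 : ((S₂ i).card : ℝ) ≤ Real.exp i := by
      have h5 : ((S₂ i).card : ℝ) ≤ 2 ^ i := by exact_mod_cast h3
      refine h5.trans ?_
      have h6 : (2 : ℝ) ≤ Real.exp 1 := by
        have := Real.add_one_le_exp (1 : ℝ); linarith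
      calc (2 : ℝ) ^ i ≤ (Real.exp 1) ^ i := pow_le_pow_left₀ (by norm_num) h6 i
        _ = Real.exp i := by rw [← Real.exp_nat_mul, mul_one]
    rw [Finset.sum_const, nsmul_eq_mul] at h2
    calc μ.real (⋃ n ∈ S₂ i, F n) ≤ (S₂ i).card * Real.exp (-(2 * i)) := h1.trans h2
      _ ≤ Real.exp i * Real.exp (-(2 * i)) := mul_le_mul_of_nonneg_right h4 (Real.exp_pos _).le
      _ = Real.exp (-(1 * i)) := by rw [← Real.exp_add]; congr 1; ring
  -- short windows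
  have hY : ∀ᵐ ω ∂μ, ∀ᶠ i : ℕ in atTop,
      ω ∉ {ω | (2 : ℝ) ^ (ε * i) * EE a c i < ∑ n ∈ S₁ i, (F n).indicator (fun _ => (1 : ℝ)) ω} := by
    refine bc (b := fun i : ℕ => Real.exp (-((ε / 2 * Real.log 2) * i))) (summable_exp_neg (by positivity)) ?_
    filter_upwards [hlarge] with i hi
    have hE := EE_pos a c i
    have hpos : 0 < (2 : ℝ) ^ (ε * i) * EE a c i := by positivity
    refine (markov (μ := μ) (S₁ i) F (fun n _ => hFm n) hpos).trans ?_
    rw [div_le_iff₀ hpos]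
    have h1 : ∑ n ∈ S₁ i, μ.real (F n) ≤ ∑ n ∈ S₁ i, Real.exp (4 * δ * i) * Real.exp (-ms a c n) := by
      apply Finset.sum_le_sum
      intro n hn
      rw [hS₁, Finset.mem_filter, Finset.mem_Ico] at hn
      refine (hFp n (by omega)).trans ?_
      rw [← Real.exp_add]
      apply Real.exp_le_exp.2
      have := mul_le_mul_of_nonneg_left hn.2 hδ0.le
      linarith
    have h2 : ∑ n ∈ S₁ i, Real.exp (4 * δ * i) * Real.exp (-ms a c n) ≤ Real.exp (4 * δ * i) * EE a c i := by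
      rw [← Finset.mul_sum]
      apply mul_le_mul_of_nonneg_left _ (Real.exp_pos _).le
      unfold EE
      apply Finset.sum_le_sum_of_subset_of_nonneg
      · rw [hS₁]; exact Finset.filter_subset _ _
      · intro n _ _; exact (Real.exp_pos _).le
    refine h1.trans (h2.trans ?_)
    rw [two_rpow, ← mul_assoc, ← Real.exp_add]
    apply mul_le_mul_of_nonneg_right _ hE.le
    apply Real.exp_le_exp.2
    have h3 : (0 : ℝ) ≤ i := Nat.cast_nonneg i
    nlinarith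
  filter_upwards [hX, hY, no_VD h hδ0] with ω g1 g2 g3
  obtain ⟨n₀, hn₀⟩ := g3
  have hlarge2 : ∀ᶠ i : ℕ in atTop, n₀ ≤ 2 ^ i := by
    filter_upwards [eventually_ge_atTop n₀] with i hi
    exact hi.trans Nat.lt_two_pow_self.le
  filter_upwards [g1, g2, hlarge2] with i h1 h2 h3
  have h2' : ∑ n ∈ S₁ i, (F n).indicator (fun _ => (1 : ℝ)) ω ≤ (2 : ℝ) ^ (ε * i) * EE a c i := by
    by_contra hcon
    exact h2 (not_le.1 hcon)
  refine le_trans ?_ h2'
  have hmem : ∀ n ∈ Finset.Ico (2 ^ i) (2 ^ (i + 1)), (∀ m, n < m → m ≤ n + wl c n → m ∉ {n | ω ∈ A n}) → ω ∈ F n := by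
    intro n hn hn2
    rw [Finset.mem_Ico] at hn
    rw [hF]
    refine ⟨fun m h4 h5 => hn2 m h4 h5, ?_⟩
    rintro ⟨k, h4, _, h6⟩
    rw [hVd] at h6
    exact hn₀ k (by omega) h6
  have hsub : (Finset.Ico (2 ^ i) (2 ^ (i + 1))).filter (fun n => ∀ m, n < m → m ≤ n + wl c n → m ∉ {n | ω ∈ A n}) ⊆
      (S₁ i).filter (fun n => ω ∈ F n) := by
    intro n hn
    rw [Finset.mem_filter] at hn
    have h4 := hmem n hn.1 hn.2
    rw [Finset.mem_filter]
    refine ⟨?_, h4⟩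
    rw [hS₁, Finset.mem_filter]
    refine ⟨hn.1, ?_⟩
    by_contra hcon
    apply h1
    rw [mem_iUnion₂]
    refine ⟨n, ?_, h4⟩
    rw [hS₂, Finset.mem_filter]
    exact ⟨hn.1, hcon⟩
  have h5 : ((S₁ i).filter (fun n => ω ∈ F n)).card = ∑ n ∈ S₁ i, (F n).indicator (fun _ => (1 : ℝ)) ω := by
    rw [Finset.card_filter]
    push_cast
    apply Finset.sum_congr rfl
    intro n _
    by_cases h6 : ω ∈ F n <;> simp [h6]
  rw [← h5]
  unfold ZZ
  exact_mod_cast Finset.card_le_card hsub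

end Pool.Agent.U462.Gap
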