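import Mathlib
import Pool.Agent.U462.Gap.Up

set_option autoImplicit false
set_option linter.unusedSectionVars false

/-! # The number of empty windows: lower bound -/

open MeasureTheory Filter Set
open scoped ENNReal Topology

namespace Pool.Agent.U462.Gap

open Pool.Agent.R528.RM (dens WV dens_meas lower_meas upper_meas WV_meas)

variable {Ω : Type} {m0 : MeasurableSpace Ω} {μ : Measure Ω} [IsProbabilityMeasure μ]
  {ℱ : Filtration ℕ m0} {A : ℕ → Set Ω} {a : ℕ → ℝ}

/-- a residue class with a large share of a sum -/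
lemma exists_residue (S : Finset ℕ) (f : ℕ → ℝ) (hf : ∀ n ∈ S, 0 ≤ f n) (b H M : ℕ) (hH : 0 < H)
    (hS : ∀ n ∈ S, b ≤ n ∧ n < b + M) :
    ∃ r < H, (∑ n ∈ S, f n) / H ≤ ∑ m ∈ Finset.range M, if b + r + H * m ∈ S then f (b + r + H * m) else 0 := by
  classical
  have hH0 : (0 : ℝ) < H := by exact_mod_cast hH
  have h1 : ∑ n ∈ S, f n = ∑ r ∈ Finset.range H, ∑ n ∈ S.filter (fun n => (n - b) % H = r), f n := by
    rw [Finset.sum_fiberwise_of_maps_to]
    intro n _
    exact Finset.mem_range.2 (Nat.mod_lt _ hH)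
  obtain ⟨r, hr, hr2⟩ : ∃ r ∈ Finset.range H, (∑ n ∈ S, f n) / H ≤ ∑ n ∈ S.filter (fun n => (n - b) % H = r), f n := by
    by_contra hcon
    push Not at hcon
    have h2 : ∑ r ∈ Finset.range H, ∑ n ∈ S.filter (fun n => (n - b) % H = r), f n <
        ∑ r ∈ Finset.range H, (∑ n ∈ S, f n) / H :=
      Finset.sum_lt_sum_of_nonempty ⟨0, Finset.mem_range.2 hH⟩ hcon
    rw [← h1, Finset.sum_const, Finset.card_range, nsmul_eq_mul, mul_div_cancel₀ _ hH0.ne'] at h2
    exact lt_irrefl _ h2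
  refine ⟨r, Finset.mem_range.1 hr, hr2.trans ?_⟩
  have hinj : Function.Injective (fun m => b + r + H * m) := by
    intro m m' h
    have h2 : b + r + H * m = b + r + H * m' := h
    exact Nat.eq_of_mul_eq_mul_left hH (by omega)
  have h2 : ∑ m ∈ Finset.range M, (if b + r + H * m ∈ S then f (b + r + H * m) else 0) =
      ∑ n ∈ (Finset.range M).image (fun m => b + r + H * m), if n ∈ S then f n else 0 := by
    rw [Finset.sum_image (fun x _ y _ h => hinj h)]
  rw [h2]
  have h3 : ∑ n ∈ S.filter (fun n => (n - b) % H = r), f n =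
      ∑ n ∈ S.filter (fun n => (n - b) % H = r), if n ∈ S then f n else 0 := by
    apply Finset.sum_congr rfl
    intro n hn
    rw [if_pos (Finset.mem_filter.1 hn).1]
  rw [h3]
  apply Finset.sum_le_sum_of_subset_of_nonneg
  · intro n hn
    rw [Finset.mem_filter] at hn
    obtain ⟨h4, h5⟩ := hn
    obtain ⟨h6, h7⟩ := hS n h4
    rw [Finset.mem_image]
    refine ⟨(n - b) / H, ?_, ?_⟩
    · rw [Finset.mem_range]
      exact lt_of_le_of_lt (Nat.div_le_self _ _) (by omega)
    · have := Nat.div_add_mod (n - b) H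
      omega
  · intro n _ _
    split_ifs with h
    · exact hf n h
    · exact le_rfl

/-- polynomial factors are negligible -/
lemma poly_small (c : ℝ) {β : ℝ} (hβ : 0 < β) : ∀ᶠ i : ℕ in atTop,
    ((wl c (2 ^ (i + 1)) + 1 : ℕ) : ℝ) ≤ Real.exp (β * i) := by
  have h1 : Tendsto (fun i : ℕ => (i : ℝ) ^ 2 * Real.exp (-β * i)) atTop (𝓝 0) := by
    have h2 := (Real.tendsto_pow_mul_exp_neg_atTop_nhds_zero 2).comp
      (tendsto_natCast_atTop_atTop.const_mul_atTop hβ)
    have h3 := h2.const_mul (1 / β ^ 2)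
    rw [mul_zero] at h3
    refine h3.congr fun i => ?_
    simp only [Function.comp]
    rw [mul_pow]
    field_simp
  have h4 := h1.eventually (eventually_le_nhds (show (0 : ℝ) < 1 / (4 * |c| + 1) by positivity))
  filter_upwards [h4, eventually_ge_atTop 1] with i hi h5
  have hi1 : (1 : ℝ) ≤ i := by exact_mod_cast h5
  have h6 : (wl c (2 ^ (i + 1)) : ℝ) ≤ |c| * 4 * (i : ℝ) ^ 2 := by
    unfold wl
    have h7 : Real.log ((2 ^ (i + 1) : ℕ) : ℝ) = (i + 1) * Real.log 2 := by
      push_cast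
      rw [Real.log_pow]
      push_cast
      ring
    rw [h7]
    have h8 : c * ((i + 1) * Real.log 2) ^ 2 ≤ |c| * 4 * (i : ℝ) ^ 2 := by
      have h9 : ((i : ℝ) + 1) * Real.log 2 ≤ 2 * i := by
        have := Real.log_two_lt_d9
        have := Real.log_pos (show (1 : ℝ) < 2 by norm_num)
        nlinarith
      have h10 : 0 ≤ ((i : ℝ) + 1) * Real.log 2 := by
        have := Real.log_pos (show (1 : ℝ) < 2 by norm_num)
        positivity
      calc c * ((i + 1) * Real.log 2) ^ 2 ≤ |c| * ((i + 1) * Real.log 2) ^ 2 :=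
            mul_le_mul_of_nonneg_right (le_abs_self c) (by positivity)
        _ ≤ |c| * (2 * i) ^ 2 := mul_le_mul_of_nonneg_left (pow_le_pow_left₀ h10 h9 2) (abs_nonneg c)
        _ = |c| * 4 * (i : ℝ) ^ 2 := by ring
    rcases le_or_gt 0 (c * ((i + 1) * Real.log 2) ^ 2) with h11 | h11
    · exact (Nat.floor_le h11).trans h8
    · rw [Nat.floor_of_nonpos h11.le]
      simp only [Nat.cast_zero]
      positivity
  push_cast
  have h7 : (4 * |c| + 1) * (i : ℝ) ^ 2 ≤ Real.exp (β * i) := by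
    have h8 : (i : ℝ) ^ 2 * Real.exp (-β * i) * (4 * |c| + 1) ≤ 1 := by
      rwa [le_div_iff₀ (by positivity)] at hi
    have h9 : Real.exp (-β * i) * Real.exp (β * i) = 1 := by
      rw [← Real.exp_add]
      simp
    calc (4 * |c| + 1) * (i : ℝ) ^ 2 = ((i : ℝ) ^ 2 * Real.exp (-β * i) * (4 * |c| + 1)) * Real.exp (β * i) := by
          have : (i : ℝ) ^ 2 * Real.exp (-β * i) * (4 * |c| + 1) * Real.exp (β * i) =
            (4 * |c| + 1) * (i : ℝ) ^ 2 * (Real.exp (-β * i) * Real.exp (β * i)) := by ring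
          rw [this, h9, mul_one]
      _ ≤ 1 * Real.exp (β * i) := mul_le_mul_of_nonneg_right h8 (Real.exp_pos _).le
      _ = Real.exp (β * i) := one_mul _
  nlinarith

lemma wl_mono {c : ℝ} (hc : 0 ≤ c) {m n : ℕ} (hm : 1 ≤ m) (h : m ≤ n) : wl c m ≤ wl c n := by
  unfold wl
  apply Nat.floor_le_floor
  have h1 : (1 : ℝ) ≤ m := by exact_mod_cast hm
  have h2 : Real.log m ≤ Real.log n := Real.log_le_log (by linarith) (by exact_mod_cast h)
  have h3 : 0 ≤ Real.log m := Real.log_nonneg h1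
  exact mul_le_mul_of_nonneg_left (pow_le_pow_left₀ h3 h2 2) hc

set_option maxHeartbeats 4000000 in
theorem count_low (h : Model μ ℱ A a) (ha : ∀ n, 0 ≤ a n) (ha0 : Tendsto a atTop (𝓝 0)) {c : ℝ} (hc : 0 ≤ c)
    {ε : ℝ} (hε : 0 < ε) :
    ∀ᵐ ω ∂μ, ∀ᶠ i : ℕ in atTop, EE a c i ≤ (2 : ℝ) ^ (ε * i) * (ZZ {n | ω ∈ A n} c i + 1) := by
  classical
  have hl2 : 0 < Real.log 2 := Real.log_pos (by norm_num)
  obtain ⟨η, hηd⟩ : ∃ η, η = ε * Real.log 2 := ⟨_, rfl⟩
  have hη : 0 < η := by rw [hηd]; positivity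
  obtain ⟨δ, hδ0, hδ1, hδ2⟩ : ∃ δ : ℝ, 0 < δ ∧ δ ≤ 1 ∧ 8 * δ ≤ η / 8 :=
    ⟨min 1 (η / 64), lt_min one_pos (by positivity), min_le_left _ _, by
      have := min_le_right 1 (η / 64)
      linarith⟩
  obtain ⟨κ, hκd⟩ : ∃ κ, κ = 1 - Real.exp (-1) := ⟨_, rfl⟩
  have hκ : 0 < κ := by
    have : Real.exp (-1) < 1 := Real.exp_lt_one_iff.2 (by norm_num)
    rw [hκd]; linarith
  have hκ1 : κ ≤ 1 := by
    have := Real.exp_pos (-1)
    rw [hκd]; linarith
  obtain ⟨V, hVd⟩ : ∃ V, V = VD μ ℱ A a δ := ⟨_, rfl⟩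
  have hV : ∀ n, MeasurableSet[ℱ n] (V n) := fun n => by rw [hVd]; exact VD_meas δ n
  obtain ⟨G, hG⟩ : ∃ G : ℕ → Set Ω, G = fun n => Em A n (wl c n) ∪ WV V n (wl c n) := ⟨_, rfl⟩
  have hGm : ∀ n, MeasurableSet[ℱ (n + wl c n)] (G n) := fun n => by
    rw [hG]
    exact MeasurableSet.union (Em_meas h.adapted n _) (WV_meas hV n _)
  obtain ⟨n₁, hn₁⟩ := eventually_atTop.1 (ha0.eventually (eventually_le_nhds (show (0 : ℝ) < δ / 8 by positivity)))
  have hGp : ∀ n, n₁ ≤ n → ∀ C, MeasurableSet[ℱ n] C →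
      Real.exp (-((1 + 2 * δ) * ms a c n)) * μ.real C ≤ μ.real (C ∩ G n) := by
    intro n hn C hC
    have h1 := E_ge (μ := μ) h.adapted hV (fun m => (1 + δ) * a m) n (B := C) hC (wl c n)
      (fun m h1 _ => by
        have := hn₁ (m + 1) (by omega)
        have h2 := ha (m + 1)
        refine ⟨by positivity, ?_⟩
        nlinarith)
      (fun m h1 _ ω hω => by
        rw [hVd] at hω
        simp only [VD, mem_ofPred_eq, not_not] at hω
        have := (abs_le.1 hω).2
        linarith) (wl c n) le_rfl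
    rw [hG]
    refine le_trans (mul_le_mul_of_nonneg_right (Real.exp_le_exp.2 ?_) measureReal_nonneg) h1
    rw [neg_le_neg_iff]
    unfold ms
    rw [Finset.mul_sum]
    apply Finset.sum_le_sum
    intro m hm
    rw [Finset.mem_Ioc] at hm
    have h2 := ha m
    have h3 := hn₁ m (by omega)
    have h4 : 2 * ((1 + δ) * a m) ^ 2 ≤ δ * a m := by
      have h5 : (1 + δ) ^ 2 ≤ 4 := by nlinarith
      have h6 : 2 * ((1 + δ) * a m) ^ 2 = (2 * (1 + δ) ^ 2 * a m) * a m := by ring
      rw [h6]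
      apply mul_le_mul_of_nonneg_right _ h2
      nlinarith
    linarith
  obtain ⟨S, hS⟩ : ∃ S : ℕ → Finset ℕ, S = fun i : ℕ => (Finset.Ico (2 ^ i) (2 ^ (i + 1))).filter
    (fun n => ms a c n ≤ 4 * (i : ℝ)) := ⟨_, rfl⟩
  have hlarge : ∀ᶠ i : ℕ in atTop, n₁ ≤ 2 ^ i := by
    filter_upwards [eventually_ge_atTop n₁] with i hi
    exact hi.trans Nat.lt_two_pow_self.le
  -- the quantity `Q`
  obtain ⟨Q, hQ⟩ : ∃ Q : ℕ → ℝ, Q = fun i : ℕ => EE a c i * Real.exp (-(η / 4 * i)) / 2 := ⟨_, rfl⟩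
  have hE : ∀ i, 0 < EE a c i := fun i => EE_pos a c i
  have hbc : ∀ᵐ ω ∂μ, ∀ᶠ i : ℕ in atTop, ω ∉ {ω | Real.exp (η * i) ≤ EE a c i ∧
      ∑ n ∈ S i, (if ω ∈ G n then 1 else 0) ≤ ⌊κ * Q i / 2⌋₊} := by
    refine bc (b := fun i : ℕ => Real.exp (-(η / 4 * i))) (summable_exp_neg (by positivity)) ?_
    have hs1 : ∀ᶠ i : ℕ in atTop, 1 / (κ / 4) * (η / 4 * i) ≤ Real.exp (η / 2 * i) := by
      have h1 : Tendsto (fun i : ℕ => (i : ℝ) * Real.exp (-(η / 2) * i)) atTop (𝓝 0) := by
        have h2 := (Real.tendsto_pow_mul_exp_neg_atTop_nhds_zero 1).comp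
          (tendsto_natCast_atTop_atTop.const_mul_atTop (show 0 < η / 2 by positivity))
        have h3 := h2.const_mul (1 / (η / 2))
        rw [mul_zero] at h3
        refine h3.congr fun i => ?_
        simp only [Function.comp, pow_one]
        field_simp
      have h4 := h1.eventually (eventually_le_nhds (show (0 : ℝ) < κ / η by positivity))
      filter_upwards [h4] with i hi
      have h5 : Real.exp (-(η / 2) * i) * Real.exp (η / 2 * i) = 1 := by
        rw [← Real.exp_add]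
        simp
      have h6 : (i : ℝ) = (i * Real.exp (-(η / 2) * i)) * Real.exp (η / 2 * i) := by
        rw [mul_assoc, h5, mul_one]
      have h7 : (i : ℝ) ≤ κ / η * Real.exp (η / 2 * i) := by
        calc (i : ℝ) = (i * Real.exp (-(η / 2) * i)) * Real.exp (η / 2 * i) := h6
          _ ≤ κ / η * Real.exp (η / 2 * i) := mul_le_mul_of_nonneg_right hi (Real.exp_pos _).le
      calc 1 / (κ / 4) * (η / 4 * i) = η / κ * i := by field_simp
        _ ≤ η / κ * (κ / η * Real.exp (η / 2 * i)) := mul_le_mul_of_nonneg_left h7 (by positivity)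
        _ = Real.exp (η / 2 * i) := by field_simp
    filter_upwards [hlarge, poly_small c (show 0 < η / 8 by positivity), hs1, eventually_ge_atTop 1] with i hi hH0 hsi hi1
    by_cases hEi : Real.exp (η * i) ≤ EE a c i
    swap
    · have : {ω | Real.exp (η * i) ≤ EE a c i ∧ ∑ n ∈ S i, (if ω ∈ G n then 1 else 0) ≤ ⌊κ * Q i / 2⌋₊} = ∅ := by
        ext ω
        simp only [mem_ofPred_eq, mem_empty_iff_false, iff_false]
        exact fun h => hEi h.1
      rw [this, measureReal_empty]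
      exact (Real.exp_pos _).le
    obtain ⟨H, hHd⟩ : ∃ H, H = wl c (2 ^ (i + 1)) + 1 := ⟨_, rfl⟩
    have hH : 0 < H := by omega
    have hHr : (0 : ℝ) < H := by exact_mod_cast hH
    rw [← hHd] at hH0
    obtain ⟨f, hf⟩ : ∃ f : ℕ → ℝ, f = fun n => Real.exp (-((1 + 2 * δ) * ms a c n)) := ⟨_, rfl⟩
    have hSblock : ∀ n ∈ S i, 2 ^ i ≤ n ∧ n < 2 ^ i + 2 ^ i := by
      intro n hn
      rw [hS, Finset.mem_filter, Finset.mem_Ico, pow_succ] at hn
      omega
    obtain ⟨r, hr, hr2⟩ := exists_residue (S i) f (fun n _ => by rw [hf]; exact (Real.exp_pos _).le)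
      (2 ^ i) H (2 ^ i) hH hSblock
    -- the sum over `S i`
    have hi0 : (1 : ℝ) ≤ i := by exact_mod_cast hi1
    have hsum1 : EE a c i / 2 ≤ ∑ n ∈ S i, Real.exp (-ms a c n) := by
      have h1 : EE a c i = ∑ n ∈ S i, Real.exp (-ms a c n) +
          ∑ n ∈ (Finset.Ico (2 ^ i) (2 ^ (i + 1))).filter (fun n => ¬ ms a c n ≤ 4 * (i : ℝ)), Real.exp (-ms a c n) := by
        rw [hS]
        unfold EE
        exact (Finset.sum_filter_add_sum_filter_not (Finset.Ico (2 ^ i) (2 ^ (i + 1)))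
          (fun n => ms a c n ≤ 4 * (i : ℝ)) (fun n => Real.exp (-ms a c n))).symm
      have h2 : ∑ n ∈ (Finset.Ico (2 ^ i) (2 ^ (i + 1))).filter (fun n => ¬ ms a c n ≤ 4 * (i : ℝ)), Real.exp (-ms a c n) ≤
          1 / 2 := by
        have h3 : ∑ n ∈ (Finset.Ico (2 ^ i) (2 ^ (i + 1))).filter (fun n => ¬ ms a c n ≤ 4 * (i : ℝ)), Real.exp (-ms a c n) ≤
            ∑ n ∈ (Finset.Ico (2 ^ i) (2 ^ (i + 1))).filter (fun n => ¬ ms a c n ≤ 4 * (i : ℝ)), Real.exp (-(4 * i)) := by
          apply Finset.sum_le_sum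
          intro n hn
          rw [Finset.mem_filter, not_le] at hn
          exact Real.exp_le_exp.2 (by linarith [hn.2])
        have h4 : (((Finset.Ico (2 ^ i) (2 ^ (i + 1))).filter (fun n => ¬ ms a c n ≤ 4 * (i : ℝ))).card : ℝ) ≤ Real.exp i := by
          have h5 : ((Finset.Ico (2 ^ i) (2 ^ (i + 1))).filter (fun n => ¬ ms a c n ≤ 4 * (i : ℝ))).card ≤ 2 ^ i := by
            have h6 := Finset.card_filter_le (Finset.Ico (2 ^ i) (2 ^ (i + 1))) (fun n => ¬ ms a c n ≤ 4 * (i : ℝ))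
            rwa [card_block] at h6
          have h5' : (((Finset.Ico (2 ^ i) (2 ^ (i + 1))).filter (fun n => ¬ ms a c n ≤ 4 * (i : ℝ))).card : ℝ) ≤ 2 ^ i := by
            exact_mod_cast h5
          refine h5'.trans ?_
          have h6 : (2 : ℝ) ≤ Real.exp 1 := by
            have := Real.add_one_le_exp (1 : ℝ); linarith
          calc (2 : ℝ) ^ i ≤ (Real.exp 1) ^ i := pow_le_pow_left₀ (by norm_num) h6 i
            _ = Real.exp i := by rw [← Real.exp_nat_mul, mul_one]
        rw [Finset.sum_const, nsmul_eq_mul] at h3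
        refine h3.trans ((mul_le_mul_of_nonneg_right h4 (Real.exp_pos _).le).trans ?_)
        rw [← Real.exp_add]
        have h7 : Real.exp ((i : ℝ) + -(4 * i)) ≤ Real.exp (-1) := Real.exp_le_exp.2 (by linarith)
        have h8 : Real.exp (-1) ≤ 1 / 2 := by
          have := Real.exp_one_gt_d9
          rw [Real.exp_neg, one_div]
          exact inv_anti₀ (by norm_num) (by linarith)
        linarith
      have h3 : 1 ≤ EE a c i := le_trans (Real.one_le_exp (by positivity)) hEi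
      linarith
    have hsum2 : EE a c i / 2 * Real.exp (-(η / 8 * i)) ≤ ∑ n ∈ S i, f n := by
      have h1 : ∑ n ∈ S i, Real.exp (-ms a c n) * Real.exp (-(η / 8 * i)) ≤ ∑ n ∈ S i, f n := by
        apply Finset.sum_le_sum
        intro n hn
        rw [hS, Finset.mem_filter] at hn
        rw [hf, ← Real.exp_add]
        apply Real.exp_le_exp.2
        have h2 := mul_le_mul_of_nonneg_left hn.2 (show 0 ≤ 2 * δ by positivity)
        nlinarith
      rw [← Finset.sum_mul] at h1
      exact (mul_le_mul_of_nonneg_right hsum1 (Real.exp_pos _).le).trans h1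
    have hQle : Q i ≤ (∑ n ∈ S i, f n) / H := by
      rw [le_div_iff₀ hHr]
      refine le_trans ?_ hsum2
      rw [hQ]
      have h1 : Real.exp (-(η / 4 * i)) * H ≤ Real.exp (-(η / 8 * i)) := by
        calc Real.exp (-(η / 4 * i)) * H ≤ Real.exp (-(η / 4 * i)) * Real.exp (η / 8 * i) :=
              mul_le_mul_of_nonneg_left hH0 (Real.exp_pos _).le
          _ = Real.exp (-(η / 8 * i)) := by rw [← Real.exp_add]; congr 1; ring
      have h2 := mul_le_mul_of_nonneg_left h1 (show 0 ≤ EE a c i / 2 from by have := hE i; positivity)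
      calc EE a c i * Real.exp (-(η / 4 * i)) / 2 * H = EE a c i / 2 * (Real.exp (-(η / 4 * i)) * H) := by ring
        _ ≤ _ := h2
    -- the trials
    obtain ⟨s, hs⟩ : ∃ s : ℕ → ℕ, s = fun m => 2 ^ i + r + H * m := ⟨_, rfl⟩
    obtain ⟨D, hD⟩ : ∃ D : ℕ → Set Ω, D = fun m => if s m ∈ S i then G (s m) else ∅ := ⟨_, rfl⟩
    obtain ⟨p, hp⟩ : ∃ p : ℕ → ℝ, p = fun m => if s m ∈ S i then f (s m) else 0 := ⟨_, rfl⟩
    have hsm : Monotone s := by
      intro m m' hm
      rw [hs]
      exact Nat.add_le_add_left (Nat.mul_le_mul_left H hm) _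
    have hDm : ∀ m, MeasurableSet[ℱ (s (m + 1))] (D m) := by
      intro m
      rw [hD]
      simp only
      split_ifs with h1
      · refine ℱ.mono ?_ _ (hGm (s m))
        have h2 := hSblock _ h1
        have h3 : wl c (s m) ≤ wl c (2 ^ (i + 1)) := by
          apply wl_mono hc
          · exact le_trans Nat.one_le_two_pow h2.1
          · rw [pow_succ]; omega
        have h4 : s (m + 1) = s m + H := by rw [hs]; ring
        omega
      · exact @MeasurableSet.empty _ (ℱ (s (m + 1)))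
    have hDp : ∀ m, ∀ C, MeasurableSet[ℱ (s m)] C → p m * μ.real C ≤ μ.real (C ∩ D m) := by
      intro m C hC
      rw [hD, hp]
      simp only
      split_ifs with h1
      · rw [hf]
        exact hGp (s m) (hi.trans (hSblock _ h1).1) C hC
      · simp
    have htail := low_tail (μ := μ) D s hsm p (2 ^ i) 0 (fun m _ _ => hDm m) (fun m _ _ => hDp m) univ
      MeasurableSet.univ ⌊κ * Q i / 2⌋₊
    rw [univ_inter, probReal_univ, mul_one, ← hκd, zero_add, Nat.Ico_zero_eq_range] at htail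
    have hpsum : Q i ≤ ∑ m ∈ Finset.range (2 ^ i), p m := by
      refine hQle.trans (hr2.trans (le_of_eq ?_))
      rw [hp, hs]
    have hsub : {ω | Real.exp (η * i) ≤ EE a c i ∧ ∑ n ∈ S i, (if ω ∈ G n then 1 else 0) ≤ ⌊κ * Q i / 2⌋₊} ⊆
        {ω | cs D 0 (2 ^ i) ω ≤ ⌊κ * Q i / 2⌋₊} := by
      rintro ω ⟨_, h2⟩
      refine le_trans ?_ h2
      unfold cs
      have h3 : ∀ m ∈ Finset.range (2 ^ i), (if ω ∈ D (0 + m) then 1 else 0) =
          (fun n => if n ∈ S i then (if ω ∈ G n then 1 else 0) else 0) (s m) := by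
        intro m _
        rw [zero_add, hD]
        by_cases h4 : s m ∈ S i
        · simp only [if_pos h4]
        · simp only [if_neg h4, mem_empty_iff_false, if_false]
      rw [Finset.sum_congr rfl h3]
      have hinj : Function.Injective s := by
        intro m m' hm
        rw [hs] at hm
        exact Nat.eq_of_mul_eq_mul_left hH (by simpa using hm)
      rw [← Finset.sum_image (f := fun n => if n ∈ S i then (if ω ∈ G n then 1 else 0) else 0)
        (fun x _ y _ h => hinj h)]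
      rw [← Finset.sum_filter]
      apply Finset.sum_le_sum_of_subset_of_nonneg
      · intro n hn
        exact (Finset.mem_filter.1 hn).2
      · intro n _ _
        positivity
    refine (measureReal_mono hsub (measure_ne_top _ _)).trans (htail.trans (Real.exp_le_exp.2 ?_))
    have hQpos : 0 ≤ κ * Q i / 2 := by
      rw [hQ]
      have := hE i
      positivity
    have h1 := Nat.floor_le hQpos
    have h2 := mul_le_mul_of_nonneg_left hpsum hκ.le
    have h3 : Real.exp (η / 2 * i) / 2 ≤ Q i := by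
      rw [hQ]
      have h4 : Real.exp (η / 2 * i) ≤ EE a c i * Real.exp (-(η / 4 * i)) := by
        calc Real.exp (η / 2 * i) ≤ Real.exp (η * i + -(η / 4 * i)) := Real.exp_le_exp.2 (by nlinarith)
          _ = Real.exp (η * i) * Real.exp (-(η / 4 * i)) := Real.exp_add _ _
          _ ≤ EE a c i * Real.exp (-(η / 4 * i)) := mul_le_mul_of_nonneg_right hEi (Real.exp_pos _).le
      simp only
      linarith
    have h5 : η / 4 * i ≤ κ * Q i / 2 := by
      have h6 : η / 4 * i ≤ κ / 4 * Real.exp (η / 2 * i) := by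
        have h7 : 1 / (κ / 4) * (η / 4 * i) * (κ / 4) ≤ Real.exp (η / 2 * i) * (κ / 4) :=
          mul_le_mul_of_nonneg_right hsi (by positivity)
        have h8 : 1 / (κ / 4) * (η / 4 * i) * (κ / 4) = η / 4 * i := by field_simp
        linarith
      have h7 := mul_le_mul_of_nonneg_left h3 hκ.le
      linarith
    linarith
  filter_upwards [hbc, no_VD h hδ0] with ω g1 g2
  obtain ⟨n₀, hn₀⟩ := g2
  have hlarge2 : ∀ᶠ i : ℕ in atTop, n₀ ≤ 2 ^ i := by
    filter_upwards [eventually_ge_atTop n₀] with i hi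
    exact hi.trans Nat.lt_two_pow_self.le
  have hlast : ∀ᶠ i : ℕ in atTop, 4 / κ ≤ Real.exp (3 * η / 4 * i) := by
    have h1 : Tendsto (fun i : ℕ => Real.exp (3 * η / 4 * i)) atTop atTop :=
      Real.tendsto_exp_atTop.comp (tendsto_natCast_atTop_atTop.const_mul_atTop (by positivity))
    exact h1.eventually_ge_atTop _
  filter_upwards [g1, hlarge2, hlast] with i h1 h2 h3
  have h2r : (2 : ℝ) ^ (ε * i) = Real.exp (η * i) := by
    rw [two_rpow, hηd]; congr 1; ring
  rw [h2r]
  by_cases hEi : Real.exp (η * i) ≤ EE a c i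
  swap
  · have h4 : (0 : ℝ) ≤ ZZ {n | ω ∈ A n} c i := Nat.cast_nonneg _
    have h5 := Real.exp_pos (η * i)
    have h6 : EE a c i < Real.exp (η * i) := not_le.1 hEi
    nlinarith
  have h4 : ⌊κ * Q i / 2⌋₊ < ∑ n ∈ S i, (if ω ∈ G n then 1 else 0) := by
    by_contra hcon
    exact h1 ⟨hEi, not_lt.1 hcon⟩
  have h5 : ∑ n ∈ S i, (if ω ∈ G n then 1 else 0) ≤ ZZ {n | ω ∈ A n} c i := by
    unfold ZZ
    rw [Finset.card_filter, hS, Finset.sum_filter]
    apply Finset.sum_le_sum
    intro n hn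
    rw [Finset.mem_Ico] at hn
    split_ifs with h6 h7 h8
    · exact le_rfl
    · exfalso
      apply h8
      intro m h9 h10
      rw [hG] at h7
      rcases h7 with h7 | ⟨k, h11, _, h12⟩
      · exact h7 m h9 h10
      · rw [hVd] at h12
        exact absurd h12 (hn₀ k (by omega))
    all_goals exact Nat.zero_le _
  have h6 : κ * Q i / 2 ≤ (ZZ {n | ω ∈ A n} c i : ℝ) + 1 := by
    have h7 := Nat.lt_floor_add_one (κ * Q i / 2)
    have h8 : (⌊κ * Q i / 2⌋₊ : ℝ) ≤ ZZ {n | ω ∈ A n} c i := by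
      exact_mod_cast (h4.le.trans h5)
    linarith
  have h7 : Real.exp (η * i) * Real.exp (-(η / 4 * i)) = Real.exp (3 * η / 4 * i) := by
    rw [← Real.exp_add]; congr 1; ring
  have h8 := mul_le_mul_of_nonneg_left h6 (Real.exp_pos (η * i)).le
  refine le_trans ?_ h8
  rw [hQ]
  simp only
  have h9 : Real.exp (η * i) * (κ * (EE a c i * Real.exp (-(η / 4 * i)) / 2) / 2) =
      κ / 4 * EE a c i * (Real.exp (η * i) * Real.exp (-(η / 4 * i))) := by ring
  rw [h9, h7]
  have h10 : 1 ≤ κ / 4 * Real.exp (3 * η / 4 * i) := by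
    rw [div_le_iff₀ hκ] at h3
    linarith
  have h11 := hE i
  nlinarith

end Pool.Agent.U462.Gap
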