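import Mathlib
import Pool.Agent.U462.Gap.Low

set_option autoImplicit false
set_option linter.unusedSectionVars false

/-! # Cramér's constant of a random set with a given profile -/

open MeasureTheory Filter Set
open scoped ENNReal Topology

namespace Pool.Agent.U462.Gap

open Pool.Agent.R528.RM (dens WV dens_meas lower_meas upper_meas WV_meas)

/-- Cramér's constant `limsup (q_{k+1} - q_k) / log² q_k` of the set `{q_0 < q_1 < ...}` -/
noncomputable def LL (S : Set ℕ) : EReal :=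
  limsup (fun k : ℕ => ((((Nat.nth (· ∈ S) (k + 1) : ℝ) - Nat.nth (· ∈ S) k) *
    (Real.log (Nat.nth (· ∈ S) k) ^ 2)⁻¹ : ℝ) : EReal)) atTop

lemma tlog : Tendsto (fun n : ℕ => Real.log (n : ℝ)) atTop atTop :=
  Real.tendsto_log_atTop.comp tendsto_natCast_atTop_atTop

lemma LL_le (S : Set ℕ) (hS : S.Infinite) {c : ℝ} (hc : 0 ≤ c)
    (h : ∀ᶠ n : ℕ in atTop, ∃ m, n < m ∧ m ≤ n + wl c n ∧ m ∈ S) : LL S ≤ (c : EReal) := by
  classical
  have hS' : (Set.ofPred (· ∈ S)).Infinite := hS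
  have hmono := Nat.nth_strictMono hS'
  unfold LL
  apply limsup_le_of_le
  · exact isCobounded_le_of_bot
  filter_upwards [hmono.tendsto_atTop.eventually h, (tlog.comp hmono.tendsto_atTop).eventually_gt_atTop 0] with k hk hk2
  obtain ⟨m, h1, h2, h3⟩ := hk
  rw [EReal.coe_le_coe_iff]
  have h4 : Nat.nth (· ∈ S) (k + 1) ≤ m := by
    by_contra hcon
    push Not at hcon
    have h6 : Nat.count (· ∈ S) (m + 1) ≤ k + 1 := by
      rw [Nat.count_le_iff_le_nth hS']
      omega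
    have h7 : Nat.count (· ∈ S) (m + 1) = Nat.count (· ∈ S) m + 1 := by
      rw [Nat.count_succ, if_pos h3]
    have h8 : k < Nat.count (· ∈ S) m := by
      have := Nat.nth_mem_of_infinite hS' k
      rw [← Nat.count_nth_of_infinite hS' k]
      exact Nat.count_strict_mono this h1
    omega
  have h5 : (wl c (Nat.nth (· ∈ S) k) : ℝ) ≤ c * Real.log (Nat.nth (· ∈ S) k) ^ 2 := Nat.floor_le (by positivity)
  have h6 : (Nat.nth (· ∈ S) (k + 1) : ℝ) ≤ Nat.nth (· ∈ S) k + wl c (Nat.nth (· ∈ S) k) := by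
    exact_mod_cast h4.trans h2
  simp only [Function.comp] at hk2
  rw [← div_eq_mul_inv, div_le_iff₀ (by positivity)]
  linarith

lemma le_LL (S : Set ℕ) (hS : S.Infinite) {c : ℝ} (hc : 0 ≤ c)
    (h : ∃ᶠ n : ℕ in atTop, ∀ m, n < m → m ≤ n + wl c n → m ∉ S) : (c : EReal) ≤ LL S := by
  classical
  have hS' : (Set.ofPred (· ∈ S)).Infinite := hS
  have hmono := Nat.nth_strictMono hS'
  -- it suffices to prove it for smaller constants
  apply le_of_forall_lt_imp_le_of_dense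
  intro b hb
  induction b using EReal.rec with
  | bot => exact bot_le
  | top => exact absurd hb (by simp)
  | coe b =>
    rw [EReal.coe_lt_coe_iff] at hb
    unfold LL
    apply le_limsup_of_frequently_le'
    -- large `k`
    rw [frequently_atTop] at h ⊢
    intro K
    obtain ⟨L₀, hL₀, hL₁⟩ : ∃ L₀ : ℝ, 1 ≤ L₀ ∧ 1 ≤ (c - b) * L₀ ^ 2 := by
      refine ⟨max 1 (1 / (c - b)), le_max_left _ _, ?_⟩
      have h1 : 1 / (c - b) ≤ max 1 (1 / (c - b)) := le_max_right _ _
      have h2 : (1 : ℝ) ≤ max 1 (1 / (c - b)) := le_max_left _ _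
      have h3 : 0 < c - b := by linarith
      calc (1 : ℝ) = (c - b) * (1 / (c - b)) := by field_simp
        _ ≤ (c - b) * max 1 (1 / (c - b)) := mul_le_mul_of_nonneg_left h1 h3.le
        _ ≤ (c - b) * (max 1 (1 / (c - b))) ^ 2 := by
          apply mul_le_mul_of_nonneg_left _ h3.le
          nlinarith
    have hev : ∀ᶠ k in atTop, L₀ ≤ Real.log (Nat.nth (· ∈ S) k) :=
      (tlog.comp hmono.tendsto_atTop).eventually_ge_atTop L₀
    obtain ⟨K₁, hK₁⟩ := eventually_atTop.1 hev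
    obtain ⟨n, hn1, hn2⟩ := h (Nat.nth (· ∈ S) (max K K₁))
    obtain ⟨k', hk'⟩ : ∃ k', k' = Nat.count (· ∈ S) (n + 1) := ⟨_, rfl⟩
    have h1 : max K K₁ < k' := by
      rw [hk']
      have := Nat.count_strict_mono (Nat.nth_mem_of_infinite hS' (max K K₁)) (Nat.lt_succ_of_le hn1)
      rwa [Nat.count_nth_of_infinite hS'] at this
    obtain ⟨k, hk⟩ : ∃ k, k' = k + 1 := ⟨k' - 1, by omega⟩
    have hkK : K ≤ k := by
      have := le_max_left K K₁
      omega
    have hkK1 : K₁ ≤ k := by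
      have := le_max_right K K₁
      omega
    refine ⟨k, hkK, ?_⟩
    have h2 : Nat.nth (· ∈ S) k < n + 1 := by
      apply Nat.nth_lt_of_lt_count
      rw [← hk']
      omega
    have h3 : n + 1 ≤ Nat.nth (· ∈ S) (k + 1) := by
      rw [← hk, hk']
      exact Nat.le_nth_count hS' (n + 1)
    have h4 : n + wl c n < Nat.nth (· ∈ S) (k + 1) := by
      by_contra hcon
      push Not at hcon
      exact hn2 _ (by omega) hcon (Nat.nth_mem_of_infinite hS' (k + 1))
    rw [EReal.coe_le_coe_iff]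
    have h5 := hK₁ k hkK1
    obtain ⟨q, hq⟩ : ∃ q, q = Nat.nth (· ∈ S) k := ⟨_, rfl⟩
    rw [← hq] at h2 h5 ⊢
    have hq0 : (0 : ℝ) < q := by
      rcases Nat.eq_zero_or_pos q with h6 | h6
      · rw [h6] at h5
        simp at h5
        linarith
      · exact_mod_cast h6
    have h6 : Real.log q ≤ Real.log n := Real.log_le_log hq0 (by exact_mod_cast Nat.lt_succ_iff.1 h2)
    have h7 : c * Real.log n ^ 2 < wl c n + 1 := Nat.lt_floor_add_one _
    have h8 : c * Real.log q ^ 2 ≤ c * Real.log n ^ 2 :=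
      mul_le_mul_of_nonneg_left (pow_le_pow_left₀ (by linarith) h6 2) hc
    have h9 : ((n : ℝ) + wl c n + 1) ≤ Nat.nth (· ∈ S) (k + 1) := by exact_mod_cast h4
    have h10 : (q : ℝ) ≤ n := by exact_mod_cast Nat.lt_succ_iff.1 h2
    have h11 : (c - b) * L₀ ^ 2 ≤ (c - b) * Real.log q ^ 2 :=
      mul_le_mul_of_nonneg_left (pow_le_pow_left₀ (by linarith) h5 2) (by linarith)
    have hlq : 0 < Real.log q := by linarith
    rw [← div_eq_mul_inv, le_div_iff₀ (by positivity)]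
    nlinarith

/-- if no window in the blocks is empty, then `LL ≤ c` -/
lemma LL_le_of_ZZ (S : Set ℕ) (hS : S.Infinite) {c : ℝ} (hc : 0 ≤ c)
    (h : ∀ᶠ i : ℕ in atTop, ZZ S c i = 0) : LL S ≤ (c : EReal) := by
  classical
  apply LL_le S hS hc
  obtain ⟨i₀, hi₀⟩ := eventually_atTop.1 h
  filter_upwards [eventually_ge_atTop (2 ^ i₀)] with n hn
  have hn0 : n ≠ 0 := by
    have : 0 < 2 ^ i₀ := by positivity
    omega
  obtain ⟨i, hi⟩ : ∃ i, i = Nat.log 2 n := ⟨_, rfl⟩
  have h1 : 2 ^ i ≤ n := by rw [hi]; exact Nat.pow_log_le_self 2 hn0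
  have h2 : n < 2 ^ (i + 1) := by rw [hi]; exact Nat.lt_pow_succ_log_self (by norm_num) n
  have h3 : i₀ ≤ i := by
    rw [hi]
    exact Nat.le_log_of_pow_le (by norm_num) hn
  have h4 := hi₀ i h3
  unfold ZZ at h4
  rw [Finset.card_eq_zero, Finset.filter_eq_empty_iff] at h4
  have h5 := h4 (Finset.mem_Ico.2 ⟨h1, h2⟩)
  push Not at h5
  exact h5

lemma le_LL_of_ZZ (S : Set ℕ) (hS : S.Infinite) {c : ℝ} (hc : 0 ≤ c)
    (h : ∃ᶠ i : ℕ in atTop, 0 < ZZ S c i) : (c : EReal) ≤ LL S := by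
  classical
  apply le_LL S hS hc
  rw [frequently_atTop] at h ⊢
  intro N
  obtain ⟨i, hi1, hi2⟩ := h N
  unfold ZZ at hi2
  obtain ⟨n, hn⟩ := Finset.card_pos.1 hi2
  rw [Finset.mem_filter, Finset.mem_Ico] at hn
  refine ⟨n, ?_, hn.2⟩
  have : i < 2 ^ i := Nat.lt_two_pow_self
  omega

/-- if not all windows in the blocks are empty, the set is infinite -/
lemma infinite_of_ZZ (S : Set ℕ) {c : ℝ}
    (h : ∃ᶠ i : ℕ in atTop, ZZ S c i < 2 ^ i) : S.Infinite := by
  classical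
  rw [Set.infinite_iff_exists_gt]
  intro N
  rw [frequently_atTop] at h
  obtain ⟨i, hi1, hi2⟩ := h N
  unfold ZZ at hi2
  have hcb := card_block i
  obtain ⟨n, hn1, hn2⟩ : ∃ n ∈ Finset.Ico (2 ^ i) (2 ^ (i + 1)), ¬ ∀ m, n < m → m ≤ n + wl c n → m ∉ S := by
    by_contra hcon
    push Not at hcon
    rw [Finset.filter_true_of_mem hcon, hcb] at hi2
    exact lt_irrefl _ hi2
  push Not at hn2
  obtain ⟨m, hm1, hm2, hm3⟩ := hn2
  refine ⟨m, hm3, ?_⟩
  rw [Finset.mem_Ico] at hn1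
  have : i < 2 ^ i := Nat.lt_two_pow_self
  omega

/-! ### The constant of a profile -/

/-- the constant of a profile: the infimum of all `c > 0` for which the expected number of empty
windows is finite -/
noncomputable def CC (a : ℕ → ℝ) : EReal :=
  sInf {x : EReal | ∃ c : ℝ, 0 < c ∧ x = (c : EReal) ∧ Summable (fun n : ℕ => Real.exp (-ms a c n))}

/-- every window of length `δ log² n` has a mass `≥ κ log n` -/
def Reg (a : ℕ → ℝ) : Prop :=
  ∀ δ : ℝ, 0 < δ → ∃ κ : ℝ, 0 < κ ∧ ∀ᶠ n : ℕ in atTop, κ * Real.log n ≤ ms a δ n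

lemma ms_gain {a : ℕ → ℝ} (ha : ∀ n, 0 ≤ a n) (hR : Reg a) {c c' : ℝ} (hc : 0 ≤ c) (hcc : c < c') :
    ∃ κ : ℝ, 0 < κ ∧ ∀ᶠ n : ℕ in atTop, ms a c n + κ * Real.log n ≤ ms a c' n := by
  obtain ⟨κ, hκ, h⟩ := hR ((c' - c) / 8) (by linarith)
  refine ⟨κ, hκ, ?_⟩
  have ht : Tendsto (fun n : ℕ => n + wl c n) atTop atTop :=
    tendsto_atTop_mono (fun n => Nat.le_add_right n _) tendsto_id
  have hsq : ∀ᶠ n : ℕ in atTop, c * Real.log n ^ 2 ≤ n := by
    have h3 := (Real.isLittleO_pow_log_id_atTop (n := 2)).def (show (0 : ℝ) < 1 / (c + 1) by positivity)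
    filter_upwards [tendsto_natCast_atTop_atTop.eventually h3] with n h3
    rw [Real.norm_of_nonneg (by positivity), id, Real.norm_of_nonneg (by positivity)] at h3
    have h8 : (c + 1) * Real.log n ^ 2 ≤ (c + 1) * (1 / (c + 1) * n) :=
      mul_le_mul_of_nonneg_left h3 (by positivity)
    have h9 : (c + 1) * (1 / (c + 1) * n) = (n : ℝ) := by field_simp
    nlinarith [sq_nonneg (Real.log (n : ℝ))]
  filter_upwards [ht.eventually h, hsq, tlog.eventually_ge_atTop 1, tlog.eventually_ge_atTop (8 / (c' - c)),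
    eventually_ge_atTop 1] with n h1 h2 h3 h4 h5
  have hn0 : (1 : ℝ) ≤ n := by exact_mod_cast h5
  obtain ⟨n', hn'⟩ : ∃ n', n' = n + wl c n := ⟨_, rfl⟩
  rw [← hn'] at h1
  have h6 : (wl c n : ℝ) ≤ c * Real.log n ^ 2 := Nat.floor_le (by positivity)
  have h7 : (n' : ℝ) ≤ 2 * n := by
    rw [hn']; push_cast; linarith
  have h8 : Real.log n' ≤ 2 * Real.log n := by
    have h9 : Real.log n' ≤ Real.log (2 * n) := Real.log_le_log (by
      rw [hn']; push_cast; positivity) h7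
    rw [Real.log_mul (by norm_num) (by linarith)] at h9
    have := Real.log_two_lt_d9
    linarith
  have h9 : Real.log n ≤ Real.log n' := Real.log_le_log (by linarith) (by
    rw [hn']; push_cast; linarith [(Nat.cast_nonneg (wl c n) : (0 : ℝ) ≤ wl c n)])
  have h10 : (wl ((c' - c) / 8) n' : ℝ) ≤ (c' - c) / 8 * Real.log n' ^ 2 := Nat.floor_le (by
    have : 0 < c' - c := by linarith
    positivity)
  have h11 : (c' - c) / 8 * Real.log n' ^ 2 ≤ (c' - c) / 2 * Real.log n ^ 2 := by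
    have h12 : Real.log n' ^ 2 ≤ (2 * Real.log n) ^ 2 := pow_le_pow_left₀ (by linarith) h8 2
    have h13 : 0 < (c' - c) / 8 := by linarith
    calc (c' - c) / 8 * Real.log n' ^ 2 ≤ (c' - c) / 8 * (2 * Real.log n) ^ 2 := mul_le_mul_of_nonneg_left h12 h13.le
      _ = (c' - c) / 2 * Real.log n ^ 2 := by ring
  have h12 : 1 ≤ (c' - c) / 2 * Real.log n ^ 2 := by
    rw [div_le_iff₀ (by linarith)] at h4
    nlinarith
  have h13 : n' + wl ((c' - c) / 8) n' ≤ n + wl c' n := by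
    have h14 : c' * Real.log n ^ 2 < wl c' n + 1 := Nat.lt_floor_add_one _
    have h15 : (wl c n : ℝ) + wl ((c' - c) / 8) n' < wl c' n + 1 := by linarith
    have h16 : wl c n + wl ((c' - c) / 8) n' < wl c' n + 1 := by exact_mod_cast h15
    omega
  have h14 : ms a c' n ≥ ∑ m ∈ Finset.Ioc n n', a m + ∑ m ∈ Finset.Ioc n' (n' + wl ((c' - c) / 8) n'), a m := by
    rw [Finset.sum_Ioc_consecutive _ (by omega) (by omega)]
    unfold ms
    apply Finset.sum_le_sum_of_subset_of_nonneg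
    · exact Finset.Ioc_subset_Ioc_right h13
    · intro m _ _; exact ha m
  have h15 : ∑ m ∈ Finset.Ioc n n', a m = ms a c n := by rw [hn']; rfl
  have h16 : ∑ m ∈ Finset.Ioc n' (n' + wl ((c' - c) / 8) n'), a m = ms a ((c' - c) / 8) n' := rfl
  rw [h15, h16] at h14
  have h17 : κ * Real.log n ≤ κ * Real.log n' := mul_le_mul_of_nonneg_left h9 hκ.le
  linarith

/-- comparison of the expected numbers -/
lemma EE_gain {a : ℕ → ℝ} (ha : ∀ n, 0 ≤ a n) (hR : Reg a) {c c' : ℝ} (hc : 0 ≤ c) (hcc : c < c') :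
    ∃ κ : ℝ, 0 < κ ∧ ∀ᶠ i : ℕ in atTop, EE a c' i ≤ Real.exp (-(κ * i)) * EE a c i := by
  obtain ⟨κ, hκ, h⟩ := ms_gain ha hR hc hcc
  have hl2 : 0 < Real.log 2 := Real.log_pos (by norm_num)
  refine ⟨κ * Real.log 2, by positivity, ?_⟩
  obtain ⟨n₁, hn₁⟩ := eventually_atTop.1 h
  filter_upwards [eventually_ge_atTop n₁] with i hi
  have hi2 : n₁ ≤ 2 ^ i := hi.trans Nat.lt_two_pow_self.le
  unfold EE
  rw [Finset.mul_sum]
  apply Finset.sum_le_sum
  intro n hn
  rw [Finset.mem_Ico] at hn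
  rw [← Real.exp_add]
  apply Real.exp_le_exp.2
  have h1 := hn₁ n (by omega)
  have h2 : i * Real.log 2 ≤ Real.log n := by
    rw [← Real.log_pow]
    apply Real.log_le_log (by positivity)
    exact_mod_cast hn.1
  have h3 := mul_le_mul_of_nonneg_left h2 hκ.le
  linarith

lemma EE_le_pow (a : ℕ → ℝ) (ha : ∀ n, 0 ≤ a n) (c : ℝ) (i : ℕ) : EE a c i ≤ 2 ^ i := by
  unfold EE
  calc ∑ n ∈ Finset.Ico (2 ^ i) (2 ^ (i + 1)), Real.exp (-ms a c n)
      ≤ ∑ n ∈ Finset.Ico (2 ^ i) (2 ^ (i + 1)), 1 := by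
        apply Finset.sum_le_sum
        intro n _
        rw [Real.exp_le_one_iff, neg_nonpos]
        exact Finset.sum_nonneg fun m _ => ha m
    _ = 2 ^ i := by
        rw [Finset.sum_const, card_block, nsmul_eq_mul, mul_one]
        push_cast
        rfl

lemma EE_le_tsum {f : ℕ → ℝ} (hf : ∀ n, 0 ≤ f n) (hs : Summable f) (i : ℕ) :
    ∑ n ∈ Finset.Ico (2 ^ i) (2 ^ (i + 1)), f n ≤ ∑' n, f n :=
  hs.sum_le_tsum _ (fun n _ => hf n)

lemma summable_of_blocks {f : ℕ → ℝ} (hf : ∀ n, 0 ≤ f n)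
    (h : Summable (fun i : ℕ => ∑ n ∈ Finset.Ico (2 ^ i) (2 ^ (i + 1)), f n)) : Summable f := by
  apply summable_of_sum_range_le (c := f 0 + ∑' i : ℕ, ∑ n ∈ Finset.Ico (2 ^ i) (2 ^ (i + 1)), f n) hf
  intro N
  have h1 : ∀ M : ℕ, ∑ n ∈ Finset.range (2 ^ M), f n =
      f 0 + ∑ i ∈ Finset.range M, ∑ n ∈ Finset.Ico (2 ^ i) (2 ^ (i + 1)), f n := by
    intro M
    induction M with
    | zero => simp
    | succ M ih =>
      rw [Finset.sum_range_succ, ← add_assoc, ← ih, ← Finset.sum_range_add_sum_Ico _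
        (Nat.pow_le_pow_right (by norm_num) (Nat.le_succ M) : 2 ^ M ≤ 2 ^ (M + 1))]
  have h2 : ∑ n ∈ Finset.range N, f n ≤ ∑ n ∈ Finset.range (2 ^ N), f n := by
    apply Finset.sum_le_sum_of_subset_of_nonneg
    · exact Finset.range_mono Nat.lt_two_pow_self.le
    · intro n _ _; exact hf n
  refine h2.trans ?_
  rw [h1]
  have h3 := h.sum_le_tsum (Finset.range N) (fun i _ => Finset.sum_nonneg fun n _ => hf n)
  linarith

variable {Ω : Type} {m0 : MeasurableSpace Ω} {μ : Measure Ω} [IsProbabilityMeasure μ]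
  {ℱ : Filtration ℕ m0} {A : ℕ → Set Ω} {a : ℕ → ℝ}

/-- the number of empty windows, for all rational constants and errors at once -/
theorem counts (h : Model μ ℱ A a) (ha : ∀ n, 0 ≤ a n) (ha0 : Tendsto a atTop (𝓝 0)) :
    ∀ᵐ ω ∂μ, ∀ c : ℚ, 0 ≤ c → ∀ ε : ℝ, 0 < ε → ∀ᶠ i : ℕ in atTop,
      (ZZ {n | ω ∈ A n} c i : ℝ) ≤ (2 : ℝ) ^ (ε * i) * EE a c i ∧
      EE a c i ≤ (2 : ℝ) ^ (ε * i) * (ZZ {n | ω ∈ A n} c i + 1) := by
  rw [ae_all_iff]
  intro c
  by_cases hc : 0 ≤ c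
  swap
  · exact Eventually.of_forall fun ω h => absurd h hc
  have hc' : (0 : ℝ) ≤ (c : ℝ) := by exact_mod_cast hc
  have h1 : ∀ k : ℕ, ∀ᵐ ω ∂μ, ∀ᶠ i : ℕ in atTop,
      (ZZ {n | ω ∈ A n} c i : ℝ) ≤ (2 : ℝ) ^ ((1 / ((k : ℝ) + 1)) * i) * EE a c i ∧
      EE a c i ≤ (2 : ℝ) ^ ((1 / ((k : ℝ) + 1)) * i) * (ZZ {n | ω ∈ A n} c i + 1) := by
    intro k
    filter_upwards [count_up h ha ha0 (c : ℝ) (show 0 < 1 / ((k : ℝ) + 1) by positivity),
      count_low h ha ha0 hc' (show 0 < 1 / ((k : ℝ) + 1) by positivity)] with ω h2 h3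
    exact h2.and h3
  rw [← ae_all_iff] at h1
  filter_upwards [h1] with ω hω _ ε hε
  obtain ⟨k, hk⟩ := exists_nat_one_div_lt hε
  filter_upwards [hω k] with i hi
  have h2 : (2 : ℝ) ^ ((1 / ((k : ℝ) + 1)) * i) ≤ (2 : ℝ) ^ (ε * i) := by
    apply Real.rpow_le_rpow_of_exponent_le (by norm_num)
    exact mul_le_mul_of_nonneg_right hk.le (Nat.cast_nonneg i)
  have h3 := (EE_pos a c i).le
  constructor
  · exact hi.1.trans (mul_le_mul_of_nonneg_right h2 h3)
  · exact hi.2.trans (mul_le_mul_of_nonneg_right h2 (by positivity))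

/-- **The constant of a profile.** -/
theorem gap_const (h : Model μ ℱ A a) (ha : ∀ n, 0 ≤ a n) (ha0 : Tendsto a atTop (𝓝 0)) (hR : Reg a) :
    ∀ᵐ ω ∂μ, {n | ω ∈ A n}.Infinite ∧ LL {n | ω ∈ A n} = CC a := by
  have hl2 : 0 < Real.log 2 := Real.log_pos (by norm_num)
  filter_upwards [counts h ha ha0] with ω hω
  obtain ⟨S, hS⟩ : ∃ S : Set ℕ, S = {n | ω ∈ A n} := ⟨_, rfl⟩
  rw [← hS] at hω ⊢
  -- the set is infinite
  have hinf : S.Infinite := by
    apply infinite_of_ZZ S (c := ((1 : ℚ) : ℝ))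
    obtain ⟨κ, hκ, h1⟩ := EE_gain ha hR (c := 0) (c' := ((1 : ℚ) : ℝ)) le_rfl (by norm_num)
    have h2 := hω 1 zero_le_one (κ / (2 * Real.log 2)) (by positivity)
    apply Eventually.frequently
    filter_upwards [h1, h2, eventually_gt_atTop 0] with i h3 h4 h5
    have h6 := EE_le_pow a ha 0 i
    have hi : (0 : ℝ) < i := by exact_mod_cast h5
    have h7 : (ZZ S ((1 : ℚ) : ℝ) i : ℝ) < 2 ^ i := by
      calc (ZZ S ((1 : ℚ) : ℝ) i : ℝ) ≤ (2 : ℝ) ^ (κ / (2 * Real.log 2) * i) * EE a ((1 : ℚ) : ℝ) i := h4.1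
        _ ≤ (2 : ℝ) ^ (κ / (2 * Real.log 2) * i) * (Real.exp (-(κ * i)) * 2 ^ i) := by
          apply mul_le_mul_of_nonneg_left _ (by positivity)
          exact h3.trans (mul_le_mul_of_nonneg_left h6 (Real.exp_pos _).le)
        _ = Real.exp (-(κ / 2 * i)) * 2 ^ i := by
          rw [two_rpow, ← mul_assoc, ← Real.exp_add]
          congr 2
          field_simp
          ring
        _ < 1 * 2 ^ i := by
          apply mul_lt_mul_of_pos_right _ (by positivity)
          rw [Real.exp_lt_one_iff]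
          have : 0 < κ / 2 * i := by positivity
          linarith
        _ = 2 ^ i := one_mul _
    exact_mod_cast h7
  refine ⟨hinf, le_antisymm ?_ ?_⟩
  · -- upper bound
    unfold CC
    apply le_sInf
    rintro x ⟨c, hc, rfl, hsum⟩
    apply le_of_forall_gt_imp_ge_of_dense
    intro b hb
    obtain ⟨q, hq1, hq2⟩ := EReal.lt_iff_exists_rat_btwn.1 hb
    refine le_trans ?_ hq2.le
    have hcq : c < (q : ℝ) := by exact_mod_cast hq1
    have hq0 : (0 : ℝ) ≤ (q : ℝ) := by linarith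
    have hq0' : (0 : ℚ) ≤ q := by exact_mod_cast hq0
    have key : LL S ≤ (((q : ℝ)) : EReal) := by
      apply LL_le_of_ZZ S hinf hq0
      obtain ⟨κ, hκ, h1⟩ := EE_gain ha hR hc.le hcq
      obtain ⟨T, hT⟩ : ∃ T, T = ∑' n : ℕ, Real.exp (-ms a c n) := ⟨_, rfl⟩
      have hT0 : 0 ≤ T := by rw [hT]; exact tsum_nonneg fun n => (Real.exp_pos _).le
      have h2 := hω q hq0' (κ / (2 * Real.log 2)) (by positivity)
      have h3 : ∀ᶠ i : ℕ in atTop, T < Real.exp (κ / 2 * i) := by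
        have h4 : Tendsto (fun i : ℕ => Real.exp (κ / 2 * i)) atTop atTop :=
          Real.tendsto_exp_atTop.comp (tendsto_natCast_atTop_atTop.const_mul_atTop (by positivity))
        exact h4.eventually_gt_atTop T
      filter_upwards [h1, h2, h3] with i h4 h5 h6
      have h7 : EE a c i ≤ T := by
        rw [hT]
        exact EE_le_tsum (fun n => (Real.exp_pos _).le) hsum i
      have h8 : (ZZ S (q : ℝ) i : ℝ) < 1 := by
        calc (ZZ S (q : ℝ) i : ℝ) ≤ (2 : ℝ) ^ (κ / (2 * Real.log 2) * i) * EE a (q : ℝ) i := h5.1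
          _ ≤ (2 : ℝ) ^ (κ / (2 * Real.log 2) * i) * (Real.exp (-(κ * i)) * T) := by
            apply mul_le_mul_of_nonneg_left _ (by positivity)
            exact h4.trans (mul_le_mul_of_nonneg_left h7 (Real.exp_pos _).le)
          _ = Real.exp (-(κ / 2 * i)) * T := by
            rw [two_rpow, ← mul_assoc, ← Real.exp_add]
            congr 2
            field_simp
            ring
          _ < Real.exp (-(κ / 2 * i)) * Real.exp (κ / 2 * i) :=
            mul_lt_mul_of_pos_left h6 (Real.exp_pos _)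
          _ = 1 := by rw [← Real.exp_add]; simp
      have h9 : ZZ S (q : ℝ) i < 1 := by exact_mod_cast h8
      omega
    exact key
  · -- lower bound
    apply le_of_forall_lt_imp_le_of_dense
    intro b hb
    obtain ⟨q, hq1, hq2⟩ := EReal.lt_iff_exists_rat_btwn.1 hb
    obtain ⟨q', hq3, hq4⟩ := EReal.lt_iff_exists_rat_btwn.1 hq2
    rcases lt_or_ge q 0 with hneg | hq0
    · -- `LL` is nonnegative
      refine hq1.le.trans ?_
      have h0 : (0 : ℝ) ≤ 0 := le_rfl
      have h1 : ((0 : ℝ) : EReal) ≤ LL S := by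
        apply le_LL S hinf le_rfl
        apply Eventually.frequently
        filter_upwards with n m h1 h2
        exfalso
        have : wl 0 n = 0 := by simp [wl]
        omega
      refine le_trans ?_ h1
      have : (q : ℝ) ≤ 0 := by exact_mod_cast hneg.le
      exact_mod_cast this
    refine hq1.le.trans ?_
    have hqr : (0 : ℝ) ≤ (q : ℝ) := by exact_mod_cast hq0
    have hqq : (q : ℝ) < (q' : ℝ) := by exact_mod_cast hq3
    have hq'pos : (0 : ℝ) < (q' : ℝ) := by linarith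
    have hns : ¬ Summable (fun n : ℕ => Real.exp (-ms a (q' : ℝ) n)) := by
      intro hsum
      have h1 : CC a ≤ (((q' : ℝ)) : EReal) := by
        unfold CC
        exact sInf_le ⟨_, hq'pos, rfl, hsum⟩
      exact absurd hq4 (not_lt.2 h1)
    have key : (((q : ℝ)) : EReal) ≤ LL S := by
      apply le_LL_of_ZZ S hinf hqr
      obtain ⟨κ, hκ, h1⟩ := EE_gain ha hR hqr hqq
      have h2 := hω q hq0 (κ / (4 * Real.log 2)) (by positivity)
      by_contra hcon
      rw [not_frequently] at hcon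
      apply hns
      apply summable_of_blocks (fun n => (Real.exp_pos _).le)
      refine Summable.of_norm_bounded_eventually_nat (summable_exp_neg (show 0 < κ / 2 by positivity)) ?_
      filter_upwards [h1, h2, hcon] with i h3 h4 h5
      have h6 : ZZ S (q : ℝ) i = 0 := by omega
      have h7 := h4.2
      rw [h6, Nat.cast_zero, zero_add, mul_one] at h7
      have h8 : 0 ≤ EE a (q' : ℝ) i := (EE_pos a _ i).le
      have h9 : ‖∑ n ∈ Finset.Ico (2 ^ i) (2 ^ (i + 1)), Real.exp (-ms a (q' : ℝ) n)‖ = EE a (q' : ℝ) i := by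
        rw [Real.norm_of_nonneg (by exact h8)]
        rfl
      rw [h9]
      calc EE a (q' : ℝ) i ≤ Real.exp (-(κ * i)) * EE a (q : ℝ) i := h3
        _ ≤ Real.exp (-(κ * i)) * (2 : ℝ) ^ (κ / (4 * Real.log 2) * i) :=
          mul_le_mul_of_nonneg_left h7 (Real.exp_pos _).le
        _ = Real.exp (-(3 * κ / 4 * i)) := by
          rw [two_rpow, ← Real.exp_add]
          congr 1
          field_simp
          ring
        _ ≤ Real.exp (-(κ / 2 * i)) := by
          apply Real.exp_le_exp.2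
          have : (0 : ℝ) ≤ i := Nat.cast_nonneg i
          nlinarith
    exact key

end Pool.Agent.U462.Gap
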