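import Mathlib
import Pool.Agent.U462.Gap.Const
import Pool.Agent.U839.Sv.Count
import Pool.Agent.H305R2.MertensE

set_option autoImplicit false
set_option linter.unusedSectionVars false

/-! # Sieved profiles -/

open MeasureTheory Filter Set
open scoped ENNReal Topology

namespace Pool.Agent.U462.Gap

open Pool.Agent.U839.Sv (W W_eq W_pos W_ge_one W_mono W_le Er Er_nonneg Er_mono stretch wt Pr)

open Classical in
/-- `∏_{p ≤ T(n)} (1 - 1/p)⁻¹` if `n` has no prime factor `p ≤ T(n)`, and `0` otherwise -/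
noncomputable def fT (T : ℕ → ℕ) (n : ℕ) : ℝ :=
  if ∀ p, p.Prime → p ≤ T n → ¬ p ∣ n then
    ∏ p ∈ (Finset.Icc 1 (T n)).filter Nat.Prime, (1 - 1 / (p : ℝ))⁻¹ else 0

/-- the profile of the model with the sieve `T` -/
noncomputable def aT (T : ℕ → ℕ) (n : ℕ) : ℝ := fT T n / Real.log n

/-- smaller than every power of `n` -/
def Small (T : ℕ → ℕ) : Prop := ∀ ε : ℝ, 0 < ε → ∀ᶠ n : ℕ in atTop, (T n : ℝ) ≤ (n : ℝ) ^ ε

lemma fT_def' (T : ℕ → ℕ) (n : ℕ) [Decidable (∀ p, p.Prime → p ≤ T n → ¬ p ∣ n)] :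
    fT T n = if ∀ p, p.Prime → p ≤ T n → ¬ p ∣ n then W (T n) else 0 := by
  unfold fT W
  congr

lemma fT_nonneg (T : ℕ → ℕ) (m : ℕ) : 0 ≤ fT T m := by
  classical
  rw [fT_def']
  split_ifs
  · exact (W_pos _).le
  · exact le_rfl

lemma fT_le (T : ℕ → ℕ) (n : ℕ) : fT T n ≤ W (T n) := by
  classical
  rw [fT_def']
  split_ifs
  · exact le_rfl
  · exact (W_pos _).le

lemma aT_nonneg (T : ℕ → ℕ) (n : ℕ) : 0 ≤ aT T n :=
  div_nonneg (fT_nonneg T n) (Real.log_natCast_nonneg n)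

lemma fT_eq_wt (T : ℕ → ℕ) (m : ℕ) : fT T m = wt T ∅ 0 m := by
  classical
  rw [fT_def']
  unfold wt
  have h : (∀ p, p.Prime → p ≤ T m → ¬ p ∣ m) ↔ (∀ p, p.Prime → p ≤ T m → p ∉ (∅ : Finset ℕ) → ¬ p ∣ m + 0) := by
    constructor
    · intro h p h1 h2 _
      exact h p h1 h2
    · intro h p h1 h2
      exact h p h1 h2 (Finset.notMem_empty p)
  by_cases h1 : ∀ p, p.Prime → p ≤ T m → ¬ p ∣ m
  · rw [if_pos h1, if_pos (h.1 h1)]
  · rw [if_neg h1, if_neg (fun h2 => h1 (h.2 h2))]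

lemma W_le' (t : ℕ) : W t ≤ t + 1 := by
  rcases Nat.eq_zero_or_pos t with h | h
  · rw [h, W_eq]
    have : Pr 0 = ∅ := by decide
    rw [this]; simp
  · have := W_le t h
    linarith

lemma err_le (R t : ℕ) : ((t : ℝ) + 1) * (W t * Er R t) ≤ ((t : ℝ) + 2) ^ (8 * R + 18) := by
  have h0 : (0 : ℝ) ≤ t := Nat.cast_nonneg t
  have h1 : Er R t ≤ ((t : ℝ) + 2) ^ (8 * R + 16) := by
    unfold Er
    apply pow_le_pow_left₀ (by positivity)
    push_cast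
    apply max_le <;> linarith
  calc ((t : ℝ) + 1) * (W t * Er R t) ≤ (t + 2) * ((t + 2) * (t + 2) ^ (8 * R + 16)) := by
        apply mul_le_mul (by linarith) _ (mul_nonneg (W_pos t).le (Er_nonneg R t)) (by linarith)
        exact mul_le_mul (by linarith [W_le' t]) h1 (Er_nonneg R t) (by linarith)
    _ = _ := by ring

lemma exists_R (δ : ℝ) (hδ : 0 < δ) : ∃ R : ℕ, 13 ≤ R ∧ (2 : ℝ) ^ 25 * (1 / 2) ^ (2 * R) ≤ δ := by
  have h1 : Tendsto (fun R : ℕ => (2 : ℝ) ^ 25 * (1 / 2) ^ (2 * R)) atTop (𝓝 (2 ^ 25 * 0)) := by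
    apply Tendsto.const_mul
    have h2 : Tendsto (fun R : ℕ => ((1 / 2 : ℝ) ^ 2) ^ R) atTop (𝓝 0) :=
      tendsto_pow_atTop_nhds_zero_of_lt_one (by positivity) (by norm_num)
    refine h2.congr (fun R => ?_)
    rw [← pow_mul]
  rw [mul_zero] at h1
  obtain ⟨R, h2, h3⟩ := ((h1.eventually (eventually_le_nhds hδ)).and (eventually_ge_atTop 13)).exists
  exact ⟨R, h3, h2⟩

/-- sums over intervals, from the fundamental lemma of the sieve -/
lemma sum_window (R : ℕ) (hR : 13 ≤ R) (T : ℕ → ℕ) (hT : Monotone T) (n K t : ℕ)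
    (ht : T (n + K) ≤ t) :
    |∑ m ∈ Finset.Ioc n (n + K), fT T m - K| ≤
      2 ^ 25 * (1 / 2) ^ (2 * R) * K + ((t : ℝ) + 2) ^ (8 * R + 18) := by
  have h := stretch R hR T hT ∅ (by simp) 0 n K (by simp)
  simp only [Finset.prod_empty, inv_one, one_mul] at h
  have h1 : ∑ m ∈ Finset.Ioc n (n + K), fT T m = ∑ j ∈ Finset.Ioc n (n + K), wt T ∅ 0 j :=
    Finset.sum_congr rfl (fun m _ => fT_eq_wt T m)
  rw [h1]
  refine h.trans ?_
  have h2 := err_le R (T (n + K))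
  have h3 : ((T (n + K) : ℝ) + 2) ^ (8 * R + 18) ≤ ((t : ℝ) + 2) ^ (8 * R + 18) := by
    apply pow_le_pow_left₀ (by positivity)
    have : (T (n + K) : ℝ) ≤ t := by exact_mod_cast ht
    linarith
  linarith

lemma W_lim : Tendsto (fun N : ℕ => W N / Real.log N) atTop (𝓝 (Real.exp Real.eulerMascheroniConstant)) := by
  have h := Pool.Agent.H305R2.mertens_three
  have h0 : ∀ N : ℕ, (∏ p ∈ (Finset.Icc 1 N).filter Nat.Prime, (1 - (p : ℝ)⁻¹)⁻¹) = W N := by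
    intro N
    unfold W
    simp only [one_div]
  simpa only [h0] using h

lemma W_bound : ∃ C : ℝ, 0 < C ∧ ∀ t : ℕ, W t ≤ C + C * Real.log t := by
  have h1 : ∀ᶠ N : ℕ in atTop, W N / Real.log N < Real.exp Real.eulerMascheroniConstant + 1 :=
    W_lim.eventually (gt_mem_nhds (by linarith))
  obtain ⟨N0, hN0⟩ := eventually_atTop.1 (h1.and (tlog.eventually_gt_atTop 0))
  have hW0 := W_pos N0
  have he := Real.exp_pos Real.eulerMascheroniConstant
  refine ⟨W N0 + (Real.exp Real.eulerMascheroniConstant + 1), by linarith, ?_⟩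
  intro x
  have hx0 : 0 ≤ Real.log (x : ℝ) := Real.log_natCast_nonneg x
  have k1 : 0 ≤ W N0 * Real.log x := mul_nonneg hW0.le hx0
  have k2 : 0 ≤ (Real.exp Real.eulerMascheroniConstant + 1) * Real.log x := by positivity
  rcases le_total x N0 with h2 | h2
  · have := W_mono h2
    nlinarith
  · obtain ⟨g1, g2⟩ := hN0 x h2
    rw [div_lt_iff₀ g2] at g1
    nlinarith

/-- the densities tend to `0` -/
lemma aT_tendsto (T : ℕ → ℕ) (hT : Small T) : Tendsto (aT T) atTop (𝓝 0) := by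
  obtain ⟨C, hC, hW⟩ := W_bound
  rw [Metric.tendsto_atTop']
  intro η hη
  have hev : ∀ᶠ n : ℕ in atTop, aT T n < η := by
    filter_upwards [hT (η / (4 * C)) (by positivity), tlog.eventually_ge_atTop (4 * C / η),
      eventually_gt_atTop 1] with n h1 h2 h3
    have hn1 : (1 : ℝ) < n := by exact_mod_cast h3
    have hn0 : (0 : ℝ) < n := by linarith
    have hL : 0 < Real.log n := Real.log_pos hn1
    unfold aT
    rw [div_lt_iff₀ hL]
    refine lt_of_le_of_lt ((fT_le T n).trans (hW (T n))) ?_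
    have h4 : Real.log (T n) ≤ η / (4 * C) * Real.log n := by
      rcases Nat.eq_zero_or_pos (T n) with h5 | h5
      · rw [h5]
        simp only [Nat.cast_zero, Real.log_zero]
        positivity
      · rw [← Real.log_rpow hn0]
        exact Real.log_le_log (by exact_mod_cast h5) h1
    have h5 : C * Real.log (T n) ≤ η / 4 * Real.log n := by
      calc C * Real.log (T n) ≤ C * (η / (4 * C) * Real.log n) := mul_le_mul_of_nonneg_left h4 hC.le
        _ = η / 4 * Real.log n := by field_simp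
    have h6 : C ≤ η / 4 * Real.log n := by
      rw [div_le_iff₀ hη] at h2
      linarith
    have : 0 < η * Real.log n := by positivity
    linarith
  obtain ⟨N, hN⟩ := eventually_atTop.1 hev
  refine ⟨N, fun n hn => ?_⟩
  rw [Real.dist_eq, sub_zero, abs_of_nonneg (aT_nonneg T n)]
  exact hN n hn.le

lemma T_small (T : ℕ → ℕ) (hTs : Small T)
    (D : ℕ) (hD : 1 ≤ D) (ε : ℝ) (hε : 0 < ε) : ∀ᶠ x : ℕ in atTop, ((T (4 * x) : ℝ) + 2) ^ D ≤ (x : ℝ) ^ ε := by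
  have hD0 : (0 : ℝ) < D := by exact_mod_cast hD
  have h1 : Tendsto (fun x : ℕ => 4 * x) atTop atTop :=
    tendsto_id.const_mul_atTop' (by norm_num)
  have e1 : ∀ᶠ x : ℕ in atTop, (T (4 * x) : ℝ) ≤ ((4 * x : ℕ) : ℝ) ^ (ε / (2 * D)) :=
    h1.eventually (hTs (ε / (2 * D)) (by positivity))
  have e2 : ∀ᶠ x : ℕ in atTop, (4 : ℝ) ^ (ε / (2 * D)) + 2 ≤ (x : ℝ) ^ (ε / (2 * D)) :=
    ((tendsto_rpow_atTop (by positivity)).comp tendsto_natCast_atTop_atTop).eventually_ge_atTop _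
  filter_upwards [e1, e2, eventually_ge_atTop 1] with x h2 h3 h4
  have hx1 : (1 : ℝ) ≤ x := by exact_mod_cast h4
  have hx0 : (0 : ℝ) < x := by linarith
  have h5 : (1 : ℝ) ≤ (x : ℝ) ^ (ε / (2 * D)) := Real.one_le_rpow hx1 (by positivity)
  have h6 : (T (4 * x) : ℝ) + 2 ≤ (x : ℝ) ^ (ε / D) := by
    have e3 : ((4 * x : ℕ) : ℝ) ^ (ε / (2 * D)) = 4 ^ (ε / (2 * D)) * (x : ℝ) ^ (ε / (2 * D)) := by
      push_cast
      rw [Real.mul_rpow (by norm_num) hx0.le]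
    rw [e3] at h2
    have e4 : (x : ℝ) ^ (ε / D) = (x : ℝ) ^ (ε / (2 * D)) * (x : ℝ) ^ (ε / (2 * D)) := by
      rw [← Real.rpow_add hx0]
      congr 1
      field_simp
      norm_num
    rw [e4]
    nlinarith
  calc ((T (4 * x) : ℝ) + 2) ^ D ≤ ((x : ℝ) ^ (ε / D)) ^ D := by
        apply pow_le_pow_left₀ (by positivity) h6
    _ = (x : ℝ) ^ ε := by
        rw [← Real.rpow_natCast, ← Real.rpow_mul hx0.le]
        congr 1
        field_simp

/-- the mass of long intervals -/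
lemma block_mass (T : ℕ → ℕ) (hT : Monotone T) (hTs : Small T) {ε : ℝ} (hε : 0 < ε) :
    ∀ᶠ i : ℕ in atTop, ∀ K : ℕ, K ≤ 3 * 2 ^ i →
      |∑ m ∈ Finset.Ioc (2 ^ i) (2 ^ i + K), fT T m - K| ≤ ε * 2 ^ i := by
  obtain ⟨R, hR, hRδ⟩ := exists_R (ε / 6) (by positivity)
  have hp : Tendsto (fun i : ℕ => 2 ^ i) atTop atTop := tendsto_pow_atTop_atTop_of_one_lt (by norm_num)
  have e1 := hp.eventually (T_small T hTs (8 * R + 18) (by omega) (1 / 2) (by norm_num))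
  have e2 : ∀ᶠ i : ℕ in atTop, 2 / ε ≤ (((2 ^ i : ℕ) : ℝ)) ^ (1 / 2 : ℝ) :=
    (((tendsto_rpow_atTop (by norm_num : (0 : ℝ) < 1 / 2)).comp tendsto_natCast_atTop_atTop).comp hp).eventually_ge_atTop _
  filter_upwards [e1, e2] with i h1 h2
  intro K hK
  have h3 := sum_window R hR T hT (2 ^ i) K (T (4 * 2 ^ i)) (hT (by omega))
  refine h3.trans ?_
  have hX : (0 : ℝ) < ((2 ^ i : ℕ) : ℝ) := by positivity
  have h4 : (((2 ^ i : ℕ) : ℝ)) ^ (1 / 2 : ℝ) * (((2 ^ i : ℕ) : ℝ)) ^ (1 / 2 : ℝ) = ((2 ^ i : ℕ) : ℝ) := by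
    rw [← Real.rpow_add hX]; norm_num
  have h5 : (((2 ^ i : ℕ) : ℝ)) ^ (1 / 2 : ℝ) ≤ ε / 2 * ((2 ^ i : ℕ) : ℝ) := by
    have h6 : 0 < (((2 ^ i : ℕ) : ℝ)) ^ (1 / 2 : ℝ) := by positivity
    rw [div_le_iff₀ hε] at h2
    calc (((2 ^ i : ℕ) : ℝ)) ^ (1 / 2 : ℝ) = (((2 ^ i : ℕ) : ℝ)) ^ (1 / 2 : ℝ) * (2 / 2) := by ring
      _ ≤ (((2 ^ i : ℕ) : ℝ)) ^ (1 / 2 : ℝ) * (((((2 ^ i : ℕ) : ℝ)) ^ (1 / 2 : ℝ) * ε) / 2) := by
        apply mul_le_mul_of_nonneg_left _ h6.le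
        linarith
      _ = ε / 2 * ((((2 ^ i : ℕ) : ℝ)) ^ (1 / 2 : ℝ) * (((2 ^ i : ℕ) : ℝ)) ^ (1 / 2 : ℝ)) := by ring
      _ = ε / 2 * ((2 ^ i : ℕ) : ℝ) := by rw [h4]
  have h6 : (K : ℝ) ≤ 3 * ((2 ^ i : ℕ) : ℝ) := by exact_mod_cast hK
  have h7 : (2 : ℝ) ^ 25 * (1 / 2) ^ (2 * R) * K ≤ ε / 6 * (3 * ((2 ^ i : ℕ) : ℝ)) := by
    apply mul_le_mul hRδ h6 (Nat.cast_nonneg K) (by positivity)
  have h8 : ((2 ^ i : ℕ) : ℝ) = 2 ^ i := by push_cast; rfl
  rw [h8] at h5 h7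
  rw [h8] at h1
  linarith

variable {Ω : Type} {m0 : MeasurableSpace Ω} {μ : Measure Ω} [IsProbabilityMeasure μ]
  {ℱ : Filtration ℕ m0} {A : ℕ → Set Ω} {a : ℕ → ℝ}

open Pool.Agent.R528.RM (dens WV dens_meas WV_meas)

/-- a random set with large masses of the blocks is infinite -/
lemma infinite_of_mass (h : Model μ ℱ A a) (ha : ∀ n, 0 ≤ a n) (ha0 : Tendsto a atTop (𝓝 0))
    (hm : ∀ᶠ i : ℕ in atTop, (i : ℝ) ≤ ∑ m ∈ Finset.Ioc (2 ^ i) (2 ^ i + 2 ^ i), a m) :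
    ∀ᵐ ω ∂μ, {n | ω ∈ A n}.Infinite := by
  obtain ⟨V, hVd⟩ : ∃ V, V = VD μ ℱ A a (1 / 2) := ⟨_, rfl⟩
  have hV : ∀ n, MeasurableSet[ℱ n] (V n) := fun n => by rw [hVd]; exact VD_meas _ n
  obtain ⟨n₁, hn₁⟩ := eventually_atTop.1 (ha0.eventually (eventually_le_nhds (show (0 : ℝ) < 1 by norm_num)))
  have hbc : ∀ᵐ ω ∂μ, ∀ᶠ i : ℕ in atTop, ω ∉ Em A (2 ^ i) (2 ^ i) \ WV V (2 ^ i) (2 ^ i) := by
    refine bc (b := fun i : ℕ => Real.exp (-(1 / 2 * i))) (summable_exp_neg (by norm_num)) ?_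
    filter_upwards [hm, eventually_ge_atTop n₁] with i h1 h2
    have hi2 : n₁ ≤ 2 ^ i := h2.trans Nat.lt_two_pow_self.le
    have h3 := E_le (μ := μ) h.adapted hV (fun m => 1 / 2 * a m) (2 ^ i) (B := univ) MeasurableSet.univ (2 ^ i)
      (fun m h1 _ => by
        have := hn₁ (m + 1) (by omega)
        linarith)
      (fun m h1 _ ω hω => by
        rw [hVd] at hω
        simp only [VD, mem_ofPred_eq, not_not] at hω
        have := (abs_le.1 hω).1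
        linarith) (2 ^ i) le_rfl
    rw [univ_inter, probReal_univ, mul_one, ← Finset.mul_sum] at h3
    refine h3.trans (Real.exp_le_exp.2 ?_)
    linarith
  filter_upwards [hbc, no_VD h (show (0 : ℝ) < 1 / 2 by norm_num)] with ω g1 g2
  obtain ⟨n₀, hn₀⟩ := g2
  rw [Set.infinite_iff_exists_gt]
  intro N
  obtain ⟨i, h1, h2, h3⟩ := (g1.and ((eventually_ge_atTop n₀).and (eventually_ge_atTop N))).exists
  have h4 : ω ∉ Em A (2 ^ i) (2 ^ i) := by
    intro h5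
    apply h1
    refine ⟨h5, ?_⟩
    rintro ⟨k, h6, _, h7⟩
    rw [hVd] at h7
    have : i < 2 ^ i := Nat.lt_two_pow_self
    exact hn₀ k (by omega) h7
  simp only [Em, mem_ofPred_eq] at h4
  push Not at h4
  obtain ⟨m, h5, _, h6⟩ := h4
  refine ⟨m, h6, ?_⟩
  have : i < 2 ^ i := Nat.lt_two_pow_self
  omega

lemma aT_block (T : ℕ → ℕ) (hT : Monotone T) (hTs : Small T) :
    ∀ᶠ i : ℕ in atTop, (i : ℝ) ≤ ∑ m ∈ Finset.Ioc (2 ^ i) (2 ^ i + 2 ^ i), aT T m := by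
  have e1 : ∀ᶠ i : ℕ in atTop, 4 * (i : ℝ) ^ 2 ≤ 2 ^ i := by
    have h3 : Tendsto (fun k : ℕ => (k : ℝ) ^ 2 / 2 ^ k) atTop (𝓝 0) :=
      tendsto_pow_const_div_const_pow_of_one_lt 2 (by norm_num)
    filter_upwards [h3.eventually (eventually_le_nhds (show (0 : ℝ) < 1 / 4 by norm_num))] with i hi
    rw [div_le_iff₀ (by positivity)] at hi
    linarith
  filter_upwards [block_mass T hT hTs (show (0 : ℝ) < 1 / 2 by norm_num), e1, eventually_ge_atTop 1] with i h1 h2 h3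
  have h4 := (abs_le.1 (h1 (2 ^ i) (by omega))).1
  push_cast at h4
  have hi : (1 : ℝ) ≤ i := by exact_mod_cast h3
  have h5 : ∑ m ∈ Finset.Ioc (2 ^ i) (2 ^ i + 2 ^ i), fT T m / (2 * i) ≤
      ∑ m ∈ Finset.Ioc (2 ^ i) (2 ^ i + 2 ^ i), aT T m := by
    apply Finset.sum_le_sum
    intro m hm
    rw [Finset.mem_Ioc] at hm
    unfold aT
    have h6 : (1 : ℝ) < m := by
      have h7 : 1 < m := lt_of_le_of_lt Nat.one_le_two_pow hm.1
      exact_mod_cast h7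
    have h7 : Real.log m ≤ 2 * i := by
      have h8 : (m : ℝ) ≤ 2 ^ (i + 1) := by
        have : m ≤ 2 ^ (i + 1) := by rw [pow_succ]; omega
        exact_mod_cast this
      have h9 : Real.log m ≤ Real.log ((2 : ℝ) ^ (i + 1)) := Real.log_le_log (by linarith) h8
      rw [Real.log_pow] at h9
      push_cast at h9
      have := Real.log_two_lt_d9
      nlinarith
    exact div_le_div_of_nonneg_left (fT_nonneg T m) (Real.log_pos h6) h7
  rw [← Finset.sum_div] at h5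
  refine le_trans ?_ h5
  rw [le_div_iff₀ (by positivity)]
  nlinarith

lemma T_infinite {T : ℕ → ℕ} (h : Model μ ℱ A (aT T)) (hT : Monotone T) (hTs : Small T) :
    ∀ᵐ ω ∂μ, {n | ω ∈ A n}.Infinite :=
  infinite_of_mass h (aT_nonneg T) (aT_tendsto T hTs) (aT_block T hT hTs)

end Pool.Agent.U462.Gap
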