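import Mathlib
import Pool.Agent.U462.Gap.Sieve

set_option autoImplicit false
set_option linter.unusedSectionVars false

/-! # Sieved profiles: the general lower bound, and regular windows for small sieves -/

open MeasureTheory Filter Set
open scoped ENNReal Topology

namespace Pool.Agent.U462.Gap

/-- the mean value bounds the expected number from below -/
lemma EE_ge_of_avg (a : ℕ → ℝ) (c : ℝ) (i : ℕ) {ν : ℝ}
    (h : ∑ n ∈ Finset.Ico (2 ^ i) (2 ^ (i + 1)), ms a c n ≤ ν * 2 ^ i) : 2 ^ i * Real.exp (-ν) ≤ EE a c i := by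
  have h1 : ∀ n ∈ Finset.Ico (2 ^ i) (2 ^ (i + 1)), Real.exp (-ν) * (1 - (ms a c n - ν)) ≤ Real.exp (-ms a c n) := by
    intro n _
    have h2 := Real.add_one_le_exp (-(ms a c n - ν))
    have h3 : Real.exp (-ms a c n) = Real.exp (-ν) * Real.exp (-(ms a c n - ν)) := by
      rw [← Real.exp_add]; congr 1; ring
    rw [h3]
    apply mul_le_mul_of_nonneg_left _ (Real.exp_pos _).le
    linarith
  have h2 := Finset.sum_le_sum h1
  rw [← Finset.mul_sum] at h2
  have h3 : ∑ n ∈ Finset.Ico (2 ^ i) (2 ^ (i + 1)), (1 - (ms a c n - ν)) =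
      2 ^ i * (1 + ν) - ∑ n ∈ Finset.Ico (2 ^ i) (2 ^ (i + 1)), ms a c n := by
    rw [Finset.sum_sub_distrib, Finset.sum_sub_distrib, Finset.sum_const, Finset.sum_const, card_block]
    simp only [nsmul_eq_mul]
    push_cast
    ring
  rw [h3] at h2
  refine le_trans ?_ h2
  rw [mul_comm]
  apply mul_le_mul_of_nonneg_left _ (Real.exp_pos _).le
  linarith

lemma log_two_pos : 0 < Real.log 2 := Real.log_pos (by norm_num)

/-- double counting -/
lemma sum_ms_le (a : ℕ → ℝ) (ha : ∀ n, 0 ≤ a n) {c : ℝ} (hc : 0 ≤ c) (i : ℕ) :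
    ∑ n ∈ Finset.Ico (2 ^ i) (2 ^ (i + 1)), ms a c n ≤
      wl c (2 ^ (i + 1)) * ∑ m ∈ Finset.Ioc (2 ^ i) (2 ^ i + (2 ^ i + wl c (2 ^ (i + 1)))), a m := by
  obtain ⟨Y, hY⟩ : ∃ Y, Y = wl c (2 ^ (i + 1)) := ⟨_, rfl⟩
  rw [← hY]
  have h1 : ∀ n ∈ Finset.Ico (2 ^ i) (2 ^ (i + 1)), ms a c n ≤ ∑ r ∈ Finset.range Y, a (n + 1 + r) := by
    intro n hn
    rw [Finset.mem_Ico] at hn
    have h2 : wl c n ≤ Y := by
      rw [hY]
      exact wl_mono hc (le_trans Nat.one_le_two_pow hn.1) hn.2.le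
    have h3 : ∑ r ∈ Finset.range Y, a (n + 1 + r) = ∑ m ∈ Finset.Ioc n (n + Y), a m := by
      have h4 := Finset.sum_Ico_eq_sum_range (fun m => a m) (n + 1) (n + 1 + Y)
      rw [Nat.add_sub_cancel_left] at h4
      rw [← h4]
      apply Finset.sum_congr _ (fun _ _ => rfl)
      ext m
      rw [Finset.mem_Ico, Finset.mem_Ioc]
      omega
    rw [h3]
    unfold ms
    apply Finset.sum_le_sum_of_subset_of_nonneg
    · exact Finset.Ioc_subset_Ioc_right (by omega)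
    · intro m _ _; exact ha m
  refine (Finset.sum_le_sum h1).trans ?_
  rw [Finset.sum_comm]
  have h2 : ∀ r ∈ Finset.range Y, ∑ n ∈ Finset.Ico (2 ^ i) (2 ^ (i + 1)), a (n + 1 + r) ≤
      ∑ m ∈ Finset.Ioc (2 ^ i) (2 ^ i + (2 ^ i + Y)), a m := by
    intro r hr
    rw [Finset.mem_range] at hr
    have h3 : ∑ n ∈ Finset.Ico (2 ^ i) (2 ^ (i + 1)), a (n + 1 + r) =
        ∑ m ∈ (Finset.Ico (2 ^ i) (2 ^ (i + 1))).image (fun n => n + 1 + r), a m := by
      rw [Finset.sum_image]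
      intro x _ y _ h
      simpa using h
    rw [h3]
    apply Finset.sum_le_sum_of_subset_of_nonneg
    · intro m hm
      rw [Finset.mem_image] at hm
      obtain ⟨n, hn, rfl⟩ := hm
      rw [Finset.mem_Ico, pow_succ] at hn
      rw [Finset.mem_Ioc]
      omega
    · intro m _ _; exact ha m
  refine (Finset.sum_le_sum h2).trans (le_of_eq ?_)
  rw [Finset.sum_const, Finset.card_range, nsmul_eq_mul]

lemma wl_le {c : ℝ} (hc : 0 ≤ c) (i : ℕ) : (wl c (2 ^ (i + 1)) : ℝ) ≤ c * ((i + 1) * Real.log 2) ^ 2 := by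
  unfold wl
  have h7 : Real.log ((2 ^ (i + 1) : ℕ) : ℝ) = (i + 1) * Real.log 2 := by
    push_cast
    rw [Real.log_pow]
    push_cast
    ring
  rw [h7]
  exact Nat.floor_le (by positivity)

lemma wl_small {c : ℝ} (_ : 0 ≤ c) {ε : ℝ} (hε : 0 < ε) : ∀ᶠ i : ℕ in atTop, (wl c (2 ^ (i + 1)) : ℝ) ≤ ε * 2 ^ i := by
  have h1 := poly_small c (show 0 < Real.log 2 / 2 by have := log_two_pos; positivity)
  have h2 : ∀ᶠ i : ℕ in atTop, 1 / ε ≤ Real.exp (Real.log 2 / 2 * i) :=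
    (Real.tendsto_exp_atTop.comp (tendsto_natCast_atTop_atTop.const_mul_atTop
      (by have := log_two_pos; positivity))).eventually_ge_atTop _
  filter_upwards [h1, h2] with i h3 h4
  push_cast at h3
  have h5 : (2 : ℝ) ^ i = Real.exp (Real.log 2 / 2 * i) * Real.exp (Real.log 2 / 2 * i) := by
    rw [← Real.exp_add, ← Real.rpow_natCast, two_rpow]
    congr 1
    ring
  rw [h5]
  have h6 : 1 ≤ ε * Real.exp (Real.log 2 / 2 * i) := by
    rw [div_le_iff₀ hε] at h4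
    linarith
  have h7 := Real.exp_pos (Real.log 2 / 2 * i)
  nlinarith

/-- the expected number of empty windows for an arbitrary sieve -/
theorem EE_general (T : ℕ → ℕ) (hT : Monotone T) (hTs : Small T) {c : ℝ} (hc : 0 < c) {ε : ℝ} (hε : 0 < ε) :
    ∀ᶠ i : ℕ in atTop, (2 : ℝ) ^ ((1 - c - ε) * i) ≤ EE (aT T) c i := by
  obtain ⟨δ, hδ0, hδ1, hδ2⟩ : ∃ δ : ℝ, 0 < δ ∧ δ ≤ 1 ∧ 8 * δ * c ≤ ε :=
    ⟨min 1 (ε / (8 * c)), lt_min one_pos (by positivity), min_le_left _ _, by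
      have h1 := min_le_right 1 (ε / (8 * c))
      calc 8 * min 1 (ε / (8 * c)) * c ≤ 8 * (ε / (8 * c)) * c := by gcongr
        _ = ε := by field_simp⟩
  have hl2 := log_two_pos
  filter_upwards [block_mass T hT hTs hδ0, wl_small hc.le hδ0, eventually_ge_atTop 1,
    tendsto_natCast_atTop_atTop.eventually_ge_atTop (3 / δ)] with i h1 h2 h3 h4
  have hi : (1 : ℝ) ≤ i := by exact_mod_cast h3
  obtain ⟨Y, hY⟩ : ∃ Y, Y = wl c (2 ^ (i + 1)) := ⟨_, rfl⟩
  have h5 := sum_ms_le (aT T) (aT_nonneg T) hc.le i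
  rw [← hY] at h2 h5
  have hYN : Y ≤ 2 * 2 ^ i := by
    have h6 : (Y : ℝ) ≤ 2 * 2 ^ i := by
      have : (0 : ℝ) < 2 ^ i := by positivity
      nlinarith
    exact_mod_cast h6
  have h6 := (abs_le.1 (h1 (2 ^ i + Y) (by omega))).2
  push_cast at h6
  have h7 : ∑ m ∈ Finset.Ioc (2 ^ i) (2 ^ i + (2 ^ i + Y)), aT T m ≤
      (∑ m ∈ Finset.Ioc (2 ^ i) (2 ^ i + (2 ^ i + Y)), fT T m) / (i * Real.log 2) := by
    rw [Finset.sum_div]
    apply Finset.sum_le_sum
    intro m hm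
    rw [Finset.mem_Ioc] at hm
    unfold aT
    apply div_le_div_of_nonneg_left (fT_nonneg T m) (by positivity)
    rw [← Real.log_pow]
    apply Real.log_le_log (by positivity)
    have : 2 ^ i ≤ m := hm.1.le
    exact_mod_cast this
  have h8 : (∑ m ∈ Finset.Ioc (2 ^ i) (2 ^ i + (2 ^ i + Y)), fT T m) ≤ (1 + 2 * δ) * 2 ^ i := by linarith
  have h9 := wl_le hc.le i
  rw [← hY] at h9
  have h10 : (i : ℝ) + 1 ≤ (1 + δ / 3) * i := by
    rw [div_le_iff₀ hδ0] at h4
    linarith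
  have h11 : (Y : ℝ) ≤ c * (1 + δ) * ((i : ℝ) * Real.log 2) ^ 2 := by
    have h12 : ((i : ℝ) + 1) ^ 2 ≤ ((1 + δ / 3) * i) ^ 2 := pow_le_pow_left₀ (by positivity) h10 2
    have h13 : (1 + δ / 3) ^ 2 ≤ 1 + δ := by nlinarith
    calc (Y : ℝ) ≤ c * ((i + 1) * Real.log 2) ^ 2 := h9
      _ = c * (((i : ℝ) + 1) ^ 2 * Real.log 2 ^ 2) := by ring
      _ ≤ c * (((1 + δ / 3) * i) ^ 2 * Real.log 2 ^ 2) := by gcongr
      _ = c * (1 + δ / 3) ^ 2 * ((i : ℝ) * Real.log 2) ^ 2 := by ring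
      _ ≤ c * (1 + δ) * ((i : ℝ) * Real.log 2) ^ 2 := by gcongr
  have h12 : ∑ n ∈ Finset.Ico (2 ^ i) (2 ^ (i + 1)), ms (aT T) c n ≤ ((c + ε) * (i * Real.log 2)) * 2 ^ i := by
    refine h5.trans ?_
    have hil : 0 < (i : ℝ) * Real.log 2 := by positivity
    calc (Y : ℝ) * ∑ m ∈ Finset.Ioc (2 ^ i) (2 ^ i + (2 ^ i + Y)), aT T m
        ≤ (Y : ℝ) * ((1 + 2 * δ) * 2 ^ i / (i * Real.log 2)) := by
          apply mul_le_mul_of_nonneg_left _ (Nat.cast_nonneg Y)
          exact h7.trans (div_le_div_of_nonneg_right h8 hil.le)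
      _ ≤ (c * (1 + δ) * ((i : ℝ) * Real.log 2) ^ 2) * ((1 + 2 * δ) * 2 ^ i / (i * Real.log 2)) := by
          apply mul_le_mul_of_nonneg_right h11 (by positivity)
      _ = (c * ((1 + δ) * (1 + 2 * δ)) * ((i : ℝ) * Real.log 2)) * 2 ^ i := by
          field_simp
      _ ≤ ((c + ε) * (i * Real.log 2)) * 2 ^ i := by
          have h13 : c * ((1 + δ) * (1 + 2 * δ)) ≤ c + ε := by nlinarith
          gcongr
  have h13 := EE_ge_of_avg (aT T) c i h12
  refine le_trans (le_of_eq ?_) h13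
  rw [← Real.rpow_natCast 2 i, two_rpow, two_rpow, ← Real.exp_add]
  congr 1
  ring

/-- small sieves have regular windows -/
theorem regular (ε : ℝ) (hε : 0 < ε) (hε1 : ε ≤ 1) : ∃ θ : ℝ, 0 < θ ∧ ∀ (T : ℕ → ℕ), Monotone T →
    (∀ᶠ n : ℕ in atTop, (T n : ℝ) ≤ (Real.log n) ^ θ) → ∀ c : ℝ, 0 < c → ∀ᶠ n : ℕ in atTop,
      (1 - ε) * c * Real.log n ≤ ms (aT T) c n ∧ ms (aT T) c n ≤ (1 + ε) * c * Real.log n := by
  obtain ⟨R, hR, hRδ⟩ := exists_R (ε / 8) (by positivity)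
  obtain ⟨D, hD⟩ : ∃ D : ℕ, D = 8 * R + 18 := ⟨_, rfl⟩
  have hD0 : (0 : ℝ) < D := by rw [hD]; positivity
  refine ⟨1 / D, by positivity, fun T hT hTs c hc => ?_⟩
  have h2x : Tendsto (fun x : ℕ => 2 * x) atTop atTop := tendsto_id.const_mul_atTop' (by norm_num)
  have hsq : ∀ᶠ n : ℕ in atTop, c * Real.log n ^ 2 ≤ n := by
    have h3 := (Real.isLittleO_pow_log_id_atTop (n := 2)).def (show (0 : ℝ) < 1 / (c + 1) by positivity)
    filter_upwards [tendsto_natCast_atTop_atTop.eventually h3] with n h3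
    rw [Real.norm_of_nonneg (by positivity), id, Real.norm_of_nonneg (by positivity)] at h3
    have h8 : (c + 1) * Real.log n ^ 2 ≤ (c + 1) * (1 / (c + 1) * n) :=
      mul_le_mul_of_nonneg_left h3 (by positivity)
    have h9 : (c + 1) * (1 / (c + 1) * n) = (n : ℝ) := by field_simp
    nlinarith [sq_nonneg (Real.log (n : ℝ))]
  filter_upwards [h2x.eventually hTs, hsq, tlog.eventually_ge_atTop 1,
    tlog.eventually_ge_atTop ((8 / (ε * c)) * (3 ^ D * 2 + 1)), tlog.eventually_ge_atTop (4 / ε),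
    eventually_ge_atTop 2] with n g1 g2 g3 g4 g5 g6
  have hn0 : (0 : ℝ) < n := by exact_mod_cast (by omega : 0 < n)
  obtain ⟨L, hL⟩ : ∃ L, L = Real.log (n : ℝ) := ⟨_, rfl⟩
  obtain ⟨K, hK⟩ : ∃ K, K = wl c n := ⟨_, rfl⟩
  have hKL : (K : ℝ) ≤ c * L ^ 2 := by
    rw [hK, hL]
    exact Nat.floor_le (by positivity)
  have hKL2 : c * L ^ 2 - 1 ≤ K := by
    rw [hK, hL]
    exact (Nat.sub_one_lt_floor _).le
  rw [← hL] at g2 g3 g4 g5 ⊢
  have hKn : K ≤ n := by
    have : (K : ℝ) ≤ n := by linarith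
    exact_mod_cast this
  have h1 := sum_window R hR T hT n K (T (2 * n)) (hT (by omega))
  rw [← hD] at h1
  have hL2 : Real.log ((2 * n : ℕ) : ℝ) ≤ L + 1 := by
    push_cast
    rw [Real.log_mul (by norm_num) hn0.ne', ← hL]
    have := Real.log_two_lt_d9
    linarith
  have h2 : ((T (2 * n) : ℝ) + 2) ^ D ≤ 3 ^ D * 2 * L := by
    have hl1 : 1 ≤ Real.log ((2 * n : ℕ) : ℝ) := by
      refine g3.trans ?_
      rw [hL]
      apply Real.log_le_log hn0
      push_cast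
      linarith
    have h4 : (1 : ℝ) ≤ (Real.log ((2 * n : ℕ) : ℝ)) ^ (1 / (D : ℝ)) :=
      Real.one_le_rpow hl1 (by positivity)
    calc ((T (2 * n) : ℝ) + 2) ^ D ≤ (3 * (Real.log ((2 * n : ℕ) : ℝ)) ^ (1 / (D : ℝ))) ^ D := by
          apply pow_le_pow_left₀ (by positivity)
          linarith
      _ = 3 ^ D * Real.log ((2 * n : ℕ) : ℝ) := by
          rw [mul_pow, ← Real.rpow_natCast ((Real.log ((2 * n : ℕ) : ℝ)) ^ (1 / (D : ℝ))) D,
            ← Real.rpow_mul (by linarith), one_div, inv_mul_cancel₀ hD0.ne', Real.rpow_one]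
      _ ≤ 3 ^ D * (2 * L) := by
          apply mul_le_mul_of_nonneg_left _ (by positivity)
          linarith
      _ = 3 ^ D * 2 * L := by ring
  have h3 : 3 ^ D * 2 * L + 1 ≤ ε / 8 * (c * L ^ 2) := by
    have h4 : (3 ^ D * 2 + 1) ≤ ε * c / 8 * L := by
      have h5 : (8 / (ε * c)) * (3 ^ D * 2 + 1) * (ε * c / 8) ≤ L * (ε * c / 8) :=
        mul_le_mul_of_nonneg_right g4 (by positivity)
      have h6 : (8 / (ε * c)) * (3 ^ D * 2 + 1 : ℝ) * (ε * c / 8) = 3 ^ D * 2 + 1 := by field_simp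
      linarith
    have h5 : (3 ^ D * 2 + 1) * L ≤ ε * c / 8 * L * L := mul_le_mul_of_nonneg_right h4 (by linarith)
    nlinarith
  have h4 : (2 : ℝ) ^ 25 * (1 / 2) ^ (2 * R) * K ≤ ε / 8 * (c * L ^ 2) := by
    exact mul_le_mul hRδ hKL (Nat.cast_nonneg K) (by positivity)
  rw [abs_le] at h1
  obtain ⟨Sg, hSg⟩ : ∃ Sg, Sg = ∑ m ∈ Finset.Ioc n (n + K), fT T m := ⟨_, rfl⟩
  rw [← hSg] at h1
  have hup : Sg ≤ (1 + ε / 4) * (c * L ^ 2) := by linarith [h1.2]
  have hlo : (1 - ε / 4) * (c * L ^ 2) ≤ Sg := by linarith [h1.1]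
  have hlogs : ∀ m ∈ Finset.Ioc n (n + K), L ≤ Real.log m ∧ Real.log m ≤ L + 1 := by
    intro m hm
    rw [Finset.mem_Ioc] at hm
    constructor
    · rw [hL]
      exact Real.log_le_log hn0 (by exact_mod_cast hm.1.le)
    · refine le_trans ?_ hL2
      have h5 : (0 : ℝ) < m := by
        have : 0 < m := by omega
        exact_mod_cast this
      apply Real.log_le_log h5
      have : m ≤ 2 * n := by omega
      exact_mod_cast this
  have hLpos : 0 < L := by linarith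
  constructor
  · have h5 : Sg / (L + 1) ≤ ms (aT T) c n := by
      unfold ms
      rw [← hK, hSg, Finset.sum_div]
      apply Finset.sum_le_sum
      intro m hm
      obtain ⟨h6, h7⟩ := hlogs m hm
      exact div_le_div_of_nonneg_left (fT_nonneg T m) (by linarith) h7
    refine le_trans ?_ h5
    rw [le_div_iff₀ (by linarith)]
    refine le_trans ?_ hlo
    have h6 : 4 ≤ ε * L := by
      rw [div_le_iff₀ hε] at g5
      linarith
    have h7 : (1 - ε) * (L + 1) ≤ (1 - ε / 4) * L := by nlinarith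
    calc (1 - ε) * c * L * (L + 1) = c * L * ((1 - ε) * (L + 1)) := by ring
      _ ≤ c * L * ((1 - ε / 4) * L) := mul_le_mul_of_nonneg_left h7 (by positivity)
      _ = (1 - ε / 4) * (c * L ^ 2) := by ring
  · have h5 : ms (aT T) c n ≤ Sg / L := by
      unfold ms
      rw [← hK, hSg, Finset.sum_div]
      apply Finset.sum_le_sum
      intro m hm
      obtain ⟨h6, h7⟩ := hlogs m hm
      exact div_le_div_of_nonneg_left (fT_nonneg T m) hLpos h6
    refine h5.trans ?_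
    rw [div_le_iff₀ hLpos]
    refine hup.trans ?_
    have h6 : 0 ≤ c * L ^ 2 := by positivity
    nlinarith

/-- expected numbers for profiles with regular windows -/
lemma EE_of_regular {a : ℕ → ℝ} {c ε : ℝ} (hc : 0 < c) (hε : 0 < ε) (hε1 : ε ≤ 1)
    (h : ∀ᶠ n : ℕ in atTop, (1 - ε) * c * Real.log n ≤ ms a c n ∧ ms a c n ≤ (1 + ε) * c * Real.log n) :
    ∀ᶠ i : ℕ in atTop, (2 : ℝ) ^ ((1 - (1 + 2 * ε) * c) * i) ≤ EE a c i ∧
      EE a c i ≤ (2 : ℝ) ^ ((1 - (1 - ε) * c) * i) := by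
  obtain ⟨n₁, hn₁⟩ := eventually_atTop.1 h
  have hl2 := log_two_pos
  filter_upwards [eventually_ge_atTop n₁, tendsto_natCast_atTop_atTop.eventually_ge_atTop (2 / ε)] with i hi h1
  have hi2 : n₁ ≤ 2 ^ i := hi.trans Nat.lt_two_pow_self.le
  have hiε : 2 ≤ ε * i := by
    rw [div_le_iff₀ hε] at h1
    linarith
  have hlog : ∀ n : ℕ, n ∈ Finset.Ico (2 ^ i) (2 ^ (i + 1)) → i * Real.log 2 ≤ Real.log n ∧ Real.log n ≤ (i + 1) * Real.log 2 := by
    intro n hn
    rw [Finset.mem_Ico] at hn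
    have hn0 : (0 : ℝ) < n := by
      have : 0 < n := lt_of_lt_of_le (by positivity) hn.1
      exact_mod_cast this
    constructor
    · rw [← Real.log_pow]
      exact Real.log_le_log (by positivity) (by exact_mod_cast hn.1)
    · have h2 : Real.log n ≤ Real.log ((2 : ℝ) ^ (i + 1)) := Real.log_le_log hn0 (by exact_mod_cast hn.2.le)
      rw [Real.log_pow] at h2
      push_cast at h2
      exact h2
  constructor
  · have h2 : ∑ n ∈ Finset.Ico (2 ^ i) (2 ^ (i + 1)), Real.exp (-((1 + ε) * c * ((i + 1) * Real.log 2))) ≤ EE a c i := by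
      unfold EE
      apply Finset.sum_le_sum
      intro n hn
      apply Real.exp_le_exp.2
      have h3 := (hn₁ n (by rw [Finset.mem_Ico] at hn; omega)).2
      have h4 := (hlog n hn).2
      have h5 : (1 + ε) * c * Real.log n ≤ (1 + ε) * c * ((i + 1) * Real.log 2) :=
        mul_le_mul_of_nonneg_left h4 (by positivity)
      linarith
    refine le_trans ?_ h2
    rw [Finset.sum_const, card_block, nsmul_eq_mul]
    push_cast
    rw [← Real.rpow_natCast 2 i, two_rpow, two_rpow, ← Real.exp_add]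
    apply Real.exp_le_exp.2
    have h3 : (1 + ε) * (i + 1) ≤ (1 + 2 * ε) * i := by nlinarith
    have h4 : c * Real.log 2 * ((1 + ε) * (i + 1)) ≤ c * Real.log 2 * ((1 + 2 * ε) * i) :=
      mul_le_mul_of_nonneg_left h3 (by positivity)
    nlinarith
  · have h2 : EE a c i ≤ ∑ n ∈ Finset.Ico (2 ^ i) (2 ^ (i + 1)), Real.exp (-((1 - ε) * c * (i * Real.log 2))) := by
      unfold EE
      apply Finset.sum_le_sum
      intro n hn
      apply Real.exp_le_exp.2
      have h3 := (hn₁ n (by rw [Finset.mem_Ico] at hn; omega)).1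
      have h4 := (hlog n hn).1
      have h5 : (1 - ε) * c * (i * Real.log 2) ≤ (1 - ε) * c * Real.log n :=
        mul_le_mul_of_nonneg_left h4 (by
          have : 0 ≤ 1 - ε := by linarith
          positivity)
      linarith
    refine h2.trans (le_of_eq ?_)
    rw [Finset.sum_const, card_block, nsmul_eq_mul]
    push_cast
    rw [← Real.rpow_natCast 2 i, two_rpow, two_rpow, ← Real.exp_add]
    congr 1
    ring

end Pool.Agent.U462.Gap
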