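import Mathlib
import Pool.Agent.U462.Gap.Sieve2
import Pool.Agent.H510R2.Maier.MA6

set_option autoImplicit false
set_option linter.unusedSectionVars false

/-! # Sieved profiles: windows after the multiples of the primorial -/

open MeasureTheory Filter Set
open scoped ENNReal Topology

namespace Pool.Agent.U462.Gap

open Pool.Agent.U839.Sv (W W_eq W_pos W_ge_one W_mono W_le)
open Pool.Agent.H510R2.Maier (PI mem_PI GG GG_le pi_ev card_PI_le R1 sum_PI_inv)

lemma PI_le {z : ℕ} {N₀ : ℕ} (hN₀ : ∀ N, N₀ ≤ N → (Nat.primeCounting N : ℝ) ≤ (1 + 1) * (N / Real.log N))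
    (hz : N₀ ≤ z) (hz2 : 2 ≤ z) {l : ℝ} (hl : 0 < l) (hlz : l / 2 ≤ Real.log z) (N : ℕ) :
    ((PI z N).card : ℝ) ≤ 4 * N / l := by
  rcases le_or_gt N z with h5 | h5
  · have : PI z N = ∅ := by
      unfold PI
      rw [Finset.Ioc_eq_empty (by omega)]
      simp
    rw [this, Finset.card_empty, Nat.cast_zero]
    positivity
  · have h6 : ((PI z N).card : ℝ) ≤ Nat.primeCounting N := by exact_mod_cast card_PI_le z N
    refine h6.trans ((hN₀ N (by omega)).trans ?_)
    have h7 : Real.log z ≤ Real.log N := Real.log_le_log (by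
      have : 0 < z := by omega
      exact_mod_cast this) (by exact_mod_cast h5.le)
    have h8 : 0 < Real.log N := by linarith
    rw [← mul_div_assoc, div_le_div_iff₀ h8 hl]
    have h9 : (0 : ℝ) ≤ N := Nat.cast_nonneg N
    nlinarith

set_option maxHeartbeats 4000000 in
/-- the number of integers `m ≤ Y` without prime factors `≤ z`, if `Y` is about `z²` -/
theorem rough_count (δ : ℝ) (hδ : 0 < δ) (hδ1 : δ ≤ 1 / 8) (z Y : ℕ → ℕ)
    (hz : ∀ η : ℝ, 0 < η → ∀ᶠ i : ℕ in atTop, (1 - η) * Real.log i ≤ Real.log (z i))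
    (hY : ∀ η : ℝ, 0 < η → ∀ᶠ i : ℕ in atTop, (2 - η) * Real.log i ≤ Real.log (Y i) ∧
      Real.log (Y i) ≤ (2 + η) * Real.log i) :
    ∀ᶠ i : ℕ in atTop, ((GG (z i) ∅ (Y i)).card : ℝ) ≤ (1 / 2 + 14 * δ) * (Y i / Real.log i) := by
  obtain ⟨M, hM⟩ := Pool.Agent.H305R2.mertens_inv_tendsto
  have hlz : Tendsto (fun i => Real.log (z i)) atTop atTop := by
    refine tendsto_atTop_mono' _ ?_ (tlog.const_mul_atTop (show (0 : ℝ) < 1 - 1 / 2 by norm_num))
    exact hz (1 / 2) (by norm_num)
  have hzt : Tendsto z atTop atTop := by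
    rw [tendsto_atTop]
    intro b
    filter_upwards [hlz.eventually_gt_atTop (Real.log b), hlz.eventually_gt_atTop 0] with i hi hi0
    by_contra hcon
    push Not at hcon
    rcases Nat.eq_zero_or_pos (z i) with h0 | h0
    · rw [h0] at hi0
      simp at hi0
    have : Real.log (z i) ≤ Real.log b := Real.log_le_log (by exact_mod_cast h0) (by exact_mod_cast hcon.le)
    linarith
  have hlY : Tendsto (fun i => Real.log (Y i)) atTop atTop := by
    refine tendsto_atTop_mono' _ ?_ (tlog.const_mul_atTop (show (0 : ℝ) < 2 - 1 by norm_num))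
    filter_upwards [hY 1 one_pos] with i hi using hi.1
  have hYt : Tendsto Y atTop atTop := by
    rw [tendsto_atTop]
    intro b
    filter_upwards [hlY.eventually_gt_atTop (Real.log b), hlY.eventually_gt_atTop 0] with i hi hi0
    by_contra hcon
    push Not at hcon
    rcases Nat.eq_zero_or_pos (Y i) with h0 | h0
    · rw [h0] at hi0
      simp at hi0
    have : Real.log (Y i) ≤ Real.log b := Real.log_le_log (by exact_mod_cast h0) (by exact_mod_cast hcon.le)
    linarith
  obtain ⟨N₀, hN₀⟩ := eventually_atTop.1 (pi_ev 1 one_pos)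
  have hMe : ∀ᶠ N : ℕ in atTop, |R1 N - Real.log (Real.log N) - M| < δ := by
    have := Metric.tendsto_nhds.1 hM δ hδ
    filter_upwards [this] with N hN
    rwa [Real.dist_eq] at hN
  obtain ⟨N₁, hN₁⟩ := eventually_atTop.1 hMe
  filter_upwards [hz (δ / 8) (by positivity), hY (δ / 8) (by positivity), hzt.eventually_ge_atTop (max (max N₀ N₁) 2),
    hYt.eventually (pi_ev δ hδ), tlog.eventually_ge_atTop 1, hYt.eventually_ge_atTop 2,
    tlog.eventually_ge_atTop (1 / δ), hlY.eventually (eventually_ge_atTop (1 / δ)),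
    (hYt.eventually (by
      have h1 := (Real.isLittleO_log_id_atTop.bound (show (0 : ℝ) < δ by exact hδ))
      exact tendsto_natCast_atTop_atTop.eventually h1))] with i g1 g2 g3 g4 g5 g6 g7 g8 g9
  obtain ⟨l, hl⟩ : ∃ l, l = Real.log (i : ℝ) := ⟨_, rfl⟩
  obtain ⟨zz, hzz⟩ : ∃ zz, zz = z i := ⟨_, rfl⟩
  obtain ⟨YY, hYY⟩ : ∃ YY, YY = Y i := ⟨_, rfl⟩
  rw [← hl, ← hzz] at g1
  rw [← hl, ← hYY] at g2
  rw [← hzz] at g3
  rw [← hYY] at g4 g6 g8 g9
  rw [← hl] at g5 g7
  rw [← hzz, ← hYY, ← hl]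
  have hzN₀ : N₀ ≤ zz := (le_max_left _ _).trans ((le_max_left _ _).trans g3)
  have hzN₁ : N₁ ≤ zz := (le_max_right _ _).trans ((le_max_left _ _).trans g3)
  have hz2 : 2 ≤ zz := (le_max_right _ _).trans g3
  have hzr : (2 : ℝ) ≤ zz := by exact_mod_cast hz2
  have hYr : (2 : ℝ) ≤ YY := by exact_mod_cast g6
  have hlpos : 0 < l := by linarith
  have hlz2 : l / 2 ≤ Real.log zz := by nlinarith
  have hlzpos : 0 < Real.log zz := by linarith
  -- `Y < (z + 1)³`
  have hcube : YY < (zz + 1) ^ 3 := by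
    have h1 : Real.log YY < Real.log (((zz + 1 : ℕ) : ℝ) ^ 3) := by
      rw [Real.log_pow]
      have h2 : Real.log zz ≤ Real.log ((zz + 1 : ℕ) : ℝ) := Real.log_le_log (by linarith) (by push_cast; linarith)
      push_cast at h2 ⊢
      nlinarith [g2.2]
    rw [Real.log_lt_log_iff (by linarith) (by positivity)] at h1
    exact_mod_cast h1
  have hGG := GG_le zz ∅ YY hcube
  rw [Finset.sum_empty, add_zero] at hGG
  have hGG' : ((GG zz ∅ YY).card : ℝ) ≤ 1 + ((PI zz YY).card : ℝ) +
      ∑ p ∈ PI zz (YY / (zz + 1)), ((PI zz (YY / p)).card : ℝ) := by exact_mod_cast hGG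
  -- the primes
  have h1 : ((PI zz YY).card : ℝ) ≤ (1 / 2 + δ) * (YY / l) := by
    have h2 : ((PI zz YY).card : ℝ) ≤ Nat.primeCounting YY := by exact_mod_cast card_PI_le zz YY
    refine h2.trans (g4.trans ?_)
    have h3 : 0 < Real.log YY := by nlinarith [g2.1]
    rw [← mul_div_assoc, ← mul_div_assoc, div_le_div_iff₀ h3 hlpos]
    have h4 : (1 + δ) * l ≤ (1 / 2 + δ) * Real.log YY := by
      have h5 : (1 / 2 + δ) * ((2 - δ / 8) * l) ≤ (1 / 2 + δ) * Real.log YY :=
        mul_le_mul_of_nonneg_left g2.1 (by positivity)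
      nlinarith
    have h5 : (0 : ℝ) ≤ YY := by linarith
    nlinarith
  -- products of two primes
  have h2 : ∑ p ∈ PI zz (YY / (zz + 1)), ((PI zz (YY / p)).card : ℝ) ≤ 12 * δ * (YY / l) := by
    have h3 : ∑ p ∈ PI zz (YY / (zz + 1)), ((PI zz (YY / p)).card : ℝ) ≤
        ∑ p ∈ PI zz (YY / (zz + 1)), 4 * YY / l * (1 / (p : ℝ)) := by
      apply Finset.sum_le_sum
      intro p hp
      refine (PI_le hN₀ hzN₀ hz2 hlpos hlz2 _).trans ?_
      have h4 : ((YY / p : ℕ) : ℝ) ≤ YY / p := Nat.cast_div_le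
      calc 4 * ((YY / p : ℕ) : ℝ) / l ≤ 4 * (YY / p) / l := by gcongr
        _ = 4 * YY / l * (1 / (p : ℝ)) := by ring
    rw [← Finset.mul_sum] at h3
    refine h3.trans ?_
    have h4 : ∑ p ∈ PI zz (YY / (zz + 1)), 1 / (p : ℝ) ≤ 3 * δ := by
      rcases le_or_gt (YY / (zz + 1)) zz with h5 | h5
      · have : PI zz (YY / (zz + 1)) = ∅ := by
          unfold PI
          rw [Finset.Ioc_eq_empty (by omega)]
          simp
        rw [this, Finset.sum_empty]
        positivity
      · rw [sum_PI_inv h5.le]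
        obtain ⟨N, hN⟩ : ∃ N, N = YY / (zz + 1) := ⟨_, rfl⟩
        rw [← hN] at h5 ⊢
        have h6 := hN₁ zz hzN₁
        have h7 := hN₁ N (by omega)
        rw [abs_lt] at h6 h7
        have hNr : (zz : ℝ) < N := by exact_mod_cast h5
        have h8 : Real.log N ≤ (1 + δ) * Real.log zz := by
          have h9 : (N : ℝ) ≤ YY / zz := by
            rw [le_div_iff₀ (by linarith)]
            have h10 : N * (zz + 1) ≤ YY := by rw [hN]; exact Nat.div_mul_le_self _ _
            have h11 : (N : ℝ) * (zz + 1) ≤ YY := by exact_mod_cast h10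
            nlinarith
          have h10 : Real.log N ≤ Real.log (YY / zz) := Real.log_le_log (by linarith) h9
          rw [Real.log_div (by linarith) (by linarith)] at h10
          nlinarith [g2.2]
        have h9 : Real.log (Real.log N) ≤ δ + Real.log (Real.log zz) := by
          have h10 : 0 < Real.log N := lt_of_lt_of_le hlzpos (Real.log_le_log (by linarith) hNr.le)
          have h11 : Real.log (Real.log N) ≤ Real.log ((1 + δ) * Real.log zz) := Real.log_le_log h10 h8
          rw [Real.log_mul (by linarith) hlzpos.ne'] at h11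
          have h12 := Real.log_le_sub_one_of_pos (show 0 < 1 + δ by linarith)
          linarith
        linarith
    calc 4 * YY / l * ∑ p ∈ PI zz (YY / (zz + 1)), 1 / (p : ℝ) ≤ 4 * YY / l * (3 * δ) := by
          apply mul_le_mul_of_nonneg_left h4 (by positivity)
      _ = 12 * δ * (YY / l) := by ring
  -- the number `1`
  have h3 : 1 ≤ δ * (YY / l) := by
    rw [← mul_div_assoc, le_div_iff₀ hlpos, one_mul]
    simp only [id, Real.norm_of_nonneg (show 0 ≤ Real.log (YY : ℝ) from Real.log_nonneg (by linarith)),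
      Real.norm_of_nonneg (show (0 : ℝ) ≤ YY by linarith)] at g9
    nlinarith [g2.1]
  linarith

end Pool.Agent.U462.Gap
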