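import Mathlib
import Pool.Agent.U462.Gap.Sieve3

set_option autoImplicit false
set_option linter.unusedSectionVars false

/-! # Sieved profiles with the sieve limit `(log n)^(1 - o(1))` -/

open MeasureTheory Filter Set
open scoped ENNReal Topology

namespace Pool.Agent.U462.Gap

open Pool.Agent.U839.Sv (W W_eq W_pos W_ge_one W_mono W_le)
open Pool.Agent.H510R2.Maier (PI mem_PI GG GG_le pi_ev card_PI_le R1 sum_PI_inv)

/-- `T(n) = (log n)^(1 - o(1))` and `T(n) = o(log n)` -/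
def Near (T : ℕ → ℕ) : Prop :=
  (∀ θ : ℝ, θ < 1 → ∀ᶠ n : ℕ in atTop, (Real.log n) ^ θ ≤ T n) ∧
    ∀ ε : ℝ, 0 < ε → ∀ᶠ n : ℕ in atTop, (T n : ℝ) ≤ ε * Real.log n

lemma pow_tendsto : Tendsto (fun i : ℕ => 2 ^ i) atTop atTop :=
  tendsto_pow_atTop_atTop_of_one_lt (by norm_num : (1 : ℕ) < 2)

lemma Near.small {T : ℕ → ℕ} (h : Near T) : Small T := by
  intro ε hε
  have h1 := (isLittleO_log_rpow_atTop hε).bound one_pos
  filter_upwards [h.2 1 one_pos, tendsto_natCast_atTop_atTop.eventually h1, tlog.eventually_ge_atTop 0,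
    eventually_ge_atTop 1] with n g1 g2 g3 g4
  rw [one_mul, Real.norm_of_nonneg (by positivity), Real.norm_of_nonneg (by positivity)] at g2
  linarith

lemma const_le (K : ℝ) {η : ℝ} (hη : 0 < η) : ∀ᶠ i : ℕ in atTop, K ≤ η * Real.log i := by
  filter_upwards [tlog.eventually_ge_atTop (K / η)] with i hi
  rw [div_le_iff₀ hη] at hi
  linarith

lemma log_pow_two (i : ℕ) : Real.log ((2 ^ i : ℕ) : ℝ) = i * Real.log 2 := by
  push_cast
  rw [Real.log_pow]

lemma near_log {T : ℕ → ℕ} (h : Near T) {η : ℝ} (hη : 0 < η) :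
    ∀ᶠ i : ℕ in atTop, (1 - η) * Real.log i ≤ Real.log (T (2 ^ i)) := by
  have hl2 := log_two_pos
  rcases le_or_gt 1 η with h1 | h1
  · filter_upwards [eventually_ge_atTop 1] with i hi
    have h2 : 0 ≤ Real.log (i : ℝ) := Real.log_natCast_nonneg i
    have h3 : 0 ≤ Real.log (T (2 ^ i) : ℝ) := Real.log_natCast_nonneg _
    nlinarith
  · filter_upwards [pow_tendsto.eventually (h.1 (1 - η / 2) (by linarith)),
      const_le (-Real.log (Real.log 2)) (show 0 < η / 2 by positivity), eventually_ge_atTop 2] with i g1 g2 g3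
    rw [log_pow_two] at g1
    have hi : (2 : ℝ) ≤ i := by exact_mod_cast g3
    have hpos : 0 < (i : ℝ) * Real.log 2 := by positivity
    have h2 : 0 < ((i : ℝ) * Real.log 2) ^ (1 - η / 2) := by positivity
    have h3 := Real.log_le_log h2 g1
    rw [Real.log_rpow hpos, Real.log_mul (by linarith) hl2.ne'] at h3
    have h4 : 0 ≤ Real.log (i : ℝ) := Real.log_natCast_nonneg i
    have h5 : Real.log (Real.log 2) ≤ 0 := Real.log_nonpos hl2.le (by
      have := Real.log_two_lt_d9; linarith)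
    nlinarith

lemma Y_bounds {c : ℝ} (hc : 0 < c) : ∀ᶠ i : ℕ in atTop, c * Real.log 2 ^ 2 / 2 * (i : ℝ) ^ 2 ≤ wl c (2 ^ (i + 1)) ∧
    (wl c (2 ^ (i + 1)) : ℝ) ≤ 4 * c * (i : ℝ) ^ 2 := by
  have hl2 := log_two_pos
  have h0 : Tendsto (fun i : ℕ => c * Real.log 2 ^ 2 / 2 * (i : ℝ) ^ 2) atTop atTop :=
    ((tendsto_pow_atTop (by norm_num)).comp tendsto_natCast_atTop_atTop).const_mul_atTop (by positivity)
  filter_upwards [eventually_ge_atTop 1, h0.eventually_ge_atTop 1] with i hi h1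
  have hi1 : (1 : ℝ) ≤ i := by exact_mod_cast hi
  constructor
  · unfold wl
    rw [log_pow_two]
    have h2 : c * (((i + 1 : ℕ) : ℝ) * Real.log 2) ^ 2 < ⌊c * (((i + 1 : ℕ) : ℝ) * Real.log 2) ^ 2⌋₊ + 1 :=
      Nat.lt_floor_add_one _
    have h3 : c * Real.log 2 ^ 2 * (i : ℝ) ^ 2 ≤ c * (((i + 1 : ℕ) : ℝ) * Real.log 2) ^ 2 := by
      push_cast
      have h4 : (i : ℝ) ^ 2 ≤ ((i : ℝ) + 1) ^ 2 := pow_le_pow_left₀ (by linarith) (by linarith) 2
      calc c * Real.log 2 ^ 2 * (i : ℝ) ^ 2 ≤ c * Real.log 2 ^ 2 * ((i : ℝ) + 1) ^ 2 :=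
            mul_le_mul_of_nonneg_left h4 (by positivity)
        _ = c * (((i : ℝ) + 1) * Real.log 2) ^ 2 := by ring
    linarith
  · refine (wl_le hc.le i).trans ?_
    have h9 : ((i : ℝ) + 1) * Real.log 2 ≤ 2 * i := by
      have := Real.log_two_lt_d9
      nlinarith
    calc c * ((i + 1) * Real.log 2) ^ 2 ≤ c * (2 * i) ^ 2 :=
          mul_le_mul_of_nonneg_left (pow_le_pow_left₀ (by positivity) h9 2) hc.le
      _ = 4 * c * (i : ℝ) ^ 2 := by ring

lemma Y_log {c : ℝ} (hc : 0 < c) {η : ℝ} (hη : 0 < η) : ∀ᶠ i : ℕ in atTop,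
    (2 - η) * Real.log i ≤ Real.log (wl c (2 ^ (i + 1))) ∧ Real.log (wl c (2 ^ (i + 1))) ≤ (2 + η) * Real.log i := by
  have hl2 := log_two_pos
  filter_upwards [Y_bounds hc, const_le (-Real.log (c * Real.log 2 ^ 2 / 2)) hη, const_le (Real.log (4 * c)) hη,
    eventually_ge_atTop 1] with i g1 g2 g3 g4
  have hi1 : (1 : ℝ) ≤ i := by exact_mod_cast g4
  have hpos : 0 < c * Real.log 2 ^ 2 / 2 * (i : ℝ) ^ 2 := by positivity
  constructor
  · have h1 := Real.log_le_log hpos g1.1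
    rw [Real.log_mul (by positivity) (by positivity), Real.log_pow] at h1
    push_cast at h1
    linarith
  · have h1 := Real.log_le_log (lt_of_lt_of_le hpos g1.1) g1.2
    rw [Real.log_mul (by positivity) (by positivity), Real.log_pow] at h1
    push_cast at h1
    linarith

set_option maxHeartbeats 4000000 in
/-- the mass of a window after a multiple of the primorial -/
theorem mass_multiple (T : ℕ → ℕ) (hT : Monotone T) (hN : Near T) {c : ℝ} (hc : 0 < c) {ε : ℝ} (hε : 0 < ε) :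
    ∀ᶠ i : ℕ in atTop, ∀ n : ℕ, 2 ^ i ≤ n → n < 2 ^ (i + 1) → primorial (T (2 ^ i)) ∣ n →
      ms (aT T) c n ≤ (c * Real.exp Real.eulerMascheroniConstant / 2 + ε) * (i * Real.log 2) := by
  obtain ⟨E, hE⟩ : ∃ E, E = Real.exp Real.eulerMascheroniConstant := ⟨_, rfl⟩
  have hE0 : 0 < E := by rw [hE]; exact Real.exp_pos _
  rw [← hE]
  have hl2 := log_two_pos
  obtain ⟨δ, hδ0, hδ1, hδ2⟩ : ∃ δ : ℝ, 0 < δ ∧ δ ≤ 1 / 8 ∧ c * (δ * (60 * E + 60)) ≤ ε :=
    ⟨min (1 / 8) (ε / (c * (60 * E + 60))), lt_min (by norm_num) (by positivity), min_le_left _ _, by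
      have h1 := min_le_right (1 / 8) (ε / (c * (60 * E + 60)))
      calc c * (min (1 / 8) (ε / (c * (60 * E + 60))) * (60 * E + 60))
          ≤ c * ((ε / (c * (60 * E + 60))) * (60 * E + 60)) := by gcongr
        _ = ε := by field_simp⟩
  have hrc := rough_count δ hδ0 hδ1 (fun i => T (2 ^ i)) (fun i => wl c (2 ^ (i + 1)))
    (fun η hη => near_log hN hη) (fun η hη => Y_log hc hη)
  have hWe : ∀ᶠ N : ℕ in atTop, W N / Real.log N < E + δ := by
    rw [hE]
    exact W_lim.eventually (gt_mem_nhds (by linarith))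
  have hTt : Tendsto (fun i : ℕ => T (2 ^ (i + 2))) atTop atTop := by
    have h1 : Tendsto (fun n : ℕ => (T n : ℝ)) atTop atTop := by
      refine tendsto_atTop_mono' _ (hN.1 (1 / 2) (by norm_num)) ?_
      exact (tendsto_rpow_atTop (by norm_num)).comp tlog
    have h2 : Tendsto T atTop atTop := tendsto_natCast_atTop_iff.1 h1
    exact h2.comp ((tendsto_add_atTop_iff_nat 2).2 pow_tendsto)
  filter_upwards [hrc, hTt.eventually hWe, hTt.eventually_ge_atTop 2,
    ((tendsto_add_atTop_iff_nat 2).2 pow_tendsto).eventually (hN.2 1 one_pos), wl_small hc.le one_pos,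
    eventually_ge_atTop 5, tendsto_natCast_atTop_atTop.eventually_ge_atTop (3 / δ), Y_bounds hc] with i g1 g2 g3 g4 g5 g6 g7 g8
  intro n hn1 hn2 hPn
  have hi : (5 : ℝ) ≤ i := by exact_mod_cast g6
  obtain ⟨Y, hY⟩ : ∃ Y, Y = wl c (2 ^ (i + 1)) := ⟨_, rfl⟩
  obtain ⟨z, hz⟩ : ∃ z, z = T (2 ^ i) := ⟨_, rfl⟩
  rw [← hY, ← hz] at g1
  rw [← hY] at g5 g8
  rw [← hz] at hPn
  have hYN : Y ≤ 2 ^ i := by
    have : (Y : ℝ) ≤ 1 * 2 ^ i := g5
    rw [one_mul] at this
    exact_mod_cast this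
  have hwl : wl c n ≤ Y := by
    rw [hY]
    exact wl_mono hc.le (le_trans Nat.one_le_two_pow hn1) hn2.le
  have hl : 0 < Real.log i := Real.log_pos (by linarith)
  -- the weight
  have hW : W (T (2 ^ (i + 2))) ≤ (E + δ) * Real.log i := by
    have h1 : (2 : ℝ) ≤ T (2 ^ (i + 2)) := by exact_mod_cast g3
    have h2 : 0 < Real.log (T (2 ^ (i + 2)) : ℝ) := Real.log_pos (by linarith)
    rw [div_lt_iff₀ h2] at g2
    rw [log_pow_two, one_mul] at g4
    have h3 : (T (2 ^ (i + 2)) : ℝ) ≤ i := by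
      refine g4.trans ?_
      push_cast
      have := Real.log_two_lt_d9
      nlinarith
    have h4 : Real.log (T (2 ^ (i + 2)) : ℝ) ≤ Real.log i := Real.log_le_log (by linarith) h3
    have h5 : (E + δ) * Real.log (T (2 ^ (i + 2)) : ℝ) ≤ (E + δ) * Real.log i :=
      mul_le_mul_of_nonneg_left h4 (by positivity)
    linarith
  -- the sum
  classical
  have h1 : ms (aT T) c n ≤ ∑ m ∈ Finset.Ioc n (n + Y), (if ∀ p, p.Prime → p ≤ z → ¬ p ∣ m then
      (E + δ) * Real.log i / (i * Real.log 2) else 0) := by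
    have h2 : ms (aT T) c n ≤ ∑ m ∈ Finset.Ioc n (n + Y), aT T m := by
      unfold ms
      apply Finset.sum_le_sum_of_subset_of_nonneg
      · exact Finset.Ioc_subset_Ioc_right (by omega)
      · intro m _ _; exact aT_nonneg T m
    refine h2.trans (Finset.sum_le_sum ?_)
    intro m hm
    rw [Finset.mem_Ioc] at hm
    have hm1 : 2 ^ i ≤ m := by omega
    have hm2 : m ≤ 2 ^ (i + 2) := by
      have e1 : 2 ^ (i + 1) = 2 * 2 ^ i := by rw [pow_succ]; ring
      have e2 : 2 ^ (i + 2) = 4 * 2 ^ i := by rw [pow_add]; ring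
      omega
    have hlog : i * Real.log 2 ≤ Real.log m := by
      rw [← Real.log_pow]
      exact Real.log_le_log (by positivity) (by exact_mod_cast hm1)
    unfold aT
    rw [fT_def']
    by_cases h3 : ∀ p, p.Prime → p ≤ T m → ¬ p ∣ m
    · have h4 : ∀ p, p.Prime → p ≤ z → ¬ p ∣ m := fun p h5 h6 => h3 p h5 (h6.trans (by rw [hz]; exact hT hm1))
      rw [if_pos h3, if_pos h4]
      exact div_le_div₀ (by positivity) ((W_mono (hT hm2)).trans hW) (by positivity) hlog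
    · rw [if_neg h3, zero_div]
      split_ifs
      · positivity
      · exact le_rfl
  have h2 : ∑ m ∈ Finset.Ioc n (n + Y), (if ∀ p, p.Prime → p ≤ z → ¬ p ∣ m then
      (E + δ) * Real.log i / (i * Real.log 2) else 0) =
      ((GG z ∅ Y).card : ℝ) * ((E + δ) * Real.log i / (i * Real.log 2)) := by
    rw [← Finset.sum_filter, Finset.sum_const, nsmul_eq_mul]
    congr 2
    apply Finset.card_bij (fun m _ => m - n)
    · intro m hm
      rw [Finset.mem_filter, Finset.mem_Ioc] at hm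
      unfold GG
      rw [Finset.mem_filter, Finset.mem_Icc]
      refine ⟨by omega, fun p hp hd => ?_⟩
      left
      by_contra hcon
      push Not at hcon
      apply hm.2 p hp hcon
      have h3 : p ∣ n := (dvd_trans (by
        unfold primorial
        exact Finset.dvd_prod_of_mem _ (by
          rw [Finset.mem_filter, Finset.mem_range]; exact ⟨by omega, hp⟩)) hPn)
      have h4 : m = n + (m - n) := by omega
      rw [h4]
      exact Nat.dvd_add h3 hd
    · intro m hm m' hm' heq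
      rw [Finset.mem_filter, Finset.mem_Ioc] at hm hm'
      omega
    · intro h hh
      unfold GG at hh
      rw [Finset.mem_filter, Finset.mem_Icc] at hh
      refine ⟨n + h, ?_, by omega⟩
      rw [Finset.mem_filter, Finset.mem_Ioc]
      refine ⟨by omega, fun p hp hpz hd => ?_⟩
      have h3 : p ∣ n := (dvd_trans (by
        unfold primorial
        exact Finset.dvd_prod_of_mem _ (by
          rw [Finset.mem_filter, Finset.mem_range]; exact ⟨by omega, hp⟩)) hPn)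
      have h4 : p ∣ h := (Nat.dvd_add_right h3).1 hd
      rcases hh.2 p hp h4 with h5 | h5
      · omega
      · simp at h5
  rw [h2] at h1
  refine h1.trans ?_
  have h9 := wl_le hc.le i
  rw [← hY] at h9
  have h10 : (i : ℝ) + 1 ≤ (1 + δ / 3) * i := by
    rw [div_le_iff₀ hδ0] at g7
    linarith
  have h11 : (Y : ℝ) ≤ c * (1 + δ) * ((i : ℝ) * Real.log 2) ^ 2 := by
    have h12 : ((i : ℝ) + 1) ^ 2 ≤ ((1 + δ / 3) * i) ^ 2 := pow_le_pow_left₀ (by positivity) h10 2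
    have h13 : (1 + δ / 3) ^ 2 ≤ 1 + δ := by nlinarith
    calc (Y : ℝ) ≤ c * ((i + 1) * Real.log 2) ^ 2 := h9
      _ = c * (((i : ℝ) + 1) ^ 2 * Real.log 2 ^ 2) := by ring
      _ ≤ c * (((1 + δ / 3) * i) ^ 2 * Real.log 2 ^ 2) := by gcongr
      _ = c * (1 + δ / 3) ^ 2 * ((i : ℝ) * Real.log 2) ^ 2 := by ring
      _ ≤ c * (1 + δ) * ((i : ℝ) * Real.log 2) ^ 2 := by gcongr
  have hil : 0 < (i : ℝ) * Real.log 2 := by positivity
  calc ((GG z ∅ Y).card : ℝ) * ((E + δ) * Real.log i / (i * Real.log 2))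
      ≤ ((1 / 2 + 14 * δ) * (Y / Real.log i)) * ((E + δ) * Real.log i / (i * Real.log 2)) :=
        mul_le_mul_of_nonneg_right g1 (by positivity)
    _ = (1 / 2 + 14 * δ) * (E + δ) * (Y / (i * Real.log 2)) := by field_simp
    _ ≤ (1 / 2 + 14 * δ) * (E + δ) * ((c * (1 + δ) * ((i : ℝ) * Real.log 2) ^ 2) / (i * Real.log 2)) := by
        gcongr
    _ = c * ((1 / 2 + 14 * δ) * (E + δ) * (1 + δ)) * (i * Real.log 2) := by
        field_simp
    _ ≤ (c * E / 2 + ε) * (i * Real.log 2) := by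
        apply mul_le_mul_of_nonneg_right _ hil.le
        have h12 : (1 / 2 + 14 * δ) * (E + δ) * (1 + δ) ≤ E / 2 + δ * (60 * E + 60) := by
          have e1 : (E + δ) * (1 + δ) ≤ E + δ * (E + 2) := by nlinarith
          have e2 : (1 / 2 + 14 * δ) * ((E + δ) * (1 + δ)) ≤ (1 / 2 + 14 * δ) * (E + δ * (E + 2)) :=
            mul_le_mul_of_nonneg_left e1 (by positivity)
          have e3 : δ ^ 2 ≤ δ := by nlinarith
          have e4 : δ ^ 2 * E ≤ δ * E := mul_le_mul_of_nonneg_right e3 hE0.le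
          have e5 : (1 / 2 + 14 * δ) * (E + δ * (E + 2)) =
            E / 2 + (29 / 2 * (δ * E) + δ) + 14 * (δ ^ 2 * E) + 28 * δ ^ 2 := by ring
          have e6 : 0 ≤ δ * E := by positivity
          have e7 : (1 / 2 + 14 * δ) * (E + δ) * (1 + δ) = (1 / 2 + 14 * δ) * ((E + δ) * (1 + δ)) := by ring
          have e8 : δ * (60 * E + 60) = 60 * (δ * E) + 60 * δ := by ring
          rw [e7, e8]
          linarith
        have h13 := mul_le_mul_of_nonneg_left h12 hc.le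
        have h14 : c * (E / 2 + δ * (60 * E + 60)) = c * E / 2 + c * (δ * (60 * E + 60)) := by ring
        linarith

/-- the expected number of empty windows -/
theorem EE_near (T : ℕ → ℕ) (hT : Monotone T) (hN : Near T) {c : ℝ} (hc : 0 < c) {ε : ℝ} (hε : 0 < ε) :
    ∀ᶠ i : ℕ in atTop,
      (2 : ℝ) ^ ((1 - c * Real.exp Real.eulerMascheroniConstant / 2 - ε) * i) ≤ EE (aT T) c i := by
  have hl2 := log_two_pos
  obtain ⟨b, hb⟩ : ∃ b, b = c * Real.exp Real.eulerMascheroniConstant / 2 := ⟨_, rfl⟩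
  rw [← hb]
  obtain ⟨η, hη0, hη1, hη2⟩ : ∃ η : ℝ, 0 < η ∧ η ≤ 1 / 4 ∧ η ≤ ε / 4 :=
    ⟨min (1 / 4) (ε / 4), lt_min (by norm_num) (by positivity), min_le_left _ _, min_le_right _ _⟩
  filter_upwards [mass_multiple T hT hN hc (show 0 < ε / 4 by positivity),
    pow_tendsto.eventually (hN.2 (η / 2) (by positivity)),
    tendsto_natCast_atTop_atTop.eventually_ge_atTop (4 / η), eventually_ge_atTop 1] with i g1 g2 g3 g4
  have hi : (1 : ℝ) ≤ i := by exact_mod_cast g4
  obtain ⟨P, hP⟩ : ∃ P, P = primorial (T (2 ^ i)) := ⟨_, rfl⟩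
  rw [← hP] at g1
  rw [← hb] at g1
  have hPpos : 0 < P := by rw [hP]; exact primorial_pos _
  have hPr : (0 : ℝ) < P := by exact_mod_cast hPpos
  have hηi : 4 ≤ η * i := by
    rw [div_le_iff₀ hη0] at g3
    linarith
  -- the size of `P`
  have hPle : (P : ℝ) ≤ (2 : ℝ) ^ (η * i) := by
    have h1 : P ≤ 4 ^ T (2 ^ i) := by rw [hP]; exact primorial_le_four_pow _
    have h2 : (P : ℝ) ≤ (4 : ℝ) ^ T (2 ^ i) := by exact_mod_cast h1
    refine h2.trans ?_
    rw [log_pow_two] at g2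
    have h3 : (4 : ℝ) ^ T (2 ^ i) = (2 : ℝ) ^ (2 * (T (2 ^ i) : ℝ)) := by
      rw [← Real.rpow_natCast, show (4 : ℝ) = 2 ^ (2 : ℝ) by norm_num, ← Real.rpow_mul (by norm_num)]
    rw [h3]
    apply Real.rpow_le_rpow_of_exponent_le (by norm_num)
    have h4 : Real.log 2 ≤ 1 := by have := Real.log_two_lt_d9; linarith
    nlinarith
  -- the multiples of `P`
  have hsub : (Finset.Ico (2 ^ i / P + 1) (2 ^ (i + 1) / P)).image (fun k => P * k) ⊆ Finset.Ico (2 ^ i) (2 ^ (i + 1)) := by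
    intro n hn
    rw [Finset.mem_image] at hn
    obtain ⟨k, hk, rfl⟩ := hn
    rw [Finset.mem_Ico] at hk ⊢
    constructor
    · have h1 : 2 ^ i < P * (2 ^ i / P + 1) := Nat.lt_mul_div_succ _ hPpos
      have h2 : P * (2 ^ i / P + 1) ≤ P * k := Nat.mul_le_mul_left P hk.1
      omega
    · have h1 : P * k < P * (2 ^ (i + 1) / P) := Nat.mul_lt_mul_of_pos_left hk.2 hPpos
      exact lt_of_lt_of_le h1 (Nat.mul_div_le _ _)
  have hcard : (2 : ℝ) ^ i / P - 3 ≤ ((Finset.Ico (2 ^ i / P + 1) (2 ^ (i + 1) / P)).card : ℝ) := by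
    rw [Nat.card_Ico]
    have h1 : ((2 ^ i / P : ℕ) : ℝ) ≤ ((2 ^ i : ℕ) : ℝ) / P := Nat.cast_div_le
    have h2 : ((2 ^ (i + 1) : ℕ) : ℝ) / P < ((2 ^ (i + 1) / P : ℕ) : ℝ) + 1 := by
      rw [div_lt_iff₀ hPr]
      have h3 : 2 ^ (i + 1) < P * (2 ^ (i + 1) / P + 1) := Nat.lt_mul_div_succ _ hPpos
      have h4 : ((2 ^ (i + 1) : ℕ) : ℝ) < P * (((2 ^ (i + 1) / P : ℕ) : ℝ) + 1) := by exact_mod_cast h3
      linarith
    have h3 : ((2 ^ (i + 1) / P : ℕ) : ℝ) - ((2 ^ i / P + 1 : ℕ) : ℝ) ≤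
        ((2 ^ (i + 1) / P - (2 ^ i / P + 1) : ℕ) : ℝ) := by
      rw [sub_le_iff_le_add]
      exact_mod_cast (le_tsub_add : 2 ^ (i + 1) / P ≤ 2 ^ (i + 1) / P - (2 ^ i / P + 1) + (2 ^ i / P + 1))
    push_cast at h1 h2 h3 ⊢
    have h4 : (2 : ℝ) ^ (i + 1) / P = 2 ^ i / P + 2 ^ i / P := by rw [pow_succ]; ring
    rw [h4] at h2
    linarith
  have hEE : ((Finset.Ico (2 ^ i / P + 1) (2 ^ (i + 1) / P)).card : ℝ) * Real.exp (-((b + ε / 4) * (i * Real.log 2))) ≤
      EE (aT T) c i := by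
    have h1 : ∑ n ∈ (Finset.Ico (2 ^ i / P + 1) (2 ^ (i + 1) / P)).image (fun k => P * k), Real.exp (-ms (aT T) c n) ≤
        EE (aT T) c i := by
      unfold EE
      exact Finset.sum_le_sum_of_subset_of_nonneg hsub (fun n _ _ => (Real.exp_pos _).le)
    refine le_trans ?_ h1
    rw [Finset.sum_image (fun x _ y _ h => Nat.eq_of_mul_eq_mul_left hPpos h), ← nsmul_eq_mul, ← Finset.sum_const]
    apply Finset.sum_le_sum
    intro k hk
    apply Real.exp_le_exp.2
    have h2 := Finset.mem_Ico.1 (hsub (Finset.mem_image_of_mem _ hk))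
    have h3 := g1 (P * k) h2.1 h2.2 (Dvd.intro k rfl)
    linarith
  refine le_trans ?_ hEE
  have h1 : (2 : ℝ) ^ ((1 - 2 * η) * i) ≤ ((Finset.Ico (2 ^ i / P + 1) (2 ^ (i + 1) / P)).card : ℝ) := by
    refine le_trans ?_ hcard
    have h2 : (2 : ℝ) ^ ((1 - η) * i) ≤ 2 ^ i / P := by
      rw [le_div_iff₀ hPr]
      calc (2 : ℝ) ^ ((1 - η) * i) * P ≤ (2 : ℝ) ^ ((1 - η) * i) * (2 : ℝ) ^ (η * i) :=
            mul_le_mul_of_nonneg_left hPle (by positivity)
        _ = 2 ^ i := by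
          rw [← Real.rpow_add (by norm_num), ← Real.rpow_natCast]
          congr 1
          ring
    have h3 : (2 : ℝ) ^ ((1 - η) * i) = (2 : ℝ) ^ ((1 - 2 * η) * i) * (2 : ℝ) ^ (η * i) := by
      rw [← Real.rpow_add (by norm_num)]
      congr 1
      ring
    have h4 : (4 : ℝ) ≤ (2 : ℝ) ^ (η * i) := by
      calc (4 : ℝ) = (2 : ℝ) ^ (2 : ℝ) := by norm_num
        _ ≤ (2 : ℝ) ^ (η * i) := Real.rpow_le_rpow_of_exponent_le (by norm_num) (by linarith)
    have h5 : (1 : ℝ) ≤ (2 : ℝ) ^ ((1 - 2 * η) * i) := by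
      apply Real.one_le_rpow (by norm_num)
      have : 0 ≤ 1 - 2 * η := by linarith
      positivity
    nlinarith
  have h2 : Real.exp (-((b + ε / 4) * (i * Real.log 2))) = (2 : ℝ) ^ (-((b + ε / 4) * i)) := by
    rw [two_rpow]
    congr 1
    ring
  rw [h2]
  calc (2 : ℝ) ^ ((1 - b - ε) * i) ≤ (2 : ℝ) ^ ((1 - 2 * η) * i + -((b + ε / 4) * i)) := by
        apply Real.rpow_le_rpow_of_exponent_le (by norm_num)
        nlinarith
    _ = (2 : ℝ) ^ ((1 - 2 * η) * i) * (2 : ℝ) ^ (-((b + ε / 4) * i)) := Real.rpow_add (by norm_num) _ _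
    _ ≤ _ := mul_le_mul_of_nonneg_right h1 (by positivity)

end Pool.Agent.U462.Gap
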