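import Mathlib
import Pool.Agent.U462.Gap.Sieve4

set_option autoImplicit false
set_option linter.unusedSectionVars false

/-! # The statistics of the gaps on the record scale in sequential models: final theorems -/

open MeasureTheory Filter Set
open scoped ENNReal Topology

namespace Pool.Agent.U462.Gap

variable {Ω : Type} {m0 : MeasurableSpace Ω} {μ : Measure Ω} [IsProbabilityMeasure μ]
  {ℱ : Filtration ℕ m0} {A : ℕ → Set Ω} {a : ℕ → ℝ}

theorem counts_real (h : Model μ ℱ A a) (ha : ∀ n, 0 ≤ a n) (ha0 : Tendsto a atTop (𝓝 0)) {c : ℝ} (hc' : 0 ≤ c) :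
    ∀ᵐ ω ∂μ, ∀ ε : ℝ, 0 < ε → ∀ᶠ i : ℕ in atTop,
      (ZZ {n | ω ∈ A n} c i : ℝ) ≤ (2 : ℝ) ^ (ε * i) * EE a c i ∧
      EE a c i ≤ (2 : ℝ) ^ (ε * i) * (ZZ {n | ω ∈ A n} c i + 1) := by
  have h1 : ∀ k : ℕ, ∀ᵐ ω ∂μ, ∀ᶠ i : ℕ in atTop,
      (ZZ {n | ω ∈ A n} c i : ℝ) ≤ (2 : ℝ) ^ ((1 / ((k : ℝ) + 1)) * i) * EE a c i ∧
      EE a c i ≤ (2 : ℝ) ^ ((1 / ((k : ℝ) + 1)) * i) * (ZZ {n | ω ∈ A n} c i + 1) := by
    intro k
    filter_upwards [count_up h ha ha0 (c : ℝ) (show 0 < 1 / ((k : ℝ) + 1) by positivity),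
      count_low h ha ha0 hc' (show 0 < 1 / ((k : ℝ) + 1) by positivity)] with ω h2 h3
    exact h2.and h3
  rw [← ae_all_iff] at h1
  filter_upwards [h1] with ω hω ε hε
  obtain ⟨k, hk⟩ := exists_nat_one_div_lt hε
  filter_upwards [hω k] with i hi
  have h2 : (2 : ℝ) ^ ((1 / ((k : ℝ) + 1)) * i) ≤ (2 : ℝ) ^ (ε * i) := by
    apply Real.rpow_le_rpow_of_exponent_le (by norm_num)
    exact mul_le_mul_of_nonneg_right hk.le (Nat.cast_nonneg i)
  have h3 := (EE_pos a c i).le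
  constructor
  · exact hi.1.trans (mul_le_mul_of_nonneg_right h2 h3)
  · exact hi.2.trans (mul_le_mul_of_nonneg_right h2 (by positivity))

/-- lower bounds for the number of empty windows -/
lemma ZZ_ge (S : Set ℕ) {c β : ℝ} (hβ : 0 < β)
    (hc : ∀ ε : ℝ, 0 < ε → ∀ᶠ i : ℕ in atTop, EE a c i ≤ (2 : ℝ) ^ (ε * i) * (ZZ S c i + 1))
    (hE : ∀ ε : ℝ, 0 < ε → ∀ᶠ i : ℕ in atTop, (2 : ℝ) ^ ((β - ε) * i) ≤ EE a c i) :
    ∀ ε : ℝ, 0 < ε → ∀ᶠ i : ℕ in atTop, (2 : ℝ) ^ ((β - ε) * i) ≤ ZZ S c i := by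
  intro ε hε
  obtain ⟨η, hη0, hη1, hη2⟩ : ∃ η : ℝ, 0 < η ∧ 3 * η ≤ ε ∧ 3 * η ≤ β :=
    ⟨min (ε / 3) (β / 3), lt_min (by positivity) (by positivity), by
      have := min_le_left (ε / 3) (β / 3); linarith, by
      have := min_le_right (ε / 3) (β / 3); linarith⟩
  filter_upwards [hc η hη0, hE η hη0, tendsto_natCast_atTop_atTop.eventually_ge_atTop (1 / η)] with i h1 h2 h3
  have hi0 : (0 : ℝ) ≤ i := Nat.cast_nonneg i
  have hηi : 1 ≤ η * i := by
    rw [div_le_iff₀ hη0] at h3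
    linarith
  have h4 : (2 : ℝ) ^ ((β - 2 * η) * i) ≤ ZZ S c i + 1 := by
    have h5 : (2 : ℝ) ^ ((β - η) * i) = (2 : ℝ) ^ (η * i) * (2 : ℝ) ^ ((β - 2 * η) * i) := by
      rw [← Real.rpow_add (by norm_num)]
      congr 1
      ring
    rw [h5] at h2
    exact le_of_mul_le_mul_left (h2.trans h1) (by positivity)
  have h5 : (2 : ℝ) ^ ((β - 2 * η) * i) = (2 : ℝ) ^ ((β - 3 * η) * i) * (2 : ℝ) ^ (η * i) := by
    rw [← Real.rpow_add (by norm_num)]
    congr 1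
    ring
  have h6 : (2 : ℝ) ≤ (2 : ℝ) ^ (η * i) := by
    calc (2 : ℝ) = (2 : ℝ) ^ (1 : ℝ) := by norm_num
      _ ≤ (2 : ℝ) ^ (η * i) := Real.rpow_le_rpow_of_exponent_le (by norm_num) hηi
  have h7 : (1 : ℝ) ≤ (2 : ℝ) ^ ((β - 3 * η) * i) := by
    apply Real.one_le_rpow (by norm_num)
    have : 0 ≤ β - 3 * η := by linarith
    positivity
  have h8 : (2 : ℝ) ^ ((β - ε) * i) ≤ (2 : ℝ) ^ ((β - 3 * η) * i) := by
    apply Real.rpow_le_rpow_of_exponent_le (by norm_num)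
    apply mul_le_mul_of_nonneg_right _ hi0
    linarith
  nlinarith

/-- lower bound for Cramér's constant -/
lemma LL_ge_of (S : Set ℕ) (hS : S.Infinite) {C : ℝ}
    (h : ∀ c : ℚ, 0 < c → (c : ℝ) < C → ∃ᶠ i : ℕ in atTop, 0 < ZZ S c i) : (C : EReal) ≤ LL S := by
  apply le_of_forall_lt_imp_le_of_dense
  intro b hb
  obtain ⟨q, hq1, hq2⟩ := EReal.lt_iff_exists_rat_btwn.1 hb
  refine hq1.le.trans ?_
  rcases le_or_gt q 0 with hneg | hq0
  · have h1 : ((0 : ℝ) : EReal) ≤ LL S := by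
      apply le_LL S hS le_rfl
      apply Eventually.frequently
      filter_upwards with n m h1 h2
      exfalso
      have : wl 0 n = 0 := by simp [wl]
      omega
    refine le_trans ?_ h1
    have : (q : ℝ) ≤ 0 := by exact_mod_cast hneg
    exact_mod_cast this
  · have hqC : (q : ℝ) < C := by exact_mod_cast hq2
    have key : (((q : ℝ)) : EReal) ≤ LL S :=
      le_LL_of_ZZ S hS (by exact_mod_cast hq0.le) (h q hq0 hqC)
    exact key

lemma LL_le_of (S : Set ℕ) (hS : S.Infinite) {C : ℝ} (hC : 0 ≤ C)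
    (h : ∀ c : ℚ, C < (c : ℝ) → ∀ᶠ i : ℕ in atTop, ZZ S c i = 0) : LL S ≤ (C : EReal) := by
  apply le_of_forall_gt_imp_ge_of_dense
  intro b hb
  obtain ⟨q, hq1, hq2⟩ := EReal.lt_iff_exists_rat_btwn.1 hb
  refine le_trans ?_ hq2.le
  have hqC : C < (q : ℝ) := by exact_mod_cast hq1
  have key : LL S ≤ (((q : ℝ)) : EReal) := LL_le_of_ZZ S hS (by linarith) (h q hqC)
  exact key

lemma pos_of_ge {S : Set ℕ} {c x : ℝ} {i : ℕ} (h : (2 : ℝ) ^ x ≤ ZZ S c i) : 0 < ZZ S c i := by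
  have h1 : (0 : ℝ) < (2 : ℝ) ^ x := by positivity
  have h2 : (0 : ℝ) < ZZ S c i := lt_of_lt_of_le h1 h
  exact_mod_cast h2

variable {T : ℕ → ℕ}

/-- every sieve -/
theorem sieve_general (h : Model μ ℱ A (aT T)) (hT : Monotone T) (hTs : Small T) {c : ℝ} (hc : 0 < c) (hc1 : c < 1) :
    ∀ᵐ ω ∂μ, ∀ ε : ℝ, 0 < ε → ∀ᶠ i : ℕ in atTop, (2 : ℝ) ^ ((1 - c - ε) * i) ≤ ZZ {n | ω ∈ A n} c i := by
  filter_upwards [counts_real h (aT_nonneg T) (aT_tendsto T hTs) hc.le] with ω hω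
  exact ZZ_ge {n | ω ∈ A n} (show 0 < 1 - c by linarith) (fun ε hε => (hω ε hε).mono fun i hi => hi.2)
    (fun ε hε => EE_general T hT hTs hc hε)

theorem sieve_general_LL (h : Model μ ℱ A (aT T)) (hT : Monotone T) (hTs : Small T) :
    ∀ᵐ ω ∂μ, {n | ω ∈ A n}.Infinite ∧ (1 : EReal) ≤ LL {n | ω ∈ A n} := by
  filter_upwards [T_infinite h hT hTs, counts h (aT_nonneg T) (aT_tendsto T hTs)] with ω hinf hω
  refine ⟨hinf, ?_⟩
  have key : ((1 : ℝ) : EReal) ≤ LL {n | ω ∈ A n} := by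
    apply LL_ge_of _ hinf
    intro c hc hc1
    have hc0 : (0 : ℝ) < c := by exact_mod_cast hc
    have h1 := ZZ_ge {n | ω ∈ A n} (show 0 < 1 - (c : ℝ) by linarith)
      (fun ε hε => (hω c hc.le ε hε).mono fun i hi => hi.2)
      (fun ε hε => EE_general T hT hTs hc0 hε) 1 one_pos
    exact (h1.mono fun i hi => pos_of_ge hi).frequently
  exact key

/-- small sieves: the constant is `1` -/
theorem sieve_small_LL (h : Model μ ℱ A (aT T)) (hT : Monotone T)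
    (hTl : ∀ θ : ℝ, 0 < θ → ∀ᶠ n : ℕ in atTop, (T n : ℝ) ≤ (Real.log n) ^ θ) :
    ∀ᵐ ω ∂μ, {n | ω ∈ A n}.Infinite ∧ LL {n | ω ∈ A n} = 1 := by
  have hTs : Small T := by
    intro ε hε
    have h1 := (isLittleO_log_rpow_rpow_atTop 1 hε).bound one_pos
    filter_upwards [hTl 1 one_pos, tendsto_natCast_atTop_atTop.eventually h1, tlog.eventually_ge_atTop 0,
      eventually_ge_atTop 1] with n g1 g2 g3 g4
    have hn0 : (0 : ℝ) < n := by exact_mod_cast g4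
    rw [one_mul, Real.norm_of_nonneg (by positivity), Real.norm_of_nonneg (by positivity)] at g2
    exact g1.trans g2
  filter_upwards [sieve_general_LL h hT hTs, counts h (aT_nonneg T) (aT_tendsto T hTs)] with ω h1 hω
  refine ⟨h1.1, le_antisymm ?_ h1.2⟩
  have key : LL {n | ω ∈ A n} ≤ ((1 : ℝ) : EReal) := by
    apply LL_le_of _ h1.1 zero_le_one
    intro c hc
    have hc0 : (0 : ℝ) < c := by linarith
    have hcq : (0 : ℚ) ≤ c := by exact_mod_cast hc0.le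
    obtain ⟨η, hη0, hη1, hη2⟩ : ∃ η : ℝ, 0 < η ∧ η ≤ 1 ∧ 1 + 2 * η ≤ (1 - η) * c := by
      refine ⟨min 1 (((c : ℝ) - 1) / (2 + c)), lt_min one_pos (by
        apply div_pos <;> linarith), min_le_left _ _, ?_⟩
      have h2 := min_le_right 1 (((c : ℝ) - 1) / (2 + c))
      have h3 : min 1 (((c : ℝ) - 1) / (2 + c)) * (2 + c) ≤ ((c : ℝ) - 1) / (2 + c) * (2 + c) :=
        mul_le_mul_of_nonneg_right h2 (by linarith)
      have h4 : ((c : ℝ) - 1) / (2 + c) * (2 + c) = c - 1 := by field_simp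
      linarith
    obtain ⟨θ, hθ, H⟩ := regular η hη0 hη1
    have h2 := EE_of_regular hc0 hη0 hη1 (H T hT (hTl θ hθ) c hc0)
    filter_upwards [h2, hω c hcq η hη0, eventually_gt_atTop 0] with i h3 h4 h5
    have hi : (0 : ℝ) < i := by exact_mod_cast h5
    have h6 : (ZZ {n | ω ∈ A n} (c : ℝ) i : ℝ) < 1 := by
      calc (ZZ {n | ω ∈ A n} (c : ℝ) i : ℝ) ≤ (2 : ℝ) ^ (η * i) * EE (aT T) c i := h4.1
        _ ≤ (2 : ℝ) ^ (η * i) * (2 : ℝ) ^ ((1 - (1 - η) * c) * i) :=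
          mul_le_mul_of_nonneg_left h3.2 (by positivity)
        _ = (2 : ℝ) ^ ((η + (1 - (1 - η) * c)) * i) := by
          rw [← Real.rpow_add (by norm_num)]
          congr 1
          ring
        _ < (2 : ℝ) ^ (0 : ℝ) := by
          apply Real.rpow_lt_rpow_of_exponent_lt (by norm_num)
          have : η + (1 - (1 - η) * c) < 0 := by linarith
          nlinarith
        _ = 1 := Real.rpow_zero _
    have h7 : ZZ {n | ω ∈ A n} (c : ℝ) i < 1 := by exact_mod_cast h6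
    omega
  exact key

/-- small sieves: the number of empty windows -/
theorem sieve_small (h : Model μ ℱ A (aT T)) (hT : Monotone T)
    (hTl : ∀ θ : ℝ, 0 < θ → ∀ᶠ n : ℕ in atTop, (T n : ℝ) ≤ (Real.log n) ^ θ) {c : ℝ} (hc : 0 < c) (hc1 : c < 1) :
    ∀ᵐ ω ∂μ, ∀ ε : ℝ, 0 < ε → ∀ᶠ i : ℕ in atTop, (2 : ℝ) ^ ((1 - c - ε) * i) ≤ ZZ {n | ω ∈ A n} c i ∧
      (ZZ {n | ω ∈ A n} c i : ℝ) ≤ (2 : ℝ) ^ ((1 - c + ε) * i) := by
  have hTs : Small T := by
    intro ε hε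
    have h1 := (isLittleO_log_rpow_rpow_atTop 1 hε).bound one_pos
    filter_upwards [hTl 1 one_pos, tendsto_natCast_atTop_atTop.eventually h1, tlog.eventually_ge_atTop 0,
      eventually_ge_atTop 1] with n g1 g2 g3 g4
    have hn0 : (0 : ℝ) < n := by exact_mod_cast g4
    rw [one_mul, Real.norm_of_nonneg (by positivity), Real.norm_of_nonneg (by positivity)] at g2
    exact g1.trans g2
  filter_upwards [sieve_general h hT hTs hc hc1, counts_real h (aT_nonneg T) (aT_tendsto T hTs) hc.le] with ω h1 hω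
  intro ε hε
  obtain ⟨η, hη0, hη1, hη2⟩ : ∃ η : ℝ, 0 < η ∧ η ≤ 1 ∧ 2 * η ≤ ε :=
    ⟨min 1 (ε / 2), lt_min one_pos (by positivity), min_le_left _ _, by
      have := min_le_right 1 (ε / 2); linarith⟩
  obtain ⟨θ, hθ, H⟩ := regular η hη0 hη1
  have h2 := EE_of_regular hc hη0 hη1 (H T hT (hTl θ hθ) c hc)
  filter_upwards [h1 ε hε, h2, hω η hη0] with i h3 h4 h5
  refine ⟨h3, ?_⟩
  have hi : (0 : ℝ) ≤ i := Nat.cast_nonneg i
  calc (ZZ {n | ω ∈ A n} c i : ℝ) ≤ (2 : ℝ) ^ (η * i) * EE (aT T) c i := h5.1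
    _ ≤ (2 : ℝ) ^ (η * i) * (2 : ℝ) ^ ((1 - (1 - η) * c) * i) :=
      mul_le_mul_of_nonneg_left h4.2 (by positivity)
    _ = (2 : ℝ) ^ ((η + (1 - (1 - η) * c)) * i) := by
      rw [← Real.rpow_add (by norm_num)]
      congr 1
      ring
    _ ≤ (2 : ℝ) ^ ((1 - c + ε) * i) := by
      apply Real.rpow_le_rpow_of_exponent_le (by norm_num)
      apply mul_le_mul_of_nonneg_right _ hi
      nlinarith

/-- the sieve limit `(log n)^(1 - o(1))`: the number of empty windows -/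
theorem sieve_near (h : Model μ ℱ A (aT T)) (hT : Monotone T) (hN : Near T) {c : ℝ} (hc : 0 < c)
    (hc1 : c < 2 * Real.exp (-Real.eulerMascheroniConstant)) :
    ∀ᵐ ω ∂μ, ∀ ε : ℝ, 0 < ε → ∀ᶠ i : ℕ in atTop,
      (2 : ℝ) ^ ((1 - c * Real.exp Real.eulerMascheroniConstant / 2 - ε) * i) ≤ ZZ {n | ω ∈ A n} c i := by
  have hβ : 0 < 1 - c * Real.exp Real.eulerMascheroniConstant / 2 := by
    have h1 : c * Real.exp Real.eulerMascheroniConstant <
        2 * Real.exp (-Real.eulerMascheroniConstant) * Real.exp Real.eulerMascheroniConstant :=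
      mul_lt_mul_of_pos_right hc1 (Real.exp_pos _)
    rw [mul_assoc, ← Real.exp_add, neg_add_cancel, Real.exp_zero] at h1
    linarith
  filter_upwards [counts_real h (aT_nonneg T) (aT_tendsto T hN.small) hc.le] with ω hω
  exact ZZ_ge {n | ω ∈ A n} hβ (fun ε hε => (hω ε hε).mono fun i hi => hi.2)
    (fun ε hε => EE_near T hT hN hc hε)

theorem sieve_near_LL (h : Model μ ℱ A (aT T)) (hT : Monotone T) (hN : Near T) :
    ∀ᵐ ω ∂μ, {n | ω ∈ A n}.Infinite ∧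
      ((2 * Real.exp (-Real.eulerMascheroniConstant) : ℝ) : EReal) ≤ LL {n | ω ∈ A n} := by
  filter_upwards [T_infinite h hT hN.small, counts h (aT_nonneg T) (aT_tendsto T hN.small)] with ω hinf hω
  refine ⟨hinf, ?_⟩
  apply LL_ge_of _ hinf
  intro c hc hc1
  have hc0 : (0 : ℝ) < c := by exact_mod_cast hc
  have hβ : 0 < 1 - c * Real.exp Real.eulerMascheroniConstant / 2 := by
    have h1 : c * Real.exp Real.eulerMascheroniConstant <
        2 * Real.exp (-Real.eulerMascheroniConstant) * Real.exp Real.eulerMascheroniConstant :=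
      mul_lt_mul_of_pos_right hc1 (Real.exp_pos _)
    rw [mul_assoc, ← Real.exp_add, neg_add_cancel, Real.exp_zero] at h1
    linarith
  have h1 := ZZ_ge {n | ω ∈ A n} hβ
    (fun ε hε => (hω c hc.le ε hε).mono fun i hi => hi.2)
    (fun ε hε => EE_near T hT hN hc0 hε) 1 one_pos
  exact (h1.mono fun i hi => pos_of_ge hi).frequently

/-- independent events form a model -/
theorem indep_model {A : ℕ → Set Ω} (hm : ∀ n, MeasurableSet (A n)) (hi : ProbabilityTheory.iIndepSet A μ)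
    (hp : ∀ ε : ℝ, 0 < ε → ∀ᶠ n : ℕ in atTop, |μ.real (A n) - a n| ≤ ε * a n) :
    Model μ (filtrationOfSet hm) A a := by
  refine ⟨fun m => measurableSet_filtrationOfSet' hm m, ?_⟩
  have h0 : ∀ᵐ ω ∂μ, ∀ n : ℕ, (μ[(A (n + 1)).indicator (fun _ => (1 : ℝ)) | filtrationOfSet hm n]) ω =
      μ.real (A (n + 1)) := by
    rw [ae_all_iff]
    intro n
    exact hi.condExp_indicator_filtrationOfSet_ae_eq hm n.lt_succ_self
  filter_upwards [h0] with ω h2 ε hε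
  filter_upwards [(tendsto_add_atTop_nat 1).eventually (hp ε hε)] with n hn
  unfold Pool.Agent.R528.RM.dens
  rw [h2 n]
  exact hn

end Pool.Agent.U462.Gap
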